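import Pool.Agent.H25.AD.Main

/-!
# The quantitative weak Amoroso-David theorem in terms of Mahler measures
-/

open H61.Geo MvPolynomial

namespace H25

/-- `r` multiplicatively independent algebraic integers of degree `n` and Mahler measure at most
`exp Y` generate a field of degree at least `n ^ r / (C Y log n) ^ C` -/
theorem AD (r : ℕ) (hr : 1 ≤ r) : ∃ C : ℕ, ∀ (K : Type) [Field K] [NumberField K]
    [IsGalois ℚ K] (n Y : ℕ) (β : Fin r → K), 2 ≤ n → 1 ≤ Y → (∀ i, IsIntegral ℤ (β i)) →
    (∀ i, (minpoly ℚ (β i)).natDegree = n) →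
    (∀ i, ((minpoly ℤ (β i)).map (Int.castRingHom ℂ)).mahlerMeasure ≤ Real.exp Y) →
    (∀ m : Fin r → ℤ, ∏ i, β i ^ m i = 1 → m = 0) →
    n ^ r ≤ (C * ((Nat.log 2 n + 1) * Y)) ^ C *
      Module.finrank ℚ (IntermediateField.adjoin ℚ (Set.range β)) := by
  obtain ⟨C, hC⟩ := Arith.AD_hh r hr
  refine ⟨C, ?_⟩
  intro K _ _ _ n Y β hn hY hint hdeg hM hind
  obtain ⟨σ⟩ : Nonempty (K →+* ℂ) := inferInstance
  have hne : ∀ i, β i ≠ 0 := by
    intro i h0
    have := hdeg i
    rw [h0, minpoly.zero, Polynomial.natDegree_X] at this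
    omega
  have horb : ∀ i, (Arith.orb (β i)).card = n := fun i => by rw [Arith.orb_card, hdeg i]
  have hhh : ∀ i, n * Arith.hh σ (β i) ≤ Y := by
    intro i
    have h3 := Arith.hh_mahler σ (β i) (hint i)
    rw [horb i] at h3
    rw [h3]
    have h4 : 0 < ((minpoly ℤ (β i)).map (Int.castRingHom ℂ)).mahlerMeasure := by
      apply Polynomial.mahlerMeasure_pos_of_ne_zero
      have := (minpoly.monic (hint i)).map (Int.castRingHom ℂ)
      exact this.ne_zero
    calc Real.log _ ≤ Real.log (Real.exp Y) := Real.log_le_log h4 (hM i)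
      _ = Y := Real.log_exp _
  refine hC K σ β n Y hn hY hne hint (fun i => (horb i).le) hhh fun m hm k hk hmk => hm ?_
  have h5 := hind (fun i => m i * k) (by
    rw [← hmk, ← Finset.prod_pow]
    refine Finset.prod_congr rfl fun i _ => ?_
    rw [zpow_mul, zpow_natCast])
  funext i
  have h6 := congrFun h5 i
  simp only [Pi.zero_apply, mul_eq_zero] at h6
  rcases h6 with h6 | h6
  · simpa using h6
  · exact absurd (by exact_mod_cast h6) hk.ne'

end H25
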