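import Pool.Agent.H25.AD.SolvRed

/-!
# Composition factors: the abstract part
-/

set_option autoImplicit false

namespace H25

open Pool.Agent.H49.St

/-- every noncommutative composition factor `S` satisfies `|Aut S| ≤ [S : X] ^ c` for all its proper subgroups `X` -/
def BoundedFactors (c : ℕ) (Γ : Type*) [Group Γ] : Prop :=
  ∀ A : Subgroup Γ, A.IsSubnormal → ∀ B : Subgroup A, ∀ _ : B.Normal, IsSimpleGroup (A ⧸ B) →
    (∃ x y : A ⧸ B, x * y ≠ y * x) → ∀ X : Subgroup (A ⧸ B), X ≠ ⊤ → Nat.card (MulAut (A ⧸ B)) ≤ X.index ^ c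

theorem bf_hom {Γ : Type*} [Group Γ] {c : ℕ} (h : BoundedFactors c Γ) {S : Type*} [Group S]
    (A : Subgroup Γ) (hA : A.IsSubnormal) (φ : A →* S) (hφ : Function.Surjective φ) (hS : IsSimpleGroup S)
    (hnc : ∃ x y : S, x * y ≠ y * x) (X : Subgroup S) (hX : X ≠ ⊤) : Nat.card (MulAut S) ≤ X.index ^ c := by
  let e : A ⧸ φ.ker ≃* S := QuotientGroup.quotientKerEquivOfSurjective φ hφ
  have h1 : IsSimpleGroup (A ⧸ φ.ker) := by
    have := hS.toNontrivial
    have : Nontrivial (A ⧸ φ.ker) := e.toEquiv.nontrivial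
    exact IsSimpleGroup.isSimpleGroup_of_surjective (e.symm : S →* A ⧸ φ.ker) e.symm.surjective
  have h2 : ∃ x y : A ⧸ φ.ker, x * y ≠ y * x := by
    obtain ⟨x, y, hxy⟩ := hnc
    refine ⟨e.symm x, e.symm y, ?_⟩
    intro h3
    apply hxy
    have := congrArg e h3
    simpa using this
  have h3 := h A hA φ.ker inferInstance h1 h2 (X.comap (e : A ⧸ φ.ker →* S)) (by
    intro h4
    apply hX
    rw [eq_top_iff]
    intro x _
    obtain ⟨y, rfl⟩ := e.surjective x
    have : y ∈ X.comap (e : A ⧸ φ.ker →* S) := by rw [h4]; trivial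
    exact this)
  have h4 : Nat.card (MulAut S) = Nat.card (MulAut (A ⧸ φ.ker)) :=
    Nat.card_congr (MulAut.congr e.symm).toEquiv
  rw [h4]
  refine h3.trans (le_of_eq ?_)
  rw [Subgroup.index_comap_of_surjective (f := (e : A ⧸ φ.ker →* S)) X e.surjective]

theorem bf_hom_G {G : Type*} [Group G] {c : ℕ} {N : Subgroup G} (h : BoundedFactors c N)
    {S : Type*} [Group S] (A M : Subgroup G) (hAM : A ≤ M) (hMN : M ≤ N) (hM : M.Normal)
    (hA : ∀ m ∈ M, ∀ a ∈ A, m * a * m⁻¹ ∈ A) (φ : A →* S) (hφ : Function.Surjective φ) (hS : IsSimpleGroup S)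
    (hnc : ∃ x y : S, x * y ≠ y * x) (X : Subgroup S) (hX : X ≠ ⊤) : Nat.card (MulAut S) ≤ X.index ^ c := by
  have hAN : A ≤ N := hAM.trans hMN
  have hsub : (A.subgroupOf N).IsSubnormal := by
    refine Subgroup.IsSubnormal.step _ (M.subgroupOf N) ?_ ?_ ?_
    · intro x hx
      exact hAM hx
    · exact Subgroup.Normal.isSubnormal inferInstance
    · constructor
      intro a ha m
      exact hA _ m.2 _ ha
  let e : A.subgroupOf N ≃* A := Subgroup.subgroupOfEquivOfLe hAN
  exact bf_hom h (A.subgroupOf N) hsub (φ.comp (e : A.subgroupOf N →* A)) (hφ.comp e.surjective) hS hnc X hX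

/-- quotients inherit the property -/
theorem BoundedFactors.of_surjective {Γ Δ : Type*} [Group Γ] [Group Δ] {c : ℕ} (h : BoundedFactors c Γ)
    (ψ : Γ →* Δ) (hψ : Function.Surjective ψ) : BoundedFactors c Δ := by
  intro A hA B hB hs hnc X hX
  have hA' : (A.comap ψ).IsSubnormal := by
    clear hs hnc X hX hB B
    induction hA with
    | top => rw [Subgroup.comap_top]; exact Subgroup.IsSubnormal.top
    | step H K h_le hSubn hN ih =>
      refine Subgroup.IsSubnormal.step _ (K.comap ψ) (Subgroup.comap_mono h_le) ih ?_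
      constructor
      intro a ha m
      have h5 : ψ m * ψ a * (ψ m)⁻¹ ∈ H := hN.conj_mem ⟨ψ a, a.2⟩ ha ⟨ψ m, m.2⟩
      change ψ ((m : Γ) * (a : Γ) * (m : Γ)⁻¹) ∈ H
      rwa [map_mul, map_mul, map_inv]
  let f : A.comap ψ →* A :=
    { toFun := fun x => ⟨ψ x, x.2⟩
      map_one' := by ext; simp
      map_mul' := fun x y => by ext; simp }
  have hf : Function.Surjective f := by
    rintro ⟨a, ha⟩
    obtain ⟨x, rfl⟩ := hψ a
    exact ⟨⟨x, ha⟩, rfl⟩
  exact bf_hom h (A.comap ψ) hA' ((QuotientGroup.mk' B).comp f) ((QuotientGroup.mk'_surjective B).comp hf) hs hnc X hX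

/-- solvable groups have no noncommutative composition factors -/
theorem BoundedFactors.of_solvable {Γ : Type*} [Group Γ] (h : Group.IsSolvable Γ) (c : ℕ) : BoundedFactors c Γ := by
  intro A hA B hB hs hnc X hX
  exfalso
  have h1 : Group.IsSolvable A := inferInstance
  have h2 : Group.IsSolvable (A ⧸ B) := inferInstance
  obtain ⟨x, y, hxy⟩ := hnc
  exact hxy ((IsSimpleGroup.comm_iff_isSolvable (G := A ⧸ B)).mpr h2 x y)

/-- the order of a group with trivial centraliser of `T` is at most the order of the automorphism group of `T` -/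
theorem card_le_aut {P : Type*} [Group P] [Finite P] (T : Subgroup P) [hT : T.Normal]
    (hc : Subgroup.centralizer (T : Set P) = ⊥) : Nat.card P ≤ Nat.card (MulAut T) := by
  have : Finite (MulAut T) := Finite.of_injective (fun e : MulAut T => (e : T → T)) (by
    intro a b h
    exact DFunLike.coe_injective h)
  refine Nat.card_le_card_of_injective (MulAut.conjNormal (H := T)) ?_
  intro a b hab
  have h1 : b⁻¹ * a ∈ Subgroup.centralizer (T : Set P) := by
    rw [Subgroup.mem_centralizer_iff]
    intro t ht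
    have h2 : (MulAut.conjNormal (H := T) a) ⟨t, ht⟩ = (MulAut.conjNormal (H := T) b) ⟨t, ht⟩ := by
      rw [hab]
    have h3 := congrArg (Subtype.val) h2
    rw [MulAut.conjNormal_apply, MulAut.conjNormal_apply] at h3
    have h4 : a * t * a⁻¹ = b * t * b⁻¹ := h3
    calc t * (b⁻¹ * a) = b⁻¹ * (b * t * b⁻¹) * a := by group
      _ = b⁻¹ * (a * t * a⁻¹) * a := by rw [h4]
      _ = b⁻¹ * a * t := by group
  rw [hc] at h1
  have h2 : b⁻¹ * a = 1 := h1
  calc a = b * (b⁻¹ * a) := by group
    _ = b := by rw [h2, mul_one]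

/-- the order of a noncommutative simple group is at most the order of its automorphism group -/
theorem card_le_aut_simple {S : Type*} [Group S] [Finite S] (hS : IsSimpleGroup S)
    (hnc : ∃ x y : S, x * y ≠ y * x) : Nat.card S ≤ Nat.card (MulAut S) := by
  have : Finite (MulAut S) := Finite.of_injective (fun e : MulAut S => (e : S → S)) (by
    intro a b h
    exact DFunLike.coe_injective h)
  refine Nat.card_le_card_of_injective (MulAut.conj (G := S)) ?_
  rw [injective_iff_map_eq_one]
  intro a ha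
  have hcen : a ∈ Subgroup.center S := by
    rw [Subgroup.mem_center_iff]
    intro g
    have h1 : (MulAut.conj a) g = g := by rw [ha]; rfl
    rw [MulAut.conj_apply] at h1
    calc g * a = (a * g * a⁻¹) * a := by rw [h1]
      _ = a * g := by group
  rcases hS.eq_bot_or_eq_top_of_normal (Subgroup.center S) inferInstance with h | h
  · rw [h] at hcen
    exact hcen
  · exfalso
    obtain ⟨x, y, hxy⟩ := hnc
    have : y ∈ Subgroup.center S := by rw [h]; trivial
    rw [Subgroup.mem_center_iff] at this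
    exact hxy (this x)

/-- a nontrivial normal subgroup of an almost simple group contains the socle -/
theorem socle_le {P : Type*} [Group P] (T : Subgroup P) (hT : T.Normal) (hTs : IsSimpleGroup T)
    (hc : Subgroup.centralizer (T : Set P) = ⊥) (M : Subgroup P) (hM : M.Normal) (hne : M ≠ ⊥) : T ≤ M := by
  rcases hTs.eq_bot_or_eq_top_of_normal (M.subgroupOf T) inferInstance with h | h
  · exfalso
    apply hne
    rw [Subgroup.subgroupOf_eq_bot] at h
    rw [eq_bot_iff, ← hc]
    intro m hm
    rw [Subgroup.mem_centralizer_iff]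
    intro t ht
    have hcomm : t * m * t⁻¹ * m⁻¹ ∈ M ⊓ T := by
      constructor
      · exact M.mul_mem (hM.conj_mem m hm t) (M.inv_mem hm)
      · have h2 : t * m * t⁻¹ * m⁻¹ = t * (m * t⁻¹ * m⁻¹) := by group
        rw [h2]
        exact T.mul_mem ht (hT.conj_mem _ (T.inv_mem ht) m)
    rw [h.eq_bot] at hcomm
    have h3 : t * m * t⁻¹ * m⁻¹ = 1 := hcomm
    calc t * m = (t * m * t⁻¹ * m⁻¹) * (m * t) := by group
      _ = m * t := by rw [h3, one_mul]
  · rwa [Subgroup.subgroupOf_eq_top] at h

end H25
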