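import Pool.Agent.H25.AD.Comp1

/-!
# Composition factors: chief factors
-/

set_option autoImplicit false

namespace H25

open Pool.Agent.H49.St

variable {G : Type*} [Group G]

/-- the elements normalising `B` -/
def nrm (B : Subgroup G) : Subgroup G where
  carrier := {x | ∀ b, b ∈ B ↔ x * b * x⁻¹ ∈ B}
  mul_mem' := by
    intro x y hx hy b
    have h1 : x * y * b * (x * y)⁻¹ = x * (y * b * y⁻¹) * x⁻¹ := by group
    rw [h1, ← hx, ← hy]
  one_mem' := by
    intro b
    simp
  inv_mem' := by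
    intro x hx b
    have h1 := hx (x⁻¹ * b * x)
    have h2 : x * (x⁻¹ * b * x) * x⁻¹ = b := by group
    rw [h2] at h1
    rw [inv_inv]
    exact h1.symm

/-- `A` is normalised by `M` -/
def NormIn (M A : Subgroup G) : Prop := ∀ m ∈ M, ∀ a ∈ A, m * a * m⁻¹ ∈ A

theorem le_nrm {M A : Subgroup G} (h : NormIn M A) : M ≤ nrm A := by
  intro m hm a
  constructor
  · exact h m hm a
  · intro h1
    have h2 := h m⁻¹ (M.inv_mem hm) _ h1
    have h3 : m⁻¹ * (m * a * m⁻¹) * m⁻¹⁻¹ = a := by group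
    rwa [h3] at h2

theorem normIn_of_le_nrm {M A : Subgroup G} (h : M ≤ nrm A) : NormIn M A :=
  fun _ hm a ha => (h hm a).mp ha

theorem card_cj (g : G) (S : Subgroup G) : Nat.card (cj g S) = Nat.card S := by
  unfold cj
  exact Nat.card_congr (S.equivMapOfInjective _ (MulAut.conj g).injective).symm.toEquiv

/-- conjugates of subgroups normalised by a normal subgroup are normalised by it -/
theorem NormIn.cj {M A : Subgroup G} (hM : M.Normal) (h : NormIn M A) (g : G) : NormIn M (cj g A) := by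
  intro m hm a ha
  rw [mem_cj] at ha ⊢
  have h1 := h (g⁻¹ * m * g) (by
    have := hM.conj_mem m hm g⁻¹
    simpa using this) _ ha
  have h2 : g⁻¹ * m * g * (g⁻¹ * a * g) * (g⁻¹ * m * g)⁻¹ = g⁻¹ * (m * a * m⁻¹) * g := by group
  rwa [h2] at h1

theorem le_cj_of_normal {M S : Subgroup G} (hM : M.Normal) (h : M ≤ S) (g : G) : M ≤ cj g S := by
  intro x hx
  rw [mem_cj]
  apply h
  have := hM.conj_mem x hx g⁻¹
  simpa using this

theorem cj_le_of_normal {M S : Subgroup G} (hM : M.Normal) (h : S ≤ M) (g : G) : cj g S ≤ M := by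
  intro x hx
  rw [mem_cj] at hx
  have := hM.conj_mem _ (h hx) g
  have h2 : g * (g⁻¹ * x * g) * g⁻¹ = x := by group
  rwa [h2] at this

/-- the admissible subgroups between `M0` and `M` -/
def Adm (M0 M : Subgroup G) : Set (Subgroup G) := {S | M0 < S ∧ S ≤ M ∧ NormIn M S}

theorem Adm.cj [Finite G] {M0 M S : Subgroup G} (hM0 : M0.Normal) (hM : M.Normal) (h : S ∈ Adm M0 M) (g : G) :
    cj g S ∈ Adm M0 M := by
  obtain ⟨h1, h2, h3⟩ := h
  refine ⟨?_, cj_le_of_normal hM h2 g, h3.cj hM g⟩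
  refine lt_of_le_of_ne (le_cj_of_normal hM0 h1.le g) ?_
  intro h4
  have h5 : Nat.card M0 = Nat.card S := by
    rw [← card_cj g S, ← h4]
  exact h1.ne (Subgroup.eq_of_le_of_card_ge h1.le h5.ge)

section chief

variable [Finite G] {H M M0 S : Subgroup G} (hM : M.Normal) (hM0 : M0 = M ⊓ H.normalCore)
  (hmin : ∀ M' : Subgroup G, M'.Normal → M' ≤ M → ¬ M' ≤ H → M' = M)
  (hS : S ∈ Adm M0 M)

omit [Finite G] in
include hM hM0 hmin hS in
/-- the conjugates of `S` generate `M` -/
theorem exists_cj_not_le {R : Subgroup G} (hR : ¬ M ≤ R) : ∃ g, ¬ cj g S ≤ R := by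
  by_contra hcon
  push Not at hcon
  apply hR
  have h1 : Subgroup.normalClosure (S : Set G) = M := by
    apply hmin _ Subgroup.normalClosure_normal
    · exact Subgroup.normalClosure_le_normal hS.2.1
    · intro h
      have h2 : Subgroup.normalClosure (S : Set G) ≤ H.normalCore :=
        Subgroup.normal_le_normalCore.mpr h
      have h3 : S ≤ M0 := by
        rw [hM0]
        exact le_inf hS.2.1 (Subgroup.subset_normalClosure.trans h2)
      exact hS.1.not_ge h3
  rw [← h1, Subgroup.normalClosure, Subgroup.closure_le]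
  intro x hx
  rw [Group.mem_conjugatesOfSet_iff] at hx
  obtain ⟨a, ha, hax⟩ := hx
  rw [isConj_iff] at hax
  obtain ⟨g, rfl⟩ := hax
  apply hcon g
  rw [mem_cj]
  have : g⁻¹ * (g * a * g⁻¹) * g = a := by group
  rw [this]
  exact ha

include hM hM0 hmin hS in
/-- an admissible subgroup of minimal order is simple modulo `M0` -/
theorem simple_aux (hcardS : ∀ S' ∈ Adm M0 M, Nat.card S ≤ Nat.card S') {B : Subgroup G} (h1 : M0 ≤ B) (h2 : B ≤ S)
    (h3 : NormIn S B) : B = M0 ∨ B = S := by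
  have hM0n : M0.Normal := by rw [hM0]; infer_instance
  have hall : NormIn M B := by
    apply normIn_of_le_nrm
    by_contra hcon
    obtain ⟨g, hg⟩ := exists_cj_not_le hM hM0 hmin hS hcon
    apply hg
    apply le_nrm
    have hgA : cj g S ∈ Adm M0 M := Adm.cj hM0n hM hS g
    by_cases heq : cj g S = S
    · rw [heq]
      exact h3
    have hinf : cj g S ⊓ S ≤ M0 := by
      by_contra h4
      have h5 : cj g S ⊓ S ∈ Adm M0 M := by
        refine ⟨lt_of_le_of_ne (le_inf hgA.1.le hS.1.le) (fun h => h4 h.ge), inf_le_right.trans hS.2.1, ?_⟩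
        intro m hm a ha
        exact ⟨hgA.2.2 m hm a ha.1, hS.2.2 m hm a ha.2⟩
      have h6 := hcardS _ h5
      have h7 : cj g S ⊓ S = S := Subgroup.eq_of_le_of_card_ge inf_le_right h6
      have h8 : S ≤ cj g S := by
        intro y hy
        have h10 : y ∈ cj g S ⊓ S := by rw [h7]; exact hy
        exact h10.1
      have h9 : S = cj g S := Subgroup.eq_of_le_of_card_ge h8 (by rw [card_cj])
      exact heq h9.symm
    intro s hs x hx
    have hxS := h2 hx
    have h4 : s * x * s⁻¹ * x⁻¹ ∈ cj g S ⊓ S := by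
      constructor
      · have h5 : s * x * s⁻¹ * x⁻¹ = s * (x * s⁻¹ * x⁻¹) := by group
        rw [h5]
        exact (cj g S).mul_mem hs (hgA.2.2 x (hS.2.1 hxS) _ ((cj g S).inv_mem hs))
      · exact S.mul_mem (hS.2.2 s (hgA.2.1 hs) x hxS) (S.inv_mem hxS)
    have h6 := B.mul_mem (h1 (hinf h4)) hx
    have h7 : s * x * s⁻¹ * x⁻¹ * x = s * x * s⁻¹ := by group
    rwa [h7] at h6
  by_cases h4 : B = M0
  · exact Or.inl h4
  · right
    have h5 : B ∈ Adm M0 M := ⟨lt_of_le_of_ne h1 (Ne.symm h4), h2.trans hS.2.1, hall⟩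
    exact Subgroup.eq_of_le_of_card_ge h2 (hcardS _ h5)

include hM hM0 hmin hS in
theorem simple_quot (hcardS : ∀ S' ∈ Adm M0 M, Nat.card S ≤ Nat.card S') (hn : (M0.subgroupOf S).Normal) :
    IsSimpleGroup (S ⧸ M0.subgroupOf S) := by
  have hnt : Nontrivial (S ⧸ M0.subgroupOf S) := by
    rw [QuotientGroup.nontrivial_iff]
    intro h
    rw [Subgroup.subgroupOf_eq_top] at h
    exact hS.1.not_ge h
  refine { toNontrivial := hnt, eq_bot_or_eq_top_of_normal := ?_ }
  intro K hK
  set π := QuotientGroup.mk' (M0.subgroupOf S) with hπ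
  have hKc : (K.comap π).Normal := hK.comap π
  set B : Subgroup G := (K.comap π).map S.subtype with hB
  have hmemB : ∀ x : S, (x : G) ∈ B ↔ π x ∈ K := by
    intro x
    rw [hB, Subgroup.mem_map]
    constructor
    · rintro ⟨y, hy, hyx⟩
      have : y = x := Subtype.ext hyx
      rw [← this]
      exact hy
    · intro h
      exact ⟨x, h, rfl⟩
  have hBS : B ≤ S := by
    rw [hB]
    rintro _ ⟨y, _, rfl⟩
    exact y.2
  have h1 : M0 ≤ B := by
    intro x hx
    have hxS := hS.1.le hx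
    have h2 := (hmemB ⟨x, hxS⟩).mpr (by
      have h3 : π ⟨x, hxS⟩ = 1 := by
        rw [hπ, QuotientGroup.mk'_apply, QuotientGroup.eq_one_iff]
        exact hx
      rw [h3]
      exact K.one_mem)
    exact h2
  have h3 : NormIn S B := by
    intro s hs a ha
    have haS := hBS ha
    have h4 := (hmemB ⟨a, haS⟩).mp ha
    have h5 := hK.conj_mem _ h4 (π ⟨s, hs⟩)
    rw [← map_mul, ← map_inv, ← map_mul] at h5
    exact (hmemB (⟨s, hs⟩ * ⟨a, haS⟩ * ⟨s, hs⟩⁻¹)).mpr h5
  rcases simple_aux hM hM0 hmin hS hcardS h1 hBS h3 with h | h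
  · left
    rw [eq_bot_iff]
    intro k hk
    obtain ⟨x, rfl⟩ := QuotientGroup.mk'_surjective (M0.subgroupOf S) k
    have h4 : (x : G) ∈ B := (hmemB x).mpr hk
    rw [h] at h4
    rw [Subgroup.mem_bot, QuotientGroup.mk'_apply, QuotientGroup.eq_one_iff]
    exact h4
  · right
    rw [eq_top_iff]
    intro k _
    obtain ⟨x, rfl⟩ := QuotientGroup.mk'_surjective (M0.subgroupOf S) k
    have h4 : (x : G) ∈ B := by rw [h]; exact x.2
    exact (hmemB x).mp h4

end chief

end H25
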