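import Pool.Agent.H25.AD.Comp2

/-!
# Normal subgroups with bounded composition factors
-/

set_option autoImplicit false

namespace H25

open Pool.Agent.H49.St

variable {G : Type*} [Group G] [Finite G]

theorem rne {P : Type*} [Group P] [Finite P] (A B : Subgroup P) : A.relIndex B ≠ 0 :=
  Subgroup.index_ne_zero_of_finite

omit [Finite G] in
theorem isCoatom_subgroupOf {H G0 : Subgroup G} (hcov : H ⋖ G0) : IsCoatom (H.subgroupOf G0) := by
  constructor
  · intro h
    rw [Subgroup.subgroupOf_eq_top] at h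
    exact absurd h (not_le_of_gt hcov.lt)
  · intro K hK
    have h1 : H < K.map G0.subtype := by
      refine lt_of_le_of_ne ?_ ?_
      · intro x hx
        exact ⟨⟨x, hcov.le hx⟩, hK.le hx, rfl⟩
      · intro h
        apply hK.not_ge
        rw [h]
        intro x hx
        exact ⟨x, hx, rfl⟩
    have h2 : K.map G0.subtype ≤ G0 := by
      rintro _ ⟨x, _, rfl⟩
      exact x.2
    have h3 := (hcov.eq_or_eq h1.le h2).resolve_left h1.ne'
    rw [eq_top_iff]
    intro x _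
    have : (x : G) ∈ K.map G0.subtype := by rw [h3]; exact x.2
    obtain ⟨y, hy, hyx⟩ := this
    have : y = x := Subtype.ext hyx
    rwa [← this]

/-- index of a subgroup in terms of a complement which is normal -/
theorem index_eq_relIndex_of_sup {P : Type*} [Group P] [Finite P] (H T : Subgroup P) [hT : T.Normal]
    (h : H ⊔ T = ⊤) : H.index = H.relIndex T := by
  have h1 : T.relIndex (H ⊔ T) = T.relIndex H := Subgroup.relIndex_sup_right _ _
  rw [h, Subgroup.relIndex_top_right] at h1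
  have h2 : (H ⊓ T).relIndex T * T.index = (H ⊓ T).index := Subgroup.relIndex_mul_index inf_le_right
  have h3 : (H ⊓ T).relIndex H * H.index = (H ⊓ T).index := Subgroup.relIndex_mul_index inf_le_left
  rw [Subgroup.inf_relIndex_right] at h2
  rw [Subgroup.inf_relIndex_left] at h3
  rw [h1] at h2
  have h4 : 0 < T.relIndex H := Nat.pos_of_ne_zero (rne _ _)
  have h5 : H.relIndex T * T.relIndex H = H.index * T.relIndex H := by
    rw [h2, ← h3, mul_comm]
  exact (Nat.eq_of_mul_eq_mul_right h4 h5).symm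

theorem relIndex_le_index (A B : Subgroup G) : A.relIndex B ≤ A.index := by
  rw [← Subgroup.relIndex_top_right A]
  exact Subgroup.relIndex_le_of_le_right le_top (rne _ _)

theorem pure_comp (c : ℕ) (H N : Subgroup G) (W : ℕ) (hN : N.Normal) (hNH : ¬ N ≤ H)
    (hW : ∀ J : Subgroup G, H < J → J.index ≤ W)
    (hP : ∀ G0 : Subgroup G, H ⋖ G0 → AlmostSimple (G0 ⧸ (H.subgroupOf G0).normalCore) ∧
      H.index ^ c < Nat.card (G0 ⧸ (H.subgroupOf G0).normalCore))
    (hf : BoundedFactors c N) : H.index ≤ W ^ (c + 1) := by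
  -- a minimal normal subgroup not contained in H
  obtain ⟨M, ⟨hM, hMN, hMH⟩, hMmin⟩ := WellFounded.has_min (wellFounded_lt (α := Subgroup G))
    {M : Subgroup G | M.Normal ∧ M ≤ N ∧ ¬ M ≤ H} ⟨N, hN, le_rfl, hNH⟩
  have hmin : ∀ M' : Subgroup G, M'.Normal → M' ≤ M → ¬ M' ≤ H → M' = M := by
    intro M' h1 h2 h3
    by_contra h4
    exact hMmin M' ⟨h1, h2.trans hMN, h3⟩ (lt_of_le_of_ne h2 h4)
  have hlt : H < M ⊔ H := by
    refine lt_of_le_of_ne le_sup_right ?_
    intro h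
    apply hMH
    rw [h]
    exact le_sup_left
  obtain ⟨G0, hcov, hG0⟩ := exists_covBy_le_of_lt hlt
  obtain ⟨⟨T, hTn, hTs, hTnc, hTc⟩, hcard⟩ := hP G0 hcov
  set Q := (H.subgroupOf G0).normalCore with hQ
  have hQH : Q ≤ H.subgroupOf G0 := Subgroup.normalCore_le _
  set π := QuotientGroup.mk' Q with hπ
  have hπs : Function.Surjective π := QuotientGroup.mk'_surjective Q
  have hπk : π.ker = Q := QuotientGroup.ker_mk' Q
  have hTnt : Nontrivial T := hTs.toNontrivial
  set M1 := M.subgroupOf G0 with hM1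
  have hM1n : M1.Normal := inferInstance
  have hG0M : ¬ (M1 ≤ H.subgroupOf G0) := by
    intro h
    apply hcov.lt.not_ge
    intro g hg
    have h1 : g ∈ M ⊔ H := hG0 hg
    obtain ⟨m, hm, x, hx, rfl⟩ := Subgroup.mem_sup_of_normal_left.mp h1
    have hmG : m ∈ G0 := by
      have : m = m * x * x⁻¹ := by group
      rw [this]
      exact G0.mul_mem hg (G0.inv_mem (hcov.le hx))
    have h2 : (⟨m, hmG⟩ : G0) ∈ M1 := hm
    exact H.mul_mem (h h2) hx
  have hM1ne : M1.map π ≠ ⊥ := by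
    intro h
    rw [Subgroup.map_eq_bot_iff, hπk] at h
    exact hG0M (h.trans hQH)
  have hTle : T ≤ M1.map π := socle_le T hTn hTs hTc _ (hM1n.map _ hπs) hM1ne
  set T' : Subgroup G0 := T.comap π with hT'
  have hT'n : T'.Normal := hTn.comap π
  have hT'map : T'.map π = T := Subgroup.map_comap_eq_self_of_surjective hπs T
  have hT'H : ¬ T' ≤ H.subgroupOf G0 := by
    intro h
    have h1 : T' ≤ Q := Subgroup.normal_le_normalCore.mpr h
    have h2 : T = ⊥ := by
      rw [← hT'map, Subgroup.map_eq_bot_iff, hπk]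
      exact h1
    have h3 : Nontrivial (⊥ : Subgroup (G0 ⧸ Q)) := by rw [← h2]; exact hTnt
    exact not_nontrivial _ h3
  -- the subgroup D and the map to T
  set D : Subgroup G := (M1 ⊓ T').map G0.subtype with hD
  have hDG0 : D ≤ G0 := by
    rintro _ ⟨x, _, rfl⟩
    exact x.2
  have hDM : D ≤ M := by
    rintro _ ⟨x, hx, rfl⟩
    exact hx.1
  have hDT : ∀ x (hx : x ∈ D), π ⟨x, hDG0 hx⟩ ∈ T := by
    rintro _ ⟨x, hx, rfl⟩
    exact hx.2
  have hDmem : ∀ x : G0, (x : G) ∈ M → π x ∈ T → (x : G) ∈ D := fun x h1 h2 => ⟨x, ⟨h1, h2⟩, rfl⟩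
  let φ : D →* T :=
    { toFun := fun x => ⟨π ⟨x, hDG0 x.2⟩, hDT x x.2⟩
      map_one' := by
        apply Subtype.ext
        exact map_one π
      map_mul' := fun x y => by
        apply Subtype.ext
        exact map_mul π ⟨(x : G), hDG0 x.2⟩ ⟨(y : G), hDG0 y.2⟩ }
  have hφs : Function.Surjective φ := by
    rintro ⟨t, ht⟩
    obtain ⟨m, hm, hmt⟩ := hTle ht
    have h1 : (m : G) ∈ D := hDmem m hm (by rw [hmt]; exact ht)
    exact ⟨⟨m, h1⟩, Subtype.ext hmt⟩
  have hTnc' : ∃ x y : T, x * y ≠ y * x := by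
    obtain ⟨x, hx, y, hy, hxy⟩ := hTnc
    exact ⟨⟨x, hx⟩, ⟨y, hy⟩, fun h => hxy (congrArg Subtype.val h)⟩
  -- indices
  set b := H.relIndex G0 with hb
  have hidx : b * G0.index = H.index := Subgroup.relIndex_mul_index hcov.le
  have hG0pos : 0 < G0.index := Nat.pos_of_ne_zero Subgroup.index_ne_zero_of_finite
  have hbH : b ≤ H.index := by
    rw [← hidx]
    exact Nat.le_mul_of_pos_right _ hG0pos
  have hcoat := isCoatom_subgroupOf hcov
  have hsup : H.subgroupOf G0 ⊔ T' = ⊤ := by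
    apply hcoat.2
    refine lt_of_le_of_ne le_sup_left ?_
    intro h
    apply hT'H
    rw [h]
    exact le_sup_right
  have hbT : b ≤ Nat.card T := by
    have h1 : b = (H.subgroupOf G0).relIndex T' := index_eq_relIndex_of_sup _ _ hsup
    rw [h1, ← hT'map, ← Subgroup.relIndex_ker, hπk]
    exact Subgroup.relIndex_le_of_le_left hQH (rne _ _)
  -- a subgroup of T of index at most b
  obtain ⟨X, hX, hXb⟩ : ∃ X : Subgroup T, X ≠ ⊤ ∧ X.index ≤ b := by
    refine ⟨((H.subgroupOf G0).map π).subgroupOf T, ?_, ?_⟩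
    · intro h
      rw [Subgroup.subgroupOf_eq_top] at h
      apply hT'H
      have h1 := Subgroup.comap_mono (f := π) h
      rwa [Subgroup.comap_map_eq_self (by rw [hπk]; exact hQH)] at h1
    · have h1 : ((H.subgroupOf G0).map π).index = (H.subgroupOf G0).index :=
        Subgroup.index_map_eq _ hπs (by rw [hπk]; exact hQH)
      have h2 : (H.subgroupOf G0).index = b := rfl
      rw [← h2, ← h1]
      exact relIndex_le_index _ _
  have hPT : Nat.card (G0 ⧸ Q) ≤ Nat.card (MulAut T) := card_le_aut T hTc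
  have hmain : Nat.card (MulAut T) ≤ X.index ^ c → False := by
    intro h
    have h1 : X.index ^ c ≤ H.index ^ c := Nat.pow_le_pow_left (hXb.trans hbH) c
    omega
  by_cases hMG : M ≤ G0
  · -- the socle is a composition factor
    exfalso
    refine hmain (bf_hom_G hf D M hDM hMN hM ?_ φ hφs hTs hTnc' X hX)
    intro m hm a ha
    have haG := hDG0 ha
    have h1 := hDmem (⟨m, hMG hm⟩ * ⟨a, haG⟩ * ⟨m, hMG hm⟩⁻¹) (by
      exact M.mul_mem (M.mul_mem hm (hDM ha)) (M.inv_mem hm)) (by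
      rw [map_mul, map_mul, map_inv]
      exact hTn.conj_mem _ (hDT a ha) _)
    exact h1
  -- the socle is a section of a small composition factor
  set M0 := M ⊓ H.normalCore with hM0
  have hM0n : M0.Normal := inferInstance
  have hM0H : M0 ≤ H := inf_le_right.trans (Subgroup.normalCore_le H)
  have hM0G0 : M0 ≤ G0 := hM0H.trans hcov.le
  have hM0Q : ∀ x (hx : x ∈ M0), (⟨x, hM0G0 hx⟩ : G0) ∈ Q := by
    intro x hx
    have h1 : M0.subgroupOf G0 ≤ Q := by
      apply Subgroup.normal_le_normalCore.mpr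
      intro y hy
      exact hM0H hy
    exact h1 hx
  have hMA : M ∈ Adm M0 M := by
    refine ⟨lt_of_le_of_ne inf_le_left ?_, le_rfl, fun m hm a ha => M.mul_mem (M.mul_mem hm ha) (M.inv_mem hm)⟩
    intro h
    apply hMH
    rw [← h]
    exact hM0H
  obtain ⟨S, hS, hcardS⟩ := Set.exists_min_image (Adm M0 M) (fun S => Nat.card S) (Set.toFinite _) ⟨M, hMA⟩
  -- the maximal R
  set RR : Set (Subgroup G) := {R | M0 ≤ R ∧ R ≤ M ∧ NormIn M R ∧ ∀ x (hx : x ∈ D), x ∈ R → φ ⟨x, hx⟩ = 1} with hRR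
  have hM0R : M0 ∈ RR := by
    refine ⟨le_rfl, inf_le_left, fun m _ a ha => hM0n.conj_mem a ha m, ?_⟩
    intro x hx hx0
    apply Subtype.ext
    change π ⟨x, hDG0 hx⟩ = 1
    rw [hπ, QuotientGroup.mk'_apply, QuotientGroup.eq_one_iff]
    exact hM0Q x hx0
  obtain ⟨R, hR, hcardR⟩ := Set.exists_max_image RR (fun S => Nat.card S) (Set.toFinite _) ⟨M0, hM0R⟩
  have hMR : ¬ M ≤ R := by
    intro h
    obtain ⟨t, ht⟩ := exists_ne (1 : T)
    obtain ⟨x, rfl⟩ := hφs t
    exact ht (hR.2.2.2 x x.2 (h (hDM x.2)))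
  obtain ⟨g1, hg1⟩ := exists_cj_not_le hM hM0 hmin hS hMR
  obtain ⟨g2, hg2⟩ := exists_cj_not_le hM hM0 hmin hS hMG
  set X1 := cj g1 S with hX1
  set X2 := cj g2 S with hX2
  have hX1A : X1 ∈ Adm M0 M := Adm.cj hM0n hM hS g1
  have hX2A : X2 ∈ Adm M0 M := Adm.cj hM0n hM hS g2
  set R' := R ⊔ X1 with hR'
  have hR'M : R' ≤ M := sup_le hR.2.1 hX1A.2.1
  have hR'n : NormIn M R' := by
    intro m hm a ha
    have h1 : R'.map (MulAut.conj m).toMonoidHom ≤ R' := by
      rw [hR', Subgroup.map_sup]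
      apply sup_le_sup
      · rintro _ ⟨x, hx, rfl⟩
        exact hR.2.2.1 m hm x hx
      · rintro _ ⟨x, hx, rfl⟩
        exact hX1A.2.2 m hm x hx
    exact h1 ⟨a, ha, rfl⟩
  have hR'no : ∃ x, ∃ hx : x ∈ D, x ∈ R' ∧ φ ⟨x, hx⟩ ≠ 1 := by
    by_contra hcon
    push Not at hcon
    have h1 : R' ∈ RR := ⟨hR.1.trans le_sup_left, hR'M, hR'n, hcon⟩
    have h2 := hcardR R' h1
    have h3 : R = R' := Subgroup.eq_of_le_of_card_ge le_sup_left h2
    apply hg1
    rw [h3]
    exact le_sup_right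
  -- R' ∩ D maps onto T
  have himg : ((R'.subgroupOf D).map φ) = ⊤ := by
    have hn : (R'.subgroupOf D).Normal := by
      constructor
      intro a ha m
      exact hR'n m (hDM m.2) a ha
    rcases hTs.eq_bot_or_eq_top_of_normal _ (hn.map φ hφs) with h | h
    · exfalso
      obtain ⟨x, hx, hxR, hne⟩ := hR'no
      apply hne
      have h1 : φ ⟨x, hx⟩ ∈ (R'.subgroupOf D).map φ := ⟨⟨x, hx⟩, hxR, rfl⟩
      rw [h] at h1
      exact h1
    · exact h
  -- card T ≤ relIndex M0 X1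
  have hRX : R.relIndex R' = R.relIndex X1 := by
    have h1 : (R.subgroupOf M).relIndex (R'.subgroupOf M) = R.relIndex R' := Subgroup.relIndex_subgroupOf hR'M
    have h2 : (R.subgroupOf M).relIndex (X1.subgroupOf M) = R.relIndex X1 := Subgroup.relIndex_subgroupOf hX1A.2.1
    have hn : (R.subgroupOf M).Normal := by
      constructor
      intro a ha m
      exact hR.2.2.1 m m.2 a ha
    rw [← h1, ← h2, hR', Subgroup.subgroupOf_sup hR.2.1 hX1A.2.1, sup_comm, Subgroup.relIndex_sup_right]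
  have hTX : Nat.card T ≤ M0.relIndex X1 := by
    have h1 : Nat.card T = φ.ker.relIndex (R'.subgroupOf D) := by
      rw [Subgroup.relIndex_ker, himg]
      exact (Nat.card_congr (Subgroup.topEquiv (G := T)).toEquiv).symm
    have h2 : φ.ker.relIndex (R'.subgroupOf D) ≤ (R.subgroupOf D).relIndex (R'.subgroupOf D) := by
      apply Subgroup.relIndex_le_of_le_left _ (rne _ _)
      intro x hx
      exact hR.2.2.2 x x.2 hx
    have h3 : (R.subgroupOf D).relIndex (R'.subgroupOf D) ≤ R.relIndex R' := by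
      have h4 : (R.subgroupOf D).relIndex (R'.subgroupOf D) = R.relIndex (R' ⊓ D) := by
        have h5 : R'.subgroupOf D = (R' ⊓ D).subgroupOf D := by
          ext x
          simp [Subgroup.mem_subgroupOf]
        rw [h5, Subgroup.relIndex_subgroupOf inf_le_right]
      rw [h4]
      exact Subgroup.relIndex_le_of_le_right inf_le_left (rne _ _)
    rw [h1]
    refine (h2.trans h3).trans ?_
    rw [hRX]
    exact Subgroup.relIndex_le_of_le_left hR.1 (rne _ _)
  have hX12 : M0.relIndex X1 = M0.relIndex X2 := by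
    have h1 : M0.relIndex X1 * X1.index = M0.index := Subgroup.relIndex_mul_index hX1A.1.le
    have h2 : M0.relIndex X2 * X2.index = M0.index := Subgroup.relIndex_mul_index hX2A.1.le
    have h3 : X1.index = X2.index := by
      have h4 := X1.card_mul_index
      have h5 := X2.card_mul_index
      rw [hX1, card_cj] at h4
      rw [hX2, card_cj] at h5
      have h6 : 0 < Nat.card S := Nat.card_pos
      exact Nat.eq_of_mul_eq_mul_left h6 (h4.trans h5.symm)
    rw [h3] at h1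
    have h7 : 0 < X2.index := Nat.pos_of_ne_zero Subgroup.index_ne_zero_of_finite
    exact Nat.eq_of_mul_eq_mul_right h7 (h1.trans h2.symm)
  -- S is not commutative modulo M0
  have hnab : ¬ ∀ x ∈ S, ∀ y ∈ S, x * y * x⁻¹ * y⁻¹ ∈ M0 := by
    intro hab
    have hab1 : ∀ x ∈ X1, ∀ y ∈ X1, x * y * x⁻¹ * y⁻¹ ∈ M0 := by
      intro x hx y hy
      rw [hX1, mem_cj] at hx hy
      have h1 := hM0n.conj_mem _ (hab _ hx _ hy) g1
      have h2 : g1 * (g1⁻¹ * x * g1 * (g1⁻¹ * y * g1) * (g1⁻¹ * x * g1)⁻¹ * (g1⁻¹ * y * g1)⁻¹) * g1⁻¹ =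
          x * y * x⁻¹ * y⁻¹ := by group
      rwa [h2] at h1
    have hn : (R.subgroupOf M).Normal := by
      constructor
      intro a ha m
      exact hR.2.2.1 m m.2 a ha
    have hdec : ∀ x (hx : x ∈ R'), ∃ s, ∃ hs : s ∈ X1,
        QuotientGroup.mk' (R.subgroupOf M) ⟨x, hR'M hx⟩ = QuotientGroup.mk' (R.subgroupOf M) ⟨s, hX1A.2.1 hs⟩ := by
      intro x hx
      have h1 : (⟨x, hR'M hx⟩ : M) ∈ R.subgroupOf M ⊔ X1.subgroupOf M := by
        rw [← Subgroup.subgroupOf_sup hR.2.1 hX1A.2.1]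
        exact hx
      obtain ⟨r, hr, s, hs, hrs⟩ := Subgroup.mem_sup_of_normal_left.mp h1
      refine ⟨s, hs, ?_⟩
      rw [← hrs, map_mul]
      have h2 : QuotientGroup.mk' (R.subgroupOf M) r = 1 := by
        rw [QuotientGroup.mk'_apply, QuotientGroup.eq_one_iff]
        exact hr
      rw [h2, one_mul]
    have hcomR : ∀ x ∈ R', ∀ y ∈ R', x * y * x⁻¹ * y⁻¹ ∈ R := by
      intro x hx y hy
      obtain ⟨s, hs, h1⟩ := hdec x hx
      obtain ⟨t, ht, h2⟩ := hdec y hy
      have h3 : QuotientGroup.mk' (R.subgroupOf M) (⟨x, hR'M hx⟩ * ⟨y, hR'M hy⟩ * ⟨x, hR'M hx⟩⁻¹ * ⟨y, hR'M hy⟩⁻¹) = 1 := by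
        rw [map_mul, map_mul, map_mul, map_inv, map_inv, h1, h2, ← map_inv, ← map_inv, ← map_mul, ← map_mul,
          ← map_mul, QuotientGroup.mk'_apply, QuotientGroup.eq_one_iff]
        exact hR.1 (hab1 s hs t ht)
      rw [QuotientGroup.mk'_apply, QuotientGroup.eq_one_iff] at h3
      exact h3
    obtain ⟨t1, t2, h12⟩ := hTnc'
    apply h12
    have m1 : t1 ∈ (R'.subgroupOf D).map φ := by rw [himg]; trivial
    have m2 : t2 ∈ (R'.subgroupOf D).map φ := by rw [himg]; trivial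
    obtain ⟨x, hx, rfl⟩ := m1
    obtain ⟨y, hy, rfl⟩ := m2
    have h1 : φ (x * y * x⁻¹ * y⁻¹) = 1 := by
      refine hR.2.2.2 _ (x * y * x⁻¹ * y⁻¹).2 ?_
      exact hcomR x hx y hy
    rw [map_mul, map_mul, map_mul, map_inv, map_inv] at h1
    calc φ x * φ y = (φ x * φ y * (φ x)⁻¹ * (φ y)⁻¹) * (φ y * φ x) := by group
      _ = φ y * φ x := by rw [h1, one_mul]
  -- the composition factor X2 / M0
  have hn2 : (M0.subgroupOf X2).Normal := inferInstance
  have hcard2 : ∀ S' ∈ Adm M0 M, Nat.card X2 ≤ Nat.card S' := by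
    intro S' hS'
    rw [hX2, card_cj]
    exact hcardS S' hS'
  have hsimple : IsSimpleGroup (X2 ⧸ M0.subgroupOf X2) := simple_quot hM hM0 hmin hX2A hcard2 hn2
  have hnc2 : ∃ x y : X2 ⧸ M0.subgroupOf X2, x * y ≠ y * x := by
    by_contra hcon
    push Not at hcon
    apply hnab
    intro x hx y hy
    have hx2 : g2 * x * g2⁻¹ ∈ X2 := by
      rw [hX2, mem_cj]
      have : g2⁻¹ * (g2 * x * g2⁻¹) * g2 = x := by group
      rw [this]
      exact hx
    have hy2 : g2 * y * g2⁻¹ ∈ X2 := by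
      rw [hX2, mem_cj]
      have : g2⁻¹ * (g2 * y * g2⁻¹) * g2 = y := by group
      rw [this]
      exact hy
    have h1 := hcon (QuotientGroup.mk' (M0.subgroupOf X2) ⟨_, hx2⟩) (QuotientGroup.mk' (M0.subgroupOf X2) ⟨_, hy2⟩)
    have h2 : QuotientGroup.mk' (M0.subgroupOf X2) (⟨_, hx2⟩ * ⟨_, hy2⟩ * ⟨_, hx2⟩⁻¹ * ⟨_, hy2⟩⁻¹) = 1 := by
      rw [map_mul, map_mul, map_mul, map_inv, map_inv, h1]
      group
    rw [QuotientGroup.mk'_apply, QuotientGroup.eq_one_iff] at h2
    have h3 : g2 * x * g2⁻¹ * (g2 * y * g2⁻¹) * (g2 * x * g2⁻¹)⁻¹ * (g2 * y * g2⁻¹)⁻¹ ∈ M0 := h2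
    have h4 := hM0n.conj_mem _ h3 g2⁻¹
    have h5 : g2⁻¹ * (g2 * x * g2⁻¹ * (g2 * y * g2⁻¹) * (g2 * x * g2⁻¹)⁻¹ * (g2 * y * g2⁻¹)⁻¹) * g2⁻¹⁻¹ =
        x * y * x⁻¹ * y⁻¹ := by group
    rwa [h5] at h4
  have hker : (QuotientGroup.mk' (M0.subgroupOf X2)).ker ≤ G0.subgroupOf X2 := by
    rw [QuotientGroup.ker_mk']
    intro x hx
    exact hM0G0 hx
  have hYne : (G0.subgroupOf X2).map (QuotientGroup.mk' (M0.subgroupOf X2)) ≠ ⊤ := by
    intro h
    apply hg2
    have h1 : ((G0.subgroupOf X2).map (QuotientGroup.mk' (M0.subgroupOf X2))).comap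
        (QuotientGroup.mk' (M0.subgroupOf X2)) = ⊤ := by rw [h, Subgroup.comap_top]
    rw [Subgroup.comap_map_eq_self hker, Subgroup.subgroupOf_eq_top] at h1
    exact h1
  have hfin2 := bf_hom_G hf X2 M hX2A.2.1 hMN hM hX2A.2.2 (QuotientGroup.mk' (M0.subgroupOf X2))
    (QuotientGroup.mk'_surjective _) hsimple hnc2 _ hYne
  have hYi : ((G0.subgroupOf X2).map (QuotientGroup.mk' (M0.subgroupOf X2))).index ≤ W := by
    rw [Subgroup.index_map_eq _ (QuotientGroup.mk'_surjective _) hker]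
    exact (relIndex_le_index G0 X2).trans (hW G0 hcov.lt)
  have hcardq : M0.relIndex X2 ≤ W ^ c := by
    have h1 : M0.relIndex X2 = Nat.card (X2 ⧸ M0.subgroupOf X2) := rfl
    rw [h1]
    exact (card_le_aut_simple hsimple hnc2).trans (hfin2.trans (Nat.pow_le_pow_left hYi c))
  rw [← hidx, pow_succ]
  refine Nat.mul_le_mul ?_ (hW G0 hcov.lt)
  calc b ≤ Nat.card T := hbT
    _ ≤ M0.relIndex X1 := hTX
    _ = M0.relIndex X2 := hX12
    _ ≤ W ^ c := hcardq

end H25
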