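import Pool.Agent.H25.AD.SolvFin

/-!
# The solvable theorem: final forms
-/

set_option autoImplicit false

namespace H25

open Polynomial IntermediateField Pool.H95.Leh Pool.Agent.H49.St

/-- the quantitative theorem for units moved by a solvable normal subgroup -/
theorem solv_quant : ∃ c δ : ℝ, 0 < c ∧ 0 < δ ∧ ∀ (K : Type) [Field K] [NumberField K] [IsGalois ℚ K]
    (N : Subgroup (K ≃ₐ[ℚ] K)) (α : K), N.Normal → Group.IsSolvable N → IsU α →
    (∃ s ∈ N, ¬ Tors (s α / α) ∧ ¬ Tors (s α * α)) →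
    ∃ (β : K) (k : ℕ), 0 < k ∧ β ∈ IntermediateField.adjoin ℚ {α} ∧ IsU β ∧ Red β ∧ Tors (β / α ^ k) ∧
      mm β = mm α ∧ c * ((minpoly ℚ β).natDegree : ℝ) ^ δ ≤ Real.log (mm α) := by
  obtain ⟨C, hC, hred⟩ := solvable_red
  obtain ⟨c, hc, hlog⟩ := log_mm_of_WW C hC
  have hC0 : (0 : ℝ) < C := by exact_mod_cast hC
  refine ⟨c, 1 / (2 * (C : ℝ)), hc, by positivity, ?_⟩
  intro K _ _ _ N α hN hNs hα hs
  obtain ⟨s, hsN, hs1, hs2⟩ := hs
  obtain ⟨β, k, hk, hmem, hβ, hR, htors, hmm⟩ := exists_red α hα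
  refine ⟨β, k, hk, hmem, hβ, hR, htors, hmm, ?_⟩
  have hb1 : ¬ Tors (s β / β) := fun h => hs1 (tors_aux_div hk hα.ne hβ.ne htors s h)
  have hb2 : ¬ Tors (s β * β) := fun h => hs2 (tors_aux_mul hk hα.ne hβ.ne htors s h)
  have hbT : ¬ Tors β := not_tors_of_div s hb1
  rw [← hmm]
  apply hlog K β hβ (one_lt_mm β hβ hbT)
  intro Y hY hmY
  have h1 := hred K β Y hβ hR hY hmY N hN hNs ⟨s, hsN, hb1, hb2⟩
  rwa [IntermediateField.adjoin.finrank (IsIntegral.of_finite ℚ β)] at h1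

/-- the degree of the reduced unit is at least the degree of some power -/
theorem finrank_pow_le {K : Type} [Field K] [NumberField K] {α β : K} {k : ℕ} (hk : 0 < k) (hα : α ≠ 0)
    (h : Tors (β / α ^ k)) : ∃ k' : ℕ, 0 < k' ∧
      Module.finrank ℚ (IntermediateField.adjoin ℚ {α ^ k'}) ≤ (minpoly ℚ β).natDegree := by
  obtain ⟨m, hm, hm1⟩ := h
  refine ⟨k * m, Nat.mul_pos hk hm, ?_⟩
  rw [← IntermediateField.adjoin.finrank (IsIntegral.of_finite ℚ β)]
  have h1 : α ^ (k * m) = β ^ m := by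
    rw [div_pow, div_eq_one_iff_eq (pow_ne_zero _ (pow_ne_zero _ hα))] at hm1
    rw [hm1, pow_mul]
  have h2 : IntermediateField.adjoin ℚ {α ^ (k * m)} ≤ IntermediateField.adjoin ℚ {β} := by
    rw [IntermediateField.adjoin_simple_le_iff, h1]
    exact pow_mem (IntermediateField.mem_adjoin_simple_self ℚ β) m
  exact Submodule.finrank_mono (R := ℚ) (s := (IntermediateField.adjoin ℚ {α ^ (k * m)}).toSubmodule)
    (t := (IntermediateField.adjoin ℚ {β}).toSubmodule) h2

/-- a unit polynomial gives units -/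
theorem isU_of_poly {K : Type*} [Field K] [CharZero K] (f : ℤ[X]) (hf : Irreducible f) (α : K)
    (h0 : aeval α f = 0) (hα : α ≠ 0) (hl : |f.leadingCoeff| = 1) (hc : |f.coeff 0| = 1) :
    IsU α ∧ (f.map (Int.castRingHom ℂ)).mahlerMeasure = mm α := by
  have hinj : Function.Injective (Int.castRingHom ℂ) := (Int.castRingHom ℂ).injective_int
  have hl1 : f.leadingCoeff * f.leadingCoeff = 1 := by
    rw [← abs_mul_abs_self, hl, one_mul]
  have hcc : f.coeff 0 * f.coeff 0 = 1 := by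
    rw [← abs_mul_abs_self, hc, one_mul]
  have hint : IsIntegral ℤ α := by
    refine ⟨C f.leadingCoeff * f, ?_, ?_⟩
    · rw [Monic, leadingCoeff_mul, leadingCoeff_C, hl1]
    · rw [← aeval_def, map_mul, h0, mul_zero]
  have hinv : IsIntegral ℤ α⁻¹ := by
    have h1 := divX_mul_X_add f
    have h2 : aeval α (divX f) * α + algebraMap ℤ K (f.coeff 0) = 0 := by
      rw [← h0]
      conv_rhs => rw [← h1]
      simp
    have h3 : α⁻¹ = -(algebraMap ℤ K (f.coeff 0)) * aeval α (divX f) := by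
      have h4 : algebraMap ℤ K (f.coeff 0) * algebraMap ℤ K (f.coeff 0) = 1 := by
        rw [← map_mul, hcc, map_one]
      field_simp
      linear_combination algebraMap ℤ K (f.coeff 0) * h2 - h4
    rw [h3]
    refine (isIntegral_algebraMap.neg).mul ?_
    have h5 : aeval α (divX f) ∈ Algebra.adjoin ℤ {α} := aeval_mem_adjoin_singleton ℤ α
    have h6 : Algebra.adjoin ℤ {α} ≤ integralClosure ℤ K := by
      rw [Algebra.adjoin_le_iff, Set.singleton_subset_iff]
      exact hint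
    exact h6 h5
  refine ⟨⟨hint, hinv, hα⟩, ?_⟩
  obtain ⟨g, hg⟩ := minpoly.isIntegrallyClosed_dvd hint h0
  rcases hf.isUnit_or_isUnit hg with h1 | h1
  · exact absurd h1 (minpoly.not_isUnit ℤ α)
  · obtain ⟨u, hu, rfl⟩ := isUnit_iff.1 h1
    have hu1 : ‖(u : ℂ)‖ = 1 := by
      rcases Int.isUnit_iff.1 hu with h2 | h2 <;> rw [h2] <;> simp
    rw [mm, hg, Polynomial.map_mul, map_C, mahlerMeasure_mul, mahlerMeasure_const, eq_intCast, hu1,
      mul_one]

/-- the condition on the polynomial -/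
def SU (f : ℤ[X]) : Prop :=
  Group.IsSolvable (f.map (Int.castRingHom ℚ)).Gal ∧ |f.leadingCoeff| = 1 ∧ |f.coeff 0| = 1

theorem SU.ne_zero {f : ℤ[X]} (h : SU f) : f ≠ 0 := by
  rintro rfl
  have := h.2.1
  simp at this

theorem SU.of_mul {g q : ℤ[X]} (h : SU (g * q)) : SU g := by
  have h0 := h.ne_zero
  refine ⟨?_, ?_, ?_⟩
  · have hdvd : g.map (Int.castRingHom ℚ) ∣ (g * q).map (Int.castRingHom ℚ) := by
      rw [Polynomial.map_mul]; exact dvd_mul_right _ _
    have hne : (g * q).map (Int.castRingHom ℚ) ≠ 0 :=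
      (Polynomial.map_ne_zero_iff (Int.cast_injective (α := ℚ))).2 h0
    have := h.1
    exact Group.isSolvable_of_surjective (Polynomial.Gal.restrictDvd_surjective hdvd hne)
  · have h1 := h.2.1
    rw [leadingCoeff_mul, abs_mul] at h1
    exact Int.eq_one_or_neg_one_of_mul_eq_one h1 |>.resolve_right (by
      intro h2
      have := abs_nonneg g.leadingCoeff
      omega)
  · have h1 := h.2.2
    rw [mul_coeff_zero, abs_mul] at h1
    exact Int.eq_one_or_neg_one_of_mul_eq_one h1 |>.resolve_right (by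
      intro h2
      have := abs_nonneg (g.coeff 0)
      omega)

theorem irr_fin (B : ℝ) : {x : ℝ | x ≤ B ∧ ∃ f : ℤ[X], Irreducible f ∧ SU f ∧ MZ f = x}.Finite := by
  obtain ⟨c, δ, hc, hδ, H⟩ := solv_quant
  set N0 : ℕ := max ⌈(Real.log B / c) ^ (1 / δ)⌉₊ 2 with hN0
  refine (((finite_mahlerMeasure_le N0 B.toNNReal).image MZ).union (Set.finite_singleton 1)).subset ?_
  rintro x ⟨hxB, f, hf, ⟨hs, hl, hc0⟩, rfl⟩
  have hd : f.natDegree ≠ 0 := by
    intro hd
    obtain ⟨a, rfl⟩ : ∃ a, f = C a := ⟨f.coeff 0, Polynomial.eq_C_of_natDegree_eq_zero hd⟩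
    rw [coeff_C_zero] at hc0
    apply hf.not_isUnit
    rw [Polynomial.isUnit_C, Int.isUnit_iff]
    rcases abs_cases a with h | h <;> omega
  obtain ⟨K, i1, i2, i3, α, h0, hs'⟩ := exists_root_solv f hd hs
  have hα : α ≠ 0 := by
    rintro rfl
    have h1 : (f.coeff 0 : K) = 0 := by
      simpa [Polynomial.aeval_def, Polynomial.eval₂_at_zero] using h0
    have h2 : f.coeff 0 = 0 := by exact_mod_cast h1
    rw [h2] at hc0
    simp at hc0
  obtain ⟨hU, hM⟩ := isU_of_poly f hf α h0 hα hl hc0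
  by_cases hT : Tors α
  · right
    change MZ f = 1
    rw [MZ, hM]
    exact mm_of_tors α hT
  left
  have hm1 : 1 < mm α := one_lt_mm α hU hT
  have key : ∃ β : K, IsIntegral ℤ β ∧ mm β = mm α ∧ (minpoly ℚ β).natDegree ≤ N0 := by
    by_cases hex : ∃ s : K ≃ₐ[ℚ] K, ¬ Tors (s α / α) ∧ ¬ Tors (s α * α)
    · obtain ⟨s, hs1⟩ := hex
      obtain ⟨β, k, _, _, h3, _, _, h6, h7⟩ :=
        H K ⊤ α inferInstance (by infer_instance) hU ⟨s, Subgroup.mem_top _, hs1⟩
      refine ⟨β, h3.int, h6, ?_⟩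
      refine le_trans ?_ (le_max_left _ _)
      have h8 : Real.log (mm α) ≤ Real.log B := by
        apply Real.log_le_log (by linarith)
        rw [← hM]
        exact hxB
      have hn0 : (0 : ℝ) ≤ ((minpoly ℚ β).natDegree : ℝ) := Nat.cast_nonneg _
      have h9 : ((minpoly ℚ β).natDegree : ℝ) ^ δ ≤ Real.log B / c := by
        rw [le_div_iff₀ hc, mul_comm]
        exact h7.trans h8
      have h10 : (((minpoly ℚ β).natDegree : ℝ) ^ δ) ^ (1 / δ) ≤ (Real.log B / c) ^ (1 / δ) :=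
        Real.rpow_le_rpow (by positivity) h9 (by positivity)
      rw [← Real.rpow_mul hn0, mul_one_div_cancel hδ.ne', Real.rpow_one] at h10
      have h11 := h10.trans (Nat.le_ceil _)
      exact_mod_cast h11
    · push Not at hex
      obtain ⟨β, k, hk, hmem, hβ, hred, htors, hmm⟩ := exists_red α hU
      refine ⟨β, hβ.int, hmm, ?_⟩
      refine le_trans (deg_le_two β hβ hred ?_) (le_max_right _ _)
      intro s
      by_cases h : Tors (s α / α)
      · exact Or.inl (hred s (tors_aux_div' hU.ne hβ.ne htors s h))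
      · exact Or.inr (tors_aux_mul' hU.ne hβ.ne htors s (hex s h))
  obtain ⟨β, hβ, hmm, hdeg⟩ := key
  refine ⟨minpoly ℤ β, ⟨?_, ?_⟩, ?_⟩
  · rwa [natDegree_minpoly_int β hβ]
  · change mm β ≤ _
    rw [hmm, ← hM]
    exact hxB.trans (Real.le_coe_toNNReal B)
  · change mm β = _
    rw [hmm, ← hM]

/-- finite products -/
noncomputable def PP (S : Set ℝ) : ℕ → Set ℝ
  | 0 => {1}
  | j + 1 => PP S j ∪ Set.image2 (· * ·) S (PP S j)

theorem PP_finite {S : Set ℝ} (hS : S.Finite) (j : ℕ) : (PP S j).Finite := by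
  induction j with
  | zero => exact Set.finite_singleton 1
  | succ j ih => exact ih.union (hS.image2 _ ih)

theorem PP_mono (S : Set ℝ) {i j : ℕ} (h : i ≤ j) : PP S i ⊆ PP S j := by
  induction h with
  | refl => exact subset_rfl
  | step _ ih => exact ih.trans Set.subset_union_left

/-- the Mahler measures of the unit polynomials with solvable group form a discrete set -/
theorem solv_discrete (B : ℝ) : {x : ℝ | x ≤ B ∧ ∃ f : ℤ[X], SU f ∧ MZ f = x}.Finite := by
  set S := {x : ℝ | x ≤ B ∧ ∃ f : ℤ[X], Irreducible f ∧ SU f ∧ MZ f = x} with hSdef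
  have hS : S.Finite := irr_fin B
  obtain ⟨c, hc1, hc2, hc⟩ := exists_c_of_finite hS
  obtain ⟨J, hJ⟩ := pow_unbounded_of_one_lt B hc1
  have key : ∀ f : ℤ[X], SU f → MZ f ≤ B → ∃ j, MZ f ∈ PP S j ∧ c ^ j ≤ MZ f := by
    intro f
    induction f using UniqueFactorizationMonoid.induction_on_prime with
    | h₁ => exact fun h => absurd rfl h.ne_zero
    | h₂ u hu =>
      intro _ _
      obtain ⟨a, ha, rfl⟩ := Polynomial.isUnit_iff.1 hu
      have h1 : MZ (C a) = 1 := by
        have e : (C a : ℤ[X]).map (Int.castRingHom ℂ) = C (a : ℂ) := by rw [Polynomial.map_C]; rfl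
        rw [MZ, e, Polynomial.mahlerMeasure_const]
        rw [Int.isUnit_iff] at ha
        rcases ha with rfl | rfl <;> simp
      refine ⟨0, ?_, ?_⟩
      · rw [h1]; exact rfl
      · rw [h1, pow_zero]
    | h₃ a p ha hp ih =>
      intro hSU hB
      have hmul : MZ (p * a) = MZ p * MZ a := by
        simp [MZ, Polynomial.map_mul, Polynomial.mahlerMeasure_mul]
      have hpSU : SU p := hSU.of_mul
      have haSU : SU a := SU.of_mul (g := a) (q := p) (by rwa [mul_comm])
      have hp1 : 1 ≤ MZ p := one_le_MZ hp.ne_zero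
      have ha1 : 1 ≤ MZ a := one_le_MZ ha
      rw [hmul] at hB
      have hpB : MZ p ≤ B := by nlinarith
      have haB : MZ a ≤ B := by nlinarith
      obtain ⟨j, hj1, hj2⟩ := ih haSU haB
      have hpS : MZ p ∈ S := ⟨hpB, p, hp.irreducible, hpSU, rfl⟩
      rcases hp1.lt_or_eq with h | h
      · refine ⟨j + 1, ?_, ?_⟩
        · rw [hmul]
          exact Or.inr ⟨MZ p, hpS, MZ a, hj1, rfl⟩
        · rw [hmul, pow_succ, mul_comm]
          exact mul_le_mul (hc _ hpS h) hj2 (by positivity) (by linarith)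
      · refine ⟨j, ?_, ?_⟩
        · rw [hmul, ← h, one_mul]
          exact hj1
        · rw [hmul, ← h, one_mul]
          exact hj2
  refine (PP_finite hS J).subset ?_
  rintro x ⟨hxB, f, hf, rfl⟩
  obtain ⟨j, hj1, hj2⟩ := key f hf hxB
  have hjJ : j ≤ J := by
    by_contra hcon
    push Not at hcon
    have : c ^ J ≤ c ^ j := pow_le_pow_right₀ hc1.le hcon.le
    linarith
  exact PP_mono S hjJ hj1

/-- the absolute constant -/
theorem solv_const : ∃ c : ℝ, 1 < c ∧ ∀ f : ℤ[X], Group.IsSolvable (f.map (Int.castRingHom ℚ)).Gal →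
      1 < MZ f → c ≤ MZ f :=
  lehmer_of_W (H61.Geo.theoremW 2 (19 / 10) (by norm_num) (by norm_num))
    (H61.Geo.theoremW 4 (7 / 2) (by norm_num) (by norm_num))

/-- the quantitative theorem, also for the whole group -/
theorem solv_quant' : ∃ c δ : ℝ, 0 < c ∧ 0 < δ ∧ ∀ (K : Type) [Field K] [NumberField K] [IsGalois ℚ K]
    (N : Subgroup (K ≃ₐ[ℚ] K)) (α : K), N.Normal → Group.IsSolvable N → IsU α →
    ((∃ s ∈ N, ¬ Tors (s α / α) ∧ ¬ Tors (s α * α)) ∨ (N = ⊤ ∧ ¬ Tors α)) →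
    ∃ k : ℕ, 0 < k ∧
      c * (Module.finrank ℚ (IntermediateField.adjoin ℚ {α ^ k}) : ℝ) ^ δ ≤ Real.log (mm α) := by
  obtain ⟨c, δ, hc, hδ, H⟩ := solv_quant
  obtain ⟨c0, hc0, hnorth⟩ := northcott 2
  have hlc0 : 0 < Real.log c0 := Real.log_pos hc0
  have h2δ : (0 : ℝ) < 2 ^ δ := by positivity
  refine ⟨min c (Real.log c0 / 2 ^ δ), δ, lt_min hc (by positivity), hδ, ?_⟩
  intro K _ _ _ N α hN hNs hα hs
  have main : ∃ (β : K) (k : ℕ), 0 < k ∧ Tors (β / α ^ k) ∧
      min c (Real.log c0 / 2 ^ δ) * ((minpoly ℚ β).natDegree : ℝ) ^ δ ≤ Real.log (mm α) := by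
    by_cases hs' : ∃ s ∈ N, ¬ Tors (s α / α) ∧ ¬ Tors (s α * α)
    · obtain ⟨β, k, hk, _, _, _, ht, _, h⟩ := H K N α hN hNs hα hs'
      refine ⟨β, k, hk, ht, le_trans (mul_le_mul_of_nonneg_right (min_le_left _ _) (by positivity)) h⟩
    · obtain ⟨rfl, hT⟩ := hs.resolve_left hs'
      push Not at hs'
      obtain ⟨β, k, hk, hmem, hβ, hred, htors, hmm⟩ := exists_red α hα
      have hdeg : (minpoly ℚ β).natDegree ≤ 2 := by
        refine deg_le_two β hβ hred ?_
        intro s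
        by_cases h : Tors (s α / α)
        · exact Or.inl (hred s (tors_aux_div' hα.ne hβ.ne htors s h))
        · exact Or.inr (tors_aux_mul' hα.ne hβ.ne htors s (hs' s (Subgroup.mem_top _) h))
      refine ⟨β, k, hk, htors, ?_⟩
      have hbT : ¬ Tors β := not_tors_red hk hα.ne htors hT
      have h1 : 1 < mm β := one_lt_mm β hβ hbT
      have h2 : c0 ≤ mm β := hnorth (minpoly ℤ β) (by rwa [natDegree_minpoly_int β hβ.int]) h1
      have h3 : Real.log c0 ≤ Real.log (mm β) := Real.log_le_log (by linarith) h2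
      have h4 : ((minpoly ℚ β).natDegree : ℝ) ^ δ ≤ 2 ^ δ := by
        apply Real.rpow_le_rpow (by positivity) _ hδ.le
        exact_mod_cast hdeg
      calc min c (Real.log c0 / 2 ^ δ) * ((minpoly ℚ β).natDegree : ℝ) ^ δ
          ≤ (Real.log c0 / 2 ^ δ) * 2 ^ δ := by
            apply mul_le_mul (min_le_right _ _) h4 (by positivity) (by positivity)
        _ = Real.log c0 := by field_simp
        _ ≤ Real.log (mm α) := by rw [← hmm]; exact h3
  obtain ⟨β, k, hk, ht, h⟩ := main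
  obtain ⟨k', hk', hle⟩ := finrank_pow_le hk hα.ne ht
  refine ⟨k', hk', le_trans ?_ h⟩
  apply mul_le_mul_of_nonneg_left _ (le_min hc.le (by positivity))
  apply Real.rpow_le_rpow (by positivity) _ hδ.le
  exact_mod_cast hle

/-- translation of the torsion conditions -/
theorem not_tors_div {K : Type*} [Field K] {x y : K} (hy : y ≠ 0) (h : ∀ k : ℕ, 0 < k → x ^ k ≠ y ^ k) :
    ¬ Tors (x / y) := by
  rintro ⟨k, hk, hk1⟩
  refine h k hk ?_
  rwa [div_pow, div_eq_one_iff_eq (pow_ne_zero _ hy)] at hk1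

theorem not_tors_of {K : Type*} [Field K] {x : K} (h : ∀ k : ℕ, 0 < k → x ^ k ≠ 1) : ¬ Tors x := by
  rintro ⟨k, hk, hk1⟩
  exact h k hk hk1

end H25
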