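import Pool.Agent.H25.AD.Comp3
import Pool.Agent.H25.AD.SolvThm

/-!
# Reduced units moved by a normal subgroup with bounded composition factors
-/

set_option autoImplicit false

namespace H25

open Polynomial IntermediateField Pool.H95.Leh Pool.Agent.H49.St

theorem comp_red (c : ℕ) : ∃ C : ℕ, 1 ≤ C ∧
    ∀ (K : Type) [Field K] [NumberField K] [IsGalois ℚ K] (β : K) (Y : ℕ),
      IsU β → Red β → 1 ≤ Y → mm β ≤ Real.exp Y →
      ∀ N : Subgroup (K ≃ₐ[ℚ] K), N.Normal → BoundedFactors c N →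
      (∃ s ∈ N, ¬ Tors (s β / β) ∧ ¬ Tors (s β * β)) →
      Module.finrank ℚ (IntermediateField.adjoin ℚ {β}) ≤
          WW C (Module.finrank ℚ (IntermediateField.adjoin ℚ {β})) Y := by
  obtain ⟨C0, hC0, hmain⟩ := structure_red (c + 1)
  refine ⟨(c + 1) * C0 + 2, by omega, ?_⟩
  intro K _ _ _ β Y hβU hβR hY hmm N hN hNf hs
  obtain ⟨s, hsN, hs1, hs2⟩ := hs
  have hβT : ¬ Tors β := by
    rintro h
    exact hs1 (RedAux.torsDiv (h.map s) h)
  set n := Module.finrank ℚ (IntermediateField.adjoin ℚ {β}) with hn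
  have hC0' : 1 ≤ (c + 1) * C0 := Nat.mul_pos (Nat.succ_pos _) hC0
  by_cases hnW : n ≤ WW C0 n Y
  · refine hnW.trans (WW_mono ?_ (by omega) hY)
    have : C0 ≤ (c + 1) * C0 := Nat.le_mul_of_pos_left _ (Nat.succ_pos _)
    omega
  push Not at hnW
  rcases hmain K β Y hβU hβR hβT hY hmm with h | ⟨L, hLβ, hLg, hn2, -, hLM, hL⟩
  · exact absurd (h : n ≤ WW C0 n Y) (not_le.mpr hnW)
  have hn2' : 2 ≤ n := by
    have := one_le_WW (C := C0) (n := n) (Y := Y) hC0 hY
    omega
  set H := L.fixingSubgroup with hH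
  have hLfix : fixedField H = L := IsGalois.fixedField_fixingSubgroup L
  have hHi : H.index = Module.finrank ℚ L := by
    rw [← finrank_fixedField_eq, hLfix]
  have hanti : ∀ {A B : Subgroup (K ≃ₐ[ℚ] K)}, A ≤ B → fixedField B ≤ fixedField A := by
    intro A B hAB x hx σ
    exact hx ⟨σ, hAB σ.2⟩
  have hanti' : ∀ {A B : IntermediateField ℚ K}, A ≤ B → B.fixingSubgroup ≤ A.fixingSubgroup := by
    intro A B hAB σ hσ
    rw [IntermediateField.mem_fixingSubgroup_iff] at hσ ⊢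
    exact fun x hx => hσ x (hAB hx)
  have hsH : s ∉ H := by
    rw [hLg]
    rintro (h | h)
    · exact hs1 h
    · exact hs2 h
  have hHn : H.index ≤ n := by
    rw [hHi]
    exact Submodule.finrank_mono (R := ℚ) (s := L.toSubmodule)
      (t := (IntermediateField.adjoin ℚ {β}).toSubmodule) hLβ
  have key := pure_comp c H N (WW C0 n Y) hN (fun h => hsH (h hsN)) (by
    intro J hJ
    rw [← finrank_fixedField_eq]
    apply hLM
    · have h1 := hanti hJ.le
      rw [hLfix] at h1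
      exact h1.trans hLβ
    · intro h
      have h1 := hanti' h
      rw [fixingSubgroup_fixedField] at h1
      exact hJ.not_ge h1) (by
    intro G0 hcov
    have hFL : fixedField G0 < L := by
      refine lt_of_le_of_ne ?_ ?_
      · rw [← hLfix]
        exact hanti hcov.le
      · intro h
        have h1 := congrArg IntermediateField.fixingSubgroup h
        rw [fixingSubgroup_fixedField] at h1
        exact hcov.lt.ne h1.symm
    obtain ⟨γ, hγL, hγF⟩ := SetLike.exists_of_lt hFL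
    obtain ⟨hAS, hcard, -⟩ := hL (fixedField G0) hFL (by
      intro M hFM hML
      have h1 : H ≤ M.fixingSubgroup := hanti' hML
      have h2 : M.fixingSubgroup ≤ G0 := by
        have := hanti' hFM
        rwa [fixingSubgroup_fixedField] at this
      rcases hcov.eq_or_eq h1 h2 with h | h
      · right
        rw [← hLfix, ← h, IsGalois.fixedField_fixingSubgroup]
      · left
        rw [← h, IsGalois.fixedField_fixingSubgroup]) γ hγL hγF
    obtain ⟨⟨e⟩, -, -⟩ := gal_equiv H G0 hcov γ (by rw [hLfix]; exact hγL) hγF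
    refine ⟨hAS.congr e.symm, ?_⟩
    rw [Nat.card_congr e.toEquiv]
    calc H.index ^ c ≤ n ^ c := Nat.pow_le_pow_left hHn c
      _ < n ^ (c + 1) := Nat.pow_lt_pow_right (by omega) (by omega)
      _ ≤ _ := hcard) hNf
  calc n ≤ 2 * Module.finrank ℚ L := hn2
    _ = 2 * H.index := by rw [hHi]
    _ ≤ 2 * (WW C0 n Y) ^ (c + 1) := Nat.mul_le_mul_left _ key
    _ ≤ 2 * WW ((c + 1) * C0) n Y := Nat.mul_le_mul_left _ (WW_pow C0 (c + 1) hC0 (by omega) hY)
    _ ≤ WW ((c + 1) * C0 + 2) n Y := WW_mul 2 _ hC0' hY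

/-- the quantitative theorem for units moved by a normal subgroup with bounded composition factors -/
theorem comp_quant (e : ℕ) : ∃ c δ : ℝ, 0 < c ∧ 0 < δ ∧ ∀ (K : Type) [Field K] [NumberField K] [IsGalois ℚ K]
    (N : Subgroup (K ≃ₐ[ℚ] K)) (α : K), N.Normal → BoundedFactors e N → IsU α →
    (∃ s ∈ N, ¬ Tors (s α / α) ∧ ¬ Tors (s α * α)) →
    ∃ (β : K) (k : ℕ), 0 < k ∧ β ∈ IntermediateField.adjoin ℚ {α} ∧ IsU β ∧ Red β ∧ Tors (β / α ^ k) ∧
      mm β = mm α ∧ c * ((minpoly ℚ β).natDegree : ℝ) ^ δ ≤ Real.log (mm α) := by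
  obtain ⟨C, hC, hred⟩ := comp_red e
  obtain ⟨c, hc, hlog⟩ := log_mm_of_WW C hC
  have hC0 : (0 : ℝ) < C := by exact_mod_cast hC
  refine ⟨c, 1 / (2 * (C : ℝ)), hc, by positivity, ?_⟩
  intro K _ _ _ N α hN hNs hα hs
  obtain ⟨s, hsN, hs1, hs2⟩ := hs
  obtain ⟨β, k, hk, hmem, hβ, hR, htors, hmm⟩ := exists_red α hα
  refine ⟨β, k, hk, hmem, hβ, hR, htors, hmm, ?_⟩
  have hb1 : ¬ Tors (s β / β) := fun h => hs1 (tors_aux_div hk hα.ne hβ.ne htors s h)
  have hb2 : ¬ Tors (s β * β) := fun h => hs2 (tors_aux_mul hk hα.ne hβ.ne htors s h)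
  have hbT : ¬ Tors β := not_tors_of_div s hb1
  rw [← hmm]
  apply hlog K β hβ (one_lt_mm β hβ hbT)
  intro Y hY hmY
  have h1 := hred K β Y hβ hR hY hmY N hN hNs ⟨s, hsN, hb1, hb2⟩
  rwa [IntermediateField.adjoin.finrank (IsIntegral.of_finite ℚ β)] at h1

/-- the same, also for the whole group -/
theorem comp_quant' (e : ℕ) : ∃ c δ : ℝ, 0 < c ∧ 0 < δ ∧ ∀ (K : Type) [Field K] [NumberField K] [IsGalois ℚ K]
    (N : Subgroup (K ≃ₐ[ℚ] K)) (α : K), N.Normal → BoundedFactors e N → IsU α →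
    ((∃ s ∈ N, ¬ Tors (s α / α) ∧ ¬ Tors (s α * α)) ∨ (N = ⊤ ∧ ¬ Tors α)) →
    ∃ k : ℕ, 0 < k ∧
      c * (Module.finrank ℚ (IntermediateField.adjoin ℚ {α ^ k}) : ℝ) ^ δ ≤ Real.log (mm α) := by
  obtain ⟨c, δ, hc, hδ, H⟩ := comp_quant e
  obtain ⟨c0, hc0, hnorth⟩ := northcott 2
  have hlc0 : 0 < Real.log c0 := Real.log_pos hc0
  have h2δ : (0 : ℝ) < 2 ^ δ := by positivity
  refine ⟨min c (Real.log c0 / 2 ^ δ), δ, lt_min hc (by positivity), hδ, ?_⟩
  intro K _ _ _ N α hN hNs hα hs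
  have main : ∃ (β : K) (k : ℕ), 0 < k ∧ Tors (β / α ^ k) ∧
      min c (Real.log c0 / 2 ^ δ) * ((minpoly ℚ β).natDegree : ℝ) ^ δ ≤ Real.log (mm α) := by
    by_cases hs' : ∃ s ∈ N, ¬ Tors (s α / α) ∧ ¬ Tors (s α * α)
    · obtain ⟨β, k, hk, _, _, _, ht, _, h⟩ := H K N α hN hNs hα hs'
      refine ⟨β, k, hk, ht, le_trans (mul_le_mul_of_nonneg_right (min_le_left _ _) (by positivity)) h⟩
    · obtain ⟨rfl, hT⟩ := hs.resolve_left hs'
      push Not at hs'
      obtain ⟨β, k, hk, hmem, hβ, hred, htors, hmm⟩ := exists_red α hα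
      have hdeg : (minpoly ℚ β).natDegree ≤ 2 := by
        refine deg_le_two β hβ hred ?_
        intro s
        by_cases h : Tors (s α / α)
        · exact Or.inl (hred s (tors_aux_div' hα.ne hβ.ne htors s h))
        · exact Or.inr (tors_aux_mul' hα.ne hβ.ne htors s (hs' s (Subgroup.mem_top _) h))
      refine ⟨β, k, hk, htors, ?_⟩
      have hbT : ¬ Tors β := not_tors_red hk hα.ne htors hT
      have h1 : 1 < mm β := one_lt_mm β hβ hbT
      have h2 : c0 ≤ mm β := hnorth (minpoly ℤ β) (by rwa [natDegree_minpoly_int β hβ.int]) h1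
      have h3 : Real.log c0 ≤ Real.log (mm β) := Real.log_le_log (by linarith) h2
      have h4 : ((minpoly ℚ β).natDegree : ℝ) ^ δ ≤ 2 ^ δ := by
        apply Real.rpow_le_rpow (by positivity) _ hδ.le
        exact_mod_cast hdeg
      calc min c (Real.log c0 / 2 ^ δ) * ((minpoly ℚ β).natDegree : ℝ) ^ δ
          ≤ (Real.log c0 / 2 ^ δ) * 2 ^ δ := by
            apply mul_le_mul (min_le_right _ _) h4 (by positivity) (by positivity)
        _ = Real.log c0 := by field_simp
        _ ≤ Real.log (mm α) := by rw [← hmm]; exact h3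
  obtain ⟨β, k, hk, ht, h⟩ := main
  obtain ⟨k', hk', hle⟩ := finrank_pow_le hk hα.ne ht
  refine ⟨k', hk', le_trans ?_ h⟩
  apply mul_le_mul_of_nonneg_left _ (le_min hc.le (by positivity))
  apply Real.rpow_le_rpow (by positivity) _ hδ.le
  exact_mod_cast hle

theorem exists_root_aux' (e : ℕ) (p : ℚ[X]) (hdeg : p.degree ≠ 0) (K : Type) [Field K] [CharZero K] [A : Algebra ℚ K]
    [IsSplittingField ℚ K p] (hs : BoundedFactors e (K ≃ₐ[ℚ] K)) :
    ∃ (K : Type) (_ : Field K) (_ : NumberField K) (_ : IsGalois ℚ K) (α : K),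
      eval₂ (algebraMap ℚ K) α p = 0 ∧ BoundedFactors e (K ≃ₐ[ℚ] K) := by
  obtain rfl : A = DivisionRing.toRatAlgebra := Subsingleton.elim _ _
  have hfd : FiniteDimensional ℚ K := IsSplittingField.finiteDimensional K p
  have : NumberField K := { to_finiteDimensional := hfd, to_charZero := inferInstance }
  have hn : Normal ℚ K := Normal.of_isSplittingField p
  have hg : IsGalois ℚ K := { to_isSeparable := inferInstance, to_normal := hn }
  have hsp : (p.map (algebraMap ℚ K)).Splits := IsSplittingField.splits K p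
  obtain ⟨α, hα⟩ := hsp.exists_eval_eq_zero (by simpa using hdeg)
  exact ⟨K, inferInstance, this, hg, α, by rwa [Polynomial.eval_map] at hα, hs⟩

/-- a root of a polynomial in a Galois number field with the same group -/
theorem exists_root_comp (e : ℕ) (f : ℤ[X]) (hf : f.natDegree ≠ 0)
    (hs : BoundedFactors e (f.map (Int.castRingHom ℚ)).Gal) :
    ∃ (K : Type) (_ : Field K) (_ : NumberField K) (_ : IsGalois ℚ K) (α : K), aeval α f = 0 ∧
      BoundedFactors e (K ≃ₐ[ℚ] K) := by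
  have hdeg : (f.map (Int.castRingHom ℚ)).degree ≠ 0 := by
    intro h
    apply hf
    have h2 : (f.map (Int.castRingHom ℚ)).natDegree = 0 := Polynomial.natDegree_eq_of_degree_eq_some h
    rwa [Polynomial.natDegree_map_eq_of_injective (Int.cast_injective (α := ℚ))] at h2
  obtain ⟨K, i1, i2, i3, α, hα, hs'⟩ := exists_root_aux' e (f.map (Int.castRingHom ℚ)) hdeg
    (f.map (Int.castRingHom ℚ)).SplittingField hs
  refine ⟨K, i1, i2, i3, α, ?_, hs'⟩
  rw [Polynomial.eval₂_map] at hα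
  have e : (algebraMap ℚ K).comp (Int.castRingHom ℚ) = algebraMap ℤ K := Subsingleton.elim _ _
  rw [e] at hα
  exact hα

/-- the condition on the polynomial -/
def SB (e : ℕ) (f : ℤ[X]) : Prop :=
  BoundedFactors e (f.map (Int.castRingHom ℚ)).Gal ∧ |f.leadingCoeff| = 1 ∧ |f.coeff 0| = 1

theorem SB.ne_zero {e : ℕ} {f : ℤ[X]} (h : SB e f) : f ≠ 0 := by
  rintro rfl
  have := h.2.1
  simp at this

theorem bf_of_mul {e : ℕ} {g q : ℤ[X]} (h0 : g * q ≠ 0)
    (h : BoundedFactors e ((g * q).map (Int.castRingHom ℚ)).Gal) :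
    BoundedFactors e (g.map (Int.castRingHom ℚ)).Gal := by
  have hdvd : g.map (Int.castRingHom ℚ) ∣ (g * q).map (Int.castRingHom ℚ) := by
    rw [Polynomial.map_mul]; exact dvd_mul_right _ _
  have hne : (g * q).map (Int.castRingHom ℚ) ≠ 0 :=
    (Polynomial.map_ne_zero_iff (Int.cast_injective (α := ℚ))).2 h0
  exact h.of_surjective (Polynomial.Gal.restrictDvd hdvd) (Polynomial.Gal.restrictDvd_surjective hdvd hne)

theorem SB.of_mul {e : ℕ} {g q : ℤ[X]} (h : SB e (g * q)) : SB e g := by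
  refine ⟨bf_of_mul h.ne_zero h.1, ?_, ?_⟩
  · have h1 := h.2.1
    rw [leadingCoeff_mul, abs_mul] at h1
    exact Int.eq_one_or_neg_one_of_mul_eq_one h1 |>.resolve_right (by
      intro h2
      have := abs_nonneg g.leadingCoeff
      omega)
  · have h1 := h.2.2
    rw [mul_coeff_zero, abs_mul] at h1
    exact Int.eq_one_or_neg_one_of_mul_eq_one h1 |>.resolve_right (by
      intro h2
      have := abs_nonneg (g.coeff 0)
      omega)

theorem irr_fin_comp (e : ℕ) (B : ℝ) : {x : ℝ | x ≤ B ∧ ∃ f : ℤ[X], Irreducible f ∧ SB e f ∧ MZ f = x}.Finite := by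
  obtain ⟨c, δ, hc, hδ, H⟩ := comp_quant e
  set N0 : ℕ := max ⌈(Real.log B / c) ^ (1 / δ)⌉₊ 2 with hN0
  refine (((finite_mahlerMeasure_le N0 B.toNNReal).image MZ).union (Set.finite_singleton 1)).subset ?_
  rintro x ⟨hxB, f, hf, ⟨hs, hl, hc0⟩, rfl⟩
  have hd : f.natDegree ≠ 0 := by
    intro hd
    obtain ⟨a, rfl⟩ : ∃ a, f = C a := ⟨f.coeff 0, Polynomial.eq_C_of_natDegree_eq_zero hd⟩
    rw [coeff_C_zero] at hc0
    apply hf.not_isUnit
    rw [Polynomial.isUnit_C, Int.isUnit_iff]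
    rcases abs_cases a with h | h <;> omega
  obtain ⟨K, i1, i2, i3, α, h0, hs'⟩ := exists_root_comp e f hd hs
  have hα : α ≠ 0 := by
    rintro rfl
    have h1 : (f.coeff 0 : K) = 0 := by
      simpa [Polynomial.aeval_def, Polynomial.eval₂_at_zero] using h0
    have h2 : f.coeff 0 = 0 := by exact_mod_cast h1
    rw [h2] at hc0
    simp at hc0
  obtain ⟨hU, hM⟩ := isU_of_poly f hf α h0 hα hl hc0
  by_cases hT : Tors α
  · right
    change MZ f = 1
    rw [MZ, hM]
    exact mm_of_tors α hT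
  left
  have hm1 : 1 < mm α := one_lt_mm α hU hT
  have key : ∃ β : K, IsIntegral ℤ β ∧ mm β = mm α ∧ (minpoly ℚ β).natDegree ≤ N0 := by
    by_cases hex : ∃ s : K ≃ₐ[ℚ] K, ¬ Tors (s α / α) ∧ ¬ Tors (s α * α)
    · obtain ⟨s, hs1⟩ := hex
      obtain ⟨β, k, _, _, h3, _, _, h6, h7⟩ :=
        H K ⊤ α inferInstance (hs'.of_surjective (Subgroup.topEquiv (G := K ≃ₐ[ℚ] K)).symm.toMonoidHom
          (Subgroup.topEquiv (G := K ≃ₐ[ℚ] K)).symm.surjective) hU ⟨s, Subgroup.mem_top _, hs1⟩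
      refine ⟨β, h3.int, h6, ?_⟩
      refine le_trans ?_ (le_max_left _ _)
      have h8 : Real.log (mm α) ≤ Real.log B := by
        apply Real.log_le_log (by linarith)
        rw [← hM]
        exact hxB
      have hn0 : (0 : ℝ) ≤ ((minpoly ℚ β).natDegree : ℝ) := Nat.cast_nonneg _
      have h9 : ((minpoly ℚ β).natDegree : ℝ) ^ δ ≤ Real.log B / c := by
        rw [le_div_iff₀ hc, mul_comm]
        exact h7.trans h8
      have h10 : (((minpoly ℚ β).natDegree : ℝ) ^ δ) ^ (1 / δ) ≤ (Real.log B / c) ^ (1 / δ) :=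
        Real.rpow_le_rpow (by positivity) h9 (by positivity)
      rw [← Real.rpow_mul hn0, mul_one_div_cancel hδ.ne', Real.rpow_one] at h10
      have h11 := h10.trans (Nat.le_ceil _)
      exact_mod_cast h11
    · push Not at hex
      obtain ⟨β, k, hk, hmem, hβ, hred, htors, hmm⟩ := exists_red α hU
      refine ⟨β, hβ.int, hmm, ?_⟩
      refine le_trans (deg_le_two β hβ hred ?_) (le_max_right _ _)
      intro s
      by_cases h : Tors (s α / α)
      · exact Or.inl (hred s (tors_aux_div' hU.ne hβ.ne htors s h))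
      · exact Or.inr (tors_aux_mul' hU.ne hβ.ne htors s (hex s h))
  obtain ⟨β, hβ, hmm, hdeg⟩ := key
  refine ⟨minpoly ℤ β, ⟨?_, ?_⟩, ?_⟩
  · rwa [natDegree_minpoly_int β hβ]
  · change mm β ≤ _
    rw [hmm, ← hM]
    exact hxB.trans (Real.le_coe_toNNReal B)
  · change mm β = _
    rw [hmm, ← hM]

/-- the Mahler measures of the unit polynomials form a discrete set -/
theorem comp_discrete (e : ℕ) (B : ℝ) : {x : ℝ | x ≤ B ∧ ∃ f : ℤ[X], SB e f ∧ MZ f = x}.Finite := by
  set S := {x : ℝ | x ≤ B ∧ ∃ f : ℤ[X], Irreducible f ∧ SB e f ∧ MZ f = x} with hSdef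
  have hS : S.Finite := irr_fin_comp e B
  obtain ⟨c, hc1, hc2, hc⟩ := exists_c_of_finite hS
  obtain ⟨J, hJ⟩ := pow_unbounded_of_one_lt B hc1
  have key : ∀ f : ℤ[X], SB e f → MZ f ≤ B → ∃ j, MZ f ∈ PP S j ∧ c ^ j ≤ MZ f := by
    intro f
    induction f using UniqueFactorizationMonoid.induction_on_prime with
    | h₁ => exact fun h => absurd rfl h.ne_zero
    | h₂ u hu =>
      intro _ _
      obtain ⟨a, ha, rfl⟩ := Polynomial.isUnit_iff.1 hu
      have h1 : MZ (C a) = 1 := by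
        have e : (C a : ℤ[X]).map (Int.castRingHom ℂ) = C (a : ℂ) := by rw [Polynomial.map_C]; rfl
        rw [MZ, e, Polynomial.mahlerMeasure_const]
        rw [Int.isUnit_iff] at ha
        rcases ha with rfl | rfl <;> simp
      refine ⟨0, ?_, ?_⟩
      · rw [h1]; exact rfl
      · rw [h1, pow_zero]
    | h₃ a p ha hp ih =>
      intro hSU hB
      have hmul : MZ (p * a) = MZ p * MZ a := by
        simp [MZ, Polynomial.map_mul, Polynomial.mahlerMeasure_mul]
      have hpSU : SB e p := hSU.of_mul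
      have haSU : SB e a := SB.of_mul (g := a) (q := p) (by rwa [mul_comm])
      have hp1 : 1 ≤ MZ p := one_le_MZ hp.ne_zero
      have ha1 : 1 ≤ MZ a := one_le_MZ ha
      rw [hmul] at hB
      have hpB : MZ p ≤ B := by nlinarith
      have haB : MZ a ≤ B := by nlinarith
      obtain ⟨j, hj1, hj2⟩ := ih haSU haB
      have hpS : MZ p ∈ S := ⟨hpB, p, hp.irreducible, hpSU, rfl⟩
      rcases hp1.lt_or_eq with h | h
      · refine ⟨j + 1, ?_, ?_⟩
        · rw [hmul]
          exact Or.inr ⟨MZ p, hpS, MZ a, hj1, rfl⟩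
        · rw [hmul, pow_succ, mul_comm]
          exact mul_le_mul (hc _ hpS h) hj2 (by positivity) (by linarith)
      · refine ⟨j, ?_, ?_⟩
        · rw [hmul, ← h, one_mul]
          exact hj1
        · rw [hmul, ← h, one_mul]
          exact hj2
  refine (PP_finite hS J).subset ?_
  rintro x ⟨hxB, f, hf, rfl⟩
  obtain ⟨j, hj1, hj2⟩ := key f hf hxB
  have hjJ : j ≤ J := by
    by_contra hcon
    push Not at hcon
    have : c ^ J ≤ c ^ j := pow_le_pow_right₀ hc1.le hcon.le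
    linarith
  exact PP_mono S hjJ hj1

/-- an irreducible polynomial of Mahler measure in `(1, 2)` is a unit polynomial -/
theorem unit_of_lt_two {g : ℤ[X]} (hg : Irreducible g) (h1 : 1 < MZ g) (h2 : MZ g < 2) :
    |g.leadingCoeff| = 1 ∧ |g.coeff 0| = 1 := by
  have hinj : Function.Injective (Int.castRingHom ℂ) := (Int.castRingHom ℂ).injective_int
  have hl0 : g.leadingCoeff ≠ 0 := leadingCoeff_ne_zero.2 hg.ne_zero
  constructor
  · have h3 := leadingCoeff_le_mahlerMeasure (g.map (Int.castRingHom ℂ))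
    rw [leadingCoeff_map_of_injective hinj, eq_intCast, Complex.norm_intCast] at h3
    have h4 : ((|g.leadingCoeff| : ℤ) : ℝ) < 2 := by
      push_cast
      exact lt_of_le_of_lt h3 h2
    have h5 : |g.leadingCoeff| < 2 := by exact_mod_cast h4
    have h6 := abs_pos.2 hl0
    omega
  · have h3 := norm_coeff_le_choose_mul_mahlerMeasure 0 (g.map (Int.castRingHom ℂ))
    rw [Nat.choose_zero_right, Nat.cast_one, one_mul, coeff_map, eq_intCast, Complex.norm_intCast] at h3
    have h4 : ((|g.coeff 0| : ℤ) : ℝ) < 2 := by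
      push_cast
      exact lt_of_le_of_lt h3 h2
    have h5 : |g.coeff 0| < 2 := by exact_mod_cast h4
    have hc0 : g.coeff 0 ≠ 0 := by
      intro h
      have := MZ_of_root_zero hg h
      linarith
    have h6 := abs_pos.2 hc0
    omega

/-- the absolute constant -/
theorem comp_const (e : ℕ) : ∃ c : ℝ, 1 < c ∧ ∀ f : ℤ[X], BoundedFactors e (f.map (Int.castRingHom ℚ)).Gal →
      1 < MZ f → c ≤ MZ f := by
  obtain ⟨c, hc1, hc2, hc⟩ := exists_c_of_finite (irr_fin_comp e 2)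
  refine ⟨c, hc1, fun f hs hM => ?_⟩
  have hf0 : f ≠ 0 := by
    rintro rfl
    simp [MZ] at hM
    linarith
  obtain ⟨g, hg, hgf, hg1⟩ : ∃ g : ℤ[X], Irreducible g ∧ g ∣ f ∧ MZ g ≠ 1 := by
    by_contra hcon
    push Not at hcon
    exact hM.ne' (MZ_eq_one_of_factors f hf0 hcon)
  obtain ⟨q, rfl⟩ := hgf
  have hg0 : g ≠ 0 := left_ne_zero_of_mul hf0
  have hq0 : q ≠ 0 := right_ne_zero_of_mul hf0
  have hg1' : 1 < MZ g := lt_of_le_of_ne (one_le_MZ hg0) (Ne.symm hg1)
  have hcg : c ≤ MZ g := by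
    by_cases h : MZ g < 2
    · exact hc _ ⟨h.le, g, hg, ⟨bf_of_mul hf0 hs, unit_of_lt_two hg hg1' h⟩, rfl⟩ hg1'
    · push Not at h
      exact hc2.trans h
  have hmul : MZ (g * q) = MZ g * MZ q := by
    simp [MZ, Polynomial.map_mul, Polynomial.mahlerMeasure_mul]
  rw [hmul]
  have := one_le_MZ hq0
  nlinarith

end H25
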