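import Pool.Agent.H25.Arith.LemECor

/-!
# The joint dimension inequality with explicit constants

`n ≤ N ^ κ` replaces `n ^ d ≤ N`; the constant `CC r κ` is a polynomial in `κ`.
-/

open H61.Geo

namespace H25.Arith

/-- the explicit constant -/
def CC (r κ : ℕ) : ℕ :=
  (2 * (r * κ + 3)) ^ r * (1 + (r * κ + r * (2 * (r * κ + 3)) * κ + 2))

private theorem lemE2_arith {r T c lam κ R E LS QLS l1 : ℝ} (hr : 0 ≤ r)
    (hT : r * κ + 3 ≤ 3 / 4 * T) (hT0 : 0 ≤ T) (hc : r * κ + r * T * κ + 2 ≤ c)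
    (hlam : 1 / 2 ≤ lam)
    (hR : 0 ≤ R) (hE : 0 ≤ E) (hl1 : l1 ≤ κ * lam) (hLS : LS ≤ 1) (hQLS : QLS ≤ 1)
    (h4 : T * ((1 - 1 / 4) * lam) * E ≤ (R + E) * (r * l1) + R * (r * T * l1 + LS) + E * QLS) :
    E ≤ R * c := by
  have hlam0 : 0 < lam := by linarith
  have e1 : (R + E) * (r * l1) ≤ (R + E) * (r * (κ * lam)) :=
    mul_le_mul_of_nonneg_left (mul_le_mul_of_nonneg_left hl1 hr) (by linarith)
  have e2 : R * (r * T * l1 + LS) ≤ R * (r * T * (κ * lam) + 2 * lam) := by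
    refine mul_le_mul_of_nonneg_left ?_ hR
    have := mul_le_mul_of_nonneg_left hl1 (mul_nonneg hr hT0)
    linarith
  have e3 : E * QLS ≤ E * (2 * lam) := mul_le_mul_of_nonneg_left (by linarith) hE
  have e4 : lam * (3 / 4 * T * E) ≤ lam * ((R + E) * (r * κ) + R * (r * T * κ + 2) + 2 * E) := by
    have e5 : lam * (3 / 4 * T * E) = T * ((1 - 1 / 4) * lam) * E := by ring
    have e6 : lam * ((R + E) * (r * κ) + R * (r * T * κ + 2) + 2 * E) =
        (R + E) * (r * (κ * lam)) + R * (r * T * (κ * lam) + 2 * lam) + E * (2 * lam) := by ring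
    rw [e5, e6]
    linarith
  have e7 := le_of_mul_le_mul_left e4 hlam0
  have e8 : (r * κ + 3) * E ≤ 3 / 4 * T * E := mul_le_mul_of_nonneg_right hT hE
  have e9 : E ≤ R * (r * κ + r * T * κ + 2) := by nlinarith
  exact e9.trans (mul_le_mul_of_nonneg_left hc hR)

theorem lemmaE2 {r : ℕ} (κ : ℕ) {K : Type*} [Field K] [NumberField K] [IsGalois ℚ K]
    (σ : K →+* ℂ) (ℓ : ∀ q : Nat.Primes, Loc K q) (b : Fin r → K)
    (hb0 : ∀ i, b i ≠ 0) (hbi : ∀ i, IsIntegral ℤ (b i))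
    (N Q L : ℕ) (Ψ : Finset Nat.Primes) (hN : 2 ≤ N) (hL : L + 1 ≤ N ^ κ)
    (hΨ : ∀ q ∈ Ψ, N ≤ (q : ℕ) ∧ (q : ℕ) ≤ Q ∧
        ((bad (ℓ q) b).card : ℝ) ≤ 1 / 4 * Fintype.card (K ≃ₐ[ℚ] K))
    (hQ : (Q : ℝ) * L * ∑ i, hh σ (b i) ≤ 1) : Jd b Ψ L ≤ CC r κ * Hd ℚ b L := by
  set T : ℕ := 2 * (r * κ + 3) with hTdef
  set c : ℕ := r * κ + r * T * κ + 2 with hcdef
  have hCC : CC r κ = T ^ r * (1 + c) := by rw [CC, hcdef, hTdef]
  rcases Ψ.eq_empty_or_nonempty with rfl | hne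
  · have h0 : Jd b ∅ L = 0 := by
      unfold Jd
      have h1 : Subsingleton ((∅ : Finset Nat.Primes) → K) :=
        ⟨fun f g => funext fun q => absurd q.2 (Finset.notMem_empty _)⟩
      exact Module.finrank_zero_of_subsingleton
    rw [h0]; exact Nat.zero_le _
  obtain ⟨q0, hq0⟩ := hne
  obtain ⟨R, E, h1, _, h3, h4⟩ := lemmaE_raw σ ℓ b hb0 hbi L T Ψ N Q hN (1 / 4) hΨ
  have hS : 0 ≤ ∑ i, hh σ (b i) := Finset.sum_nonneg fun i _ => hh_nonneg σ (b i)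
  have hQ1 : (1 : ℝ) ≤ Q := by
    have := (hΨ q0 hq0).2.1
    have h5 := q0.2.one_lt
    have h6 : 1 ≤ Q := by omega
    exact_mod_cast h6
  have hLS : (L : ℝ) * ∑ i, hh σ (b i) ≤ 1 := by
    refine le_trans ?_ hQ
    rw [mul_assoc]
    exact le_mul_of_one_le_left (mul_nonneg (Nat.cast_nonneg _) hS) hQ1
  have hlam : 1 / 2 ≤ Real.log N := by
    have h5 : (2 : ℝ) ≤ N := by exact_mod_cast hN
    have h6 := Real.log_le_log (by norm_num) h5
    have := Real.log_two_gt_d9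
    linarith
  have hl1 : Real.log ((L : ℝ) + 1) ≤ κ * Real.log N := by
    rw [← Real.log_pow]
    apply Real.log_le_log (by positivity)
    exact_mod_cast hL
  have hT1 : (r : ℝ) * κ + 3 ≤ 3 / 4 * T := by
    rw [hTdef]
    push_cast
    have : (0 : ℝ) ≤ (r : ℝ) * κ := by positivity
    linarith
  have hc1 : (r : ℝ) * κ + r * T * κ + 2 ≤ c := by
    rw [hcdef]
    push_cast
    exact le_refl _
  have key := lemE2_arith (r := (r : ℝ)) (T := (T : ℝ)) (c := (c : ℝ)) (lam := Real.log N)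
    (κ := (κ : ℝ)) (R := (R : ℝ)) (E := (E : ℝ))
    (Nat.cast_nonneg _) hT1
    (Nat.cast_nonneg _) hc1 hlam (Nat.cast_nonneg _) (Nat.cast_nonneg _) hl1 hLS hQ h4
  have key2 : E ≤ R * c := by exact_mod_cast key
  calc Jd b Ψ L ≤ R + E := h3
    _ ≤ R + R * c := by omega
    _ = R * (1 + c) := by ring
    _ ≤ (T ^ r * Hd ℚ b L) * (1 + c) := Nat.mul_le_mul_right _ h1
    _ = T ^ r * (1 + c) * Hd ℚ b L := by ring
    _ = CC r κ * Hd ℚ b L := by rw [hCC]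

end H25.Arith
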