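import Pool.Agent.H25.Arith.Fin1
import Pool.Agent.H25.AD.LemE2

/-!
# Two primes with the same relations of low degree, explicit parameters
-/

open H61.Geo MvPolynomial

namespace H25.Arith

/-- the number of primes needed -/
def KK (r κ : ℕ) : ℕ := 2 ^ (r + 1) * CC r κ + 1

/-- the lower bound for `N` -/
def BB (r κ Y : ℕ) : ℕ :=
  16 * r ^ 2 * (κ + 2 * Y) + 4 * (r * κ + 2) + KK r κ + 4 * KK r κ * (r + 1) + 2

theorem step_one' : ∃ N0 : ℕ, ∀ {r : ℕ} (κ Y : ℕ) {K : Type*} [Field K] [NumberField K]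
    [IsGalois ℚ K] (σ : K →+* ℂ) (a : Fin r → K) (n n1 N : ℕ), 2 ≤ n → n ≤ N ^ κ → n1 ≤ N ^ κ →
      1 ≤ n1 → N0 ≤ N → BB r κ Y ≤ N → (∀ i, a i ≠ 0) → (∀ i, IsIntegral ℤ (a i)) →
      (∀ i, (orb (a i)).card ≤ n1) → (∀ i, n * hh σ (a i) ≤ 1) → (∀ i, n1 * hh σ (a i) ≤ Y) →
      ∃ m1 m2 : ℕ, m1 ≠ m2 ∧ m1.Prime ∧ m2.Prime ∧ N ≤ m1 ∧ m1 ≤ N ^ 2 ∧ N ≤ m2 ∧ m2 ≤ N ^ 2 ∧
        ∀ P ∈ restrictDegree (Fin r) ℚ (n / N ^ 3),
          (aeval (pw a m1) P = 0 ↔ aeval (pw a m2) P = 0) := by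
  classical
  obtain ⟨N0, hN0⟩ := many_primes 1
  refine ⟨N0, ?_⟩
  intro r κ Y K _ _ _ σ a n n1 N hn2 hnN hn1N hn1 hNN0 hBB ha0 haint horb hh1 hhY
  set K0 : ℕ := KK r κ with hK0
  set D : ℕ := 16 * r ^ 2 * (κ + 2 * Y) + 4 * (r * κ + 2) + K0 with hD
  have hBB' : D + 4 * K0 * (r + 1) + 2 ≤ N := hBB
  have hN2 : 2 ≤ N := by omega
  have hNK : 4 * K0 * (r + 1) ≤ N := by omega
  have hND : D ≤ N := by omega
  have hK0pos : 0 < K0 := by rw [hK0, KK]; omega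
  have hlog1 := fin1_one_le hN2
  have hNr : (2 : ℝ) ≤ N := by exact_mod_cast hN2
  have hNpos : (0 : ℝ) < N := by linarith
  have hlogN : 0 < Real.log N := Real.log_pos (by linarith)
  have hnr : (2 : ℝ) ≤ n := by exact_mod_cast hn2
  have hnpos : (0 : ℝ) < n := by linarith
  have hlogn : Real.log n ≤ κ * Real.log N := by
    rw [← Real.log_pow]
    apply Real.log_le_log hnpos
    exact_mod_cast hnN
  have hlogn1 : Real.log n1 ≤ κ * Real.log N := by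
    rw [← Real.log_pow]
    apply Real.log_le_log (by exact_mod_cast hn1)
    exact_mod_cast hn1N
  set A : ℕ := n / N ^ 3 with hA
  set L0 : ℕ := K0 * A with hL0
  set S : ℝ := ∑ i, hh σ (a i) with hS
  have hS0 : 0 ≤ S := Finset.sum_nonneg fun i _ => hh_nonneg σ (a i)
  have hnS : (n : ℝ) * S ≤ r := by
    rw [hS, Finset.mul_sum]
    calc ∑ i, (n : ℝ) * hh σ (a i) ≤ ∑ _i : Fin r, (1 : ℝ) := Finset.sum_le_sum fun i _ => hh1 i
      _ = r := by simp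
  have hAN : A * N ^ 3 ≤ n := Nat.div_mul_le_self _ _
  have hANr : (A : ℝ) * (N : ℝ) ^ 3 ≤ n := by exact_mod_cast hAN
  -- sizes
  have hsize1 : 2 * L0 + 1 ≤ n := by
    have h1 : 4 * K0 ≤ N ^ 3 := by
      calc 4 * K0 ≤ 4 * K0 * (r + 1) := Nat.le_mul_of_pos_right _ (Nat.succ_pos _)
        _ ≤ N := hNK
        _ ≤ N ^ 3 := Nat.le_self_pow (by norm_num) N
    have h2 : 2 * (2 * L0) ≤ n := by
      calc 2 * (2 * L0) = A * (4 * K0) := by rw [hL0]; ring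
        _ ≤ A * N ^ 3 := Nat.mul_le_mul_left _ h1
        _ ≤ n := hAN
    omega
  have hsize2 : ((N ^ 2 : ℕ) : ℝ) * ((2 * L0 : ℕ) : ℝ) * S ≤ 1 := by
    have h1 : ((N ^ 2 : ℕ) : ℝ) * ((2 * L0 : ℕ) : ℝ) * S * N ≤ 1 * N := by
      calc ((N ^ 2 : ℕ) : ℝ) * ((2 * L0 : ℕ) : ℝ) * S * N
          = 2 * K0 * S * ((A : ℝ) * (N : ℝ) ^ 3) := by rw [hL0]; push_cast; ring
        _ ≤ 2 * K0 * S * n := by
            apply mul_le_mul_of_nonneg_left hANr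
            positivity
        _ = 2 * K0 * (n * S) := by ring
        _ ≤ 2 * K0 * r := by
            apply mul_le_mul_of_nonneg_left hnS
            positivity
        _ ≤ 1 * N := by
            have h2 : ((4 * K0 * (r + 1) : ℕ) : ℝ) ≤ N := by exact_mod_cast hNK
            push_cast at h2
            have h3 : (0 : ℝ) ≤ K0 := Nat.cast_nonneg _
            have h4 : (0 : ℝ) ≤ (K0 : ℝ) * r := by positivity
            nlinarith
    exact le_of_mul_le_mul_right h1 hNpos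
  have hL0S : (L0 : ℝ) * S ≤ 1 := by
    refine le_trans ?_ hsize2
    apply mul_le_mul_of_nonneg_right _ hS0
    have h1 : L0 ≤ N ^ 2 * (2 * L0) := by
      calc L0 ≤ 2 * L0 := by omega
        _ ≤ N ^ 2 * (2 * L0) := Nat.le_mul_of_pos_left _ (by positivity)
    exact_mod_cast h1
  have hlogL0 : Real.log ((L0 : ℝ) + 1) ≤ Real.log n := by
    apply Real.log_le_log (by positivity)
    have : L0 + 1 ≤ n := by omega
    exact_mod_cast this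
  -- local data
  let ℓ : ∀ q : Nat.Primes, Loc K q := fun q => Classical.choice (exists_loc K q q.2)
  -- the primes
  set Ψ1 : Finset Nat.Primes := (Finset.Icc N (N ^ 2)).subtype Nat.Prime with hΨ1
  have hΨ1mem : ∀ q : Nat.Primes, q ∈ Ψ1 ↔ N ≤ (q : ℕ) ∧ (q : ℕ) ≤ N ^ 2 := by
    intro q
    rw [hΨ1]
    exact Finset.mem_subtype.trans Finset.mem_Icc
  have hΨ1card : N ≤ Ψ1.card := by
    have h1 : Ψ1.card = ((Finset.Icc N (N ^ 2)).filter Nat.Prime).card :=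
      Finset.card_subtype Nat.Prime _
    rw [h1]
    simpa using hN0 N hNN0
  set G : ℝ := (Fintype.card (K ≃ₐ[ℚ] K) : ℝ) with hG
  set B1 : Finset Nat.Primes := Ψ1.filter fun q => 1 / 4 * G < ((bad (ℓ q) a).card : ℝ) with hB1
  set X : Finset Nat.Primes := (Ψ1.filter fun q => ¬ 1 / 4 * G < ((bad (ℓ q) a).card : ℝ)).filter
    fun q => (Hd ℚ (pw a (q : ℕ)) L0 : ℝ) ≤ 1 / 2 * Hd ℚ a L0 with hX
  have hB1card : (B1.card : ℝ) ≤ 16 * (r : ℝ) ^ 2 * (κ + 2 * Y) := by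
    have h1 := few_bad σ ℓ a haint n1 horb Y hhY (1 / 4) (by norm_num) N hN2 B1 (by
      intro q hq
      rw [hB1, Finset.mem_filter] at hq
      exact ⟨((hΨ1mem q).1 hq.1).1, hq.2⟩)
    have h2 : Real.log n1 + Y ≤ (κ + 2 * Y) * Real.log N := by
      have h0 : (0 : ℝ) ≤ Y := Nat.cast_nonneg _
      nlinarith
    have h3 : (B1.card : ℝ) * Real.log N ≤ 16 * (r : ℝ) ^ 2 * (κ + 2 * Y) * Real.log N := by
      have h4 : 4 * (r : ℝ) ^ 2 * (Real.log n1 + Y) ≤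
          4 * (r : ℝ) ^ 2 * ((κ + 2 * Y) * Real.log N) :=
        mul_le_mul_of_nonneg_left h2 (by positivity)
      nlinarith
    exact le_of_mul_le_mul_right h3 hlogN
  have hXcard : (X.card : ℝ) ≤ 4 * (r * κ + 2) := by
    have h1 := lemmaA σ ℓ a haint L0 X N hN2 (1 / 2) (1 / 4) (by norm_num) (by
      intro q hq
      rw [hX, Finset.mem_filter, Finset.mem_filter] at hq
      exact ⟨((hΨ1mem q).1 hq.1.1).1, not_lt.1 hq.1.2, hq.2⟩)
    have h2 : (r : ℝ) * Real.log (L0 + 1) ≤ r * (κ * Real.log N) :=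
      mul_le_mul_of_nonneg_left (hlogL0.trans hlogn) (Nat.cast_nonneg _)
    have h3 : (X.card : ℝ) * Real.log N ≤ 4 * (r * κ + 2) * Real.log N := by
      have h4 : 4 * ((r : ℝ) * κ + 2) * Real.log N =
        4 * (r * (κ * Real.log N)) + 8 * Real.log N := by ring
      rw [h4]
      nlinarith
    exact le_of_mul_le_mul_right h3 hlogN
  have hBXcard : (B1 ∪ X).card + K0 ≤ Ψ1.card := by
    have h1 : (((B1 ∪ X).card : ℕ) : ℝ) ≤
        ((16 * r ^ 2 * (κ + 2 * Y) + 4 * (r * κ + 2) : ℕ) : ℝ) := by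
      have h2 : (((B1 ∪ X).card : ℕ) : ℝ) ≤ (B1.card : ℝ) + X.card := by
        exact_mod_cast Finset.card_union_le B1 X
      push_cast
      linarith
    have h3 : (B1 ∪ X).card ≤ 16 * r ^ 2 * (κ + 2 * Y) + 4 * (r * κ + 2) := by
      exact_mod_cast h1
    omega
  have hcard2 : K0 ≤ (Ψ1 \ (B1 ∪ X)).card := by
    have := Finset.le_card_sdiff (B1 ∪ X) Ψ1
    omega
  obtain ⟨Ψ, hΨsub, hΨcard⟩ := Finset.exists_subset_card_eq hcard2
  have hΨmem : ∀ q ∈ Ψ, (N ≤ (q : ℕ) ∧ (q : ℕ) ≤ N ^ 2) ∧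
      ((bad (ℓ q) a).card : ℝ) ≤ 1 / 4 * G ∧
      (Hd ℚ a L0 : ℝ) < 2 * (Hd ℚ (pw a (q : ℕ)) L0 : ℝ) := by
    intro q hq
    have h1 := hΨsub hq
    rw [Finset.mem_sdiff, Finset.mem_union, not_or] at h1
    obtain ⟨h2, h3, h4⟩ := h1
    have h5 : ¬ 1 / 4 * G < ((bad (ℓ q) a).card : ℝ) := by
      intro h
      exact h3 (Finset.mem_filter.2 ⟨h2, h⟩)
    have h6 : ¬ (Hd ℚ (pw a (q : ℕ)) L0 : ℝ) ≤ 1 / 2 * Hd ℚ a L0 := by
      intro h
      exact h4 (Finset.mem_filter.2 ⟨Finset.mem_filter.2 ⟨h2, h5⟩, h⟩)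
    refine ⟨(hΨ1mem q).1 h2, not_lt.1 h5, ?_⟩
    rw [not_le] at h6
    linarith
  by_contra hcon
  have hdist : ∀ p ∈ Ψ, ∀ q ∈ Ψ, p ≠ q → ∃ P ∈ restrictDegree (Fin r) ℚ A,
      ¬ (aeval (pw a (p : ℕ)) P = 0 ↔ aeval (pw a (q : ℕ)) P = 0) := by
    intro p hp q hq hpq
    by_contra h
    push Not at h
    refine hcon ⟨p, q, fun h' => hpq (Subtype.ext h'), p.2, q.2, (hΨmem p hp).1.1,
      (hΨmem p hp).1.2, (hΨmem q hq).1.1, (hΨmem q hq).1.2, fun P hP => ?_⟩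
    have := h P hP
    tauto
  have hsep := separators a Ψ A L0 (2 * L0) (by rw [hΨcard, hL0]; omega) hdist
  have hE := lemmaE2 κ σ ℓ a ha0 haint N (N ^ 2) (2 * L0) Ψ hN2 (hsize1.trans hnN)
    (fun q hq => ⟨(hΨmem q hq).1.1, (hΨmem q hq).1.2, (hΨmem q hq).2.1⟩) hsize2
  have hdouble := Hd_two_mul a L0
  have hpos : 0 < Hd ℚ a L0 := Hd_pos a L0
  have h1 : K0 * Hd ℚ a L0 ≤ 2 * ∑ q ∈ Ψ, Hd ℚ (pw a (q : ℕ)) L0 := by
    rw [← hΨcard, Finset.mul_sum, ← smul_eq_mul]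
    refine Finset.card_nsmul_le_sum _ _ _ fun q hq => ?_
    have := (hΨmem q hq).2.2
    have h2 : Hd ℚ a L0 < 2 * Hd ℚ (pw a (q : ℕ)) L0 := by exact_mod_cast this
    exact h2.le
  have h2 : K0 * Hd ℚ a L0 ≤ 2 ^ (r + 1) * CC r κ * Hd ℚ a L0 := by
    calc K0 * Hd ℚ a L0 ≤ 2 * ∑ q ∈ Ψ, Hd ℚ (pw a (q : ℕ)) L0 := h1
      _ ≤ 2 * Jd a Ψ (2 * L0) := Nat.mul_le_mul_left _ hsep
      _ ≤ 2 * (CC r κ * Hd ℚ a (2 * L0)) := Nat.mul_le_mul_left _ hE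
      _ ≤ 2 * (CC r κ * (2 ^ r * Hd ℚ a L0)) :=
          Nat.mul_le_mul_left _ (Nat.mul_le_mul_left _ hdouble)
      _ = 2 ^ (r + 1) * CC r κ * Hd ℚ a L0 := by ring
  have h3 := Nat.le_of_mul_le_mul_right h2 hpos
  rw [hK0, KK] at h3
  omega

end H25.Arith
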