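import Pool.Agent.H61.Geo.GeoHalf
import Pool.Agent.H25.AD.StepTwo

/-!
# A quantitative form of the weak Amoroso-David theorem, with logarithmic losses

`r` multiplicatively independent algebraic integers of degree `n` and Mahler measure at most `exp Y`
generate a field of degree at least `n ^ r / (C Y log n) ^ C`.
-/

open H61.Geo MvPolynomial

namespace H25.Arith

/-- `f` is bounded by a power of `κ Y` -/
def PB (f : ℕ → ℕ → ℕ) : Prop := ∃ C : ℕ, ∀ κ Y : ℕ, 1 ≤ κ → 1 ≤ Y → f κ Y ≤ C * (κ * Y) ^ C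

theorem PB.mk_le {f : ℕ → ℕ → ℕ} (c e : ℕ)
    (h : ∀ κ Y : ℕ, 1 ≤ κ → 1 ≤ Y → f κ Y ≤ c * (κ * Y) ^ e) : PB f := by
  refine ⟨max c e, fun κ Y hκ hY => (h κ Y hκ hY).trans ?_⟩
  have h1 : 1 ≤ κ * Y := Nat.mul_pos hκ hY
  exact Nat.mul_le_mul (le_max_left _ _) (Nat.pow_le_pow_right h1 (le_max_right _ _))

theorem PB.const (c : ℕ) : PB fun _ _ => c :=
  PB.mk_le c 0 fun κ Y _ _ => by simp

theorem PB.fst : PB fun κ _ => κ :=
  PB.mk_le 1 1 fun κ Y _ hY => by simpa using Nat.le_mul_of_pos_right κ hY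

theorem PB.snd : PB fun _ Y => Y :=
  PB.mk_le 1 1 fun κ Y hκ _ => by simpa using Nat.le_mul_of_pos_left Y hκ

theorem PB.add {f g : ℕ → ℕ → ℕ} (hf : PB f) (hg : PB g) : PB fun κ Y => f κ Y + g κ Y := by
  obtain ⟨c, hc⟩ := hf
  obtain ⟨e, he⟩ := hg
  refine PB.mk_le (c + e) (c + e) fun κ Y hκ hY => ?_
  have h1 : 1 ≤ κ * Y := Nat.mul_pos hκ hY
  have h2 : (κ * Y) ^ c ≤ (κ * Y) ^ (c + e) := Nat.pow_le_pow_right h1 (by omega)
  have h3 : (κ * Y) ^ e ≤ (κ * Y) ^ (c + e) := Nat.pow_le_pow_right h1 (by omega)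
  calc f κ Y + g κ Y ≤ c * (κ * Y) ^ c + e * (κ * Y) ^ e := Nat.add_le_add (hc κ Y hκ hY) (he κ Y hκ hY)
    _ ≤ c * (κ * Y) ^ (c + e) + e * (κ * Y) ^ (c + e) :=
        Nat.add_le_add (Nat.mul_le_mul_left _ h2) (Nat.mul_le_mul_left _ h3)
    _ = (c + e) * (κ * Y) ^ (c + e) := by ring

theorem PB.mul {f g : ℕ → ℕ → ℕ} (hf : PB f) (hg : PB g) : PB fun κ Y => f κ Y * g κ Y := by
  obtain ⟨c, hc⟩ := hf
  obtain ⟨e, he⟩ := hg
  refine PB.mk_le (c * e) (c + e) fun κ Y hκ hY => ?_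
  calc f κ Y * g κ Y ≤ (c * (κ * Y) ^ c) * (e * (κ * Y) ^ e) :=
        Nat.mul_le_mul (hc κ Y hκ hY) (he κ Y hκ hY)
    _ = (c * e) * (κ * Y) ^ (c + e) := by ring

theorem PB.pow {f : ℕ → ℕ → ℕ} (hf : PB f) (m : ℕ) : PB fun κ Y => f κ Y ^ m := by
  induction m with
  | zero => simpa using PB.const 1
  | succ m ih => simpa only [pow_succ] using ih.mul hf

theorem PB.CC (r : ℕ) : PB fun κ _ => CC r κ := by
  unfold H25.Arith.CC
  have h1 : PB fun κ _ => 2 * (r * κ + 3) :=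
    (PB.const 2).mul (((PB.const r).mul PB.fst).add (PB.const 3))
  exact (h1.pow r).mul ((PB.const 1).add
    ((((PB.const r).mul PB.fst).add ((((PB.const r).mul h1)).mul PB.fst)).add (PB.const 2)))

theorem PB.KK (r : ℕ) : PB fun κ _ => KK r κ := by
  unfold H25.Arith.KK
  exact ((PB.const _).mul (PB.CC r)).add (PB.const 1)

theorem PB.BB (r : ℕ) : PB fun κ Y => BB r κ Y := by
  unfold H25.Arith.BB
  exact (((((PB.const _).mul (PB.fst.add ((PB.const 2).mul PB.snd))).add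
    ((PB.const 4).mul (((PB.const r).mul PB.fst).add (PB.const 2)))).add (PB.KK r)).add
    (((PB.const 4).mul (PB.KK r)).mul (PB.const _))).add (PB.const 2)

/-- the parameter `N` -/
def NN (r N0 κ Y : ℕ) : ℕ :=
  N0 + BB r κ Y + (6 * r ^ 2 * (κ + 2 * Y) + r + 2) + 2 * ((12 * r) ^ r * (2 ^ r * CC r κ)) ^ 2 + 2 +
    Y + 4 + (r ^ 2 + 2 * κ * r + 1)

theorem PB.NN (r N0 : ℕ) : PB fun κ Y => NN r N0 κ Y := by
  unfold H25.Arith.NN
  exact (((((((PB.const _).add (PB.BB r)).add ((((PB.const _).mul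
    (PB.fst.add ((PB.const 2).mul PB.snd))).add (PB.const r)).add (PB.const 2))).add
    ((PB.const 2).mul (((PB.const _).mul ((PB.const _).mul (PB.CC r))).pow 2))).add
    (PB.const 2)).add PB.snd).add (PB.const 4)).add
    (((PB.const _).add (((PB.const 2).mul PB.fst).mul (PB.const r))).add (PB.const 1))

/-- `X 2^k < 3^k` for `k = log₂ N`, `N > 2 X²` -/
theorem three_pow_gt (X N : ℕ) (hN : 2 * X ^ 2 < N) :
    X * 2 ^ (Nat.log 2 N) < 3 ^ (Nat.log 2 N) := by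
  set k := Nat.log 2 N with hk
  have h1 : N < 2 ^ (k + 1) := Nat.lt_pow_succ_log_self (by norm_num) N
  have h2 : X ^ 2 < 2 ^ k := by
    rw [pow_succ] at h1
    omega
  have h3 : (X * 2 ^ k) ^ 2 < (3 ^ k) ^ 2 := by
    calc (X * 2 ^ k) ^ 2 = X ^ 2 * (2 ^ k) ^ 2 := by ring
      _ < 2 ^ k * (2 ^ k) ^ 2 := Nat.mul_lt_mul_of_pos_right h2 (by positivity)
      _ = 8 ^ k := by
        rw [← pow_succ', ← pow_mul, mul_comm k, pow_mul]
        norm_num
      _ ≤ 9 ^ k := Nat.pow_le_pow_left (by norm_num) k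
      _ = (3 ^ k) ^ 2 := by
        rw [← pow_mul, mul_comm k, pow_mul]
        norm_num
  exact lt_of_pow_lt_pow_left₀ 2 (Nat.zero_le _) h3

/-- integer `r`-th root -/
theorem exists_root (r D : ℕ) (hr : 1 ≤ r) (hD : 1 ≤ D) :
    ∃ a0 : ℕ, 1 ≤ a0 ∧ a0 ^ r ≤ D ∧ D < (a0 + 1) ^ r := by
  have hex : ∃ b : ℕ, D < (b + 1) ^ r := by
    refine ⟨D, ?_⟩
    calc D < D + 1 := Nat.lt_succ_self D
      _ = (D + 1) ^ 1 := (pow_one _).symm
      _ ≤ (D + 1) ^ r := Nat.pow_le_pow_right (Nat.succ_pos D) hr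
  classical
  set a0 := Nat.find hex with ha0
  have h1 : D < (a0 + 1) ^ r := Nat.find_spec hex
  have h2 : 1 ≤ a0 := by
    by_contra h
    have h3 : a0 = 0 := by omega
    rw [h3] at h1
    simp at h1
    omega
  refine ⟨a0, h2, ?_, h1⟩
  have h3 : ¬ D < ((a0 - 1) + 1) ^ r := Nat.find_min hex (by omega)
  rw [Nat.sub_add_cancel h2] at h3
  omega

/-- THEOREM (quantitative weak Amoroso-David theorem, in terms of heights). -/
theorem AD_hh (r : ℕ) (hr : 1 ≤ r) : ∃ C : ℕ, ∀ (K : Type) [Field K] [NumberField K]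
    [IsGalois ℚ K] (σ : K →+* ℂ) (a : Fin r → K) (n Y : ℕ), 2 ≤ n → 1 ≤ Y → (∀ i, a i ≠ 0) →
    (∀ i, IsIntegral ℤ (a i)) → (∀ i, (orb (a i)).card ≤ n) → (∀ i, n * hh σ (a i) ≤ Y) →
    (∀ m : Fin r → ℤ, m ≠ 0 → ∀ k : ℕ, 0 < k → (∏ i, a i ^ m i) ^ k ≠ 1) →
    n ^ r ≤ (C * ((Nat.log 2 n + 1) * Y)) ^ C *
      Module.finrank ℚ (IntermediateField.adjoin ℚ (Set.range a)) := by
  obtain ⟨N1, hN1⟩ := step_one'
  obtain ⟨N2, hN2⟩ := step_two'
  obtain ⟨c, hc⟩ := PB.NN r (N1 + N2)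
  set e : ℕ := r * ((6 * r + 1) * (r + 1) + 10) with he
  refine ⟨(c + 1) * (e + 1), ?_⟩
  intro K _ _ _ σ a n Y hn hY ha0 hai horb hhY hind
  set D : ℕ := Module.finrank ℚ (IntermediateField.adjoin ℚ (Set.range a)) with hD
  have hDpos : 1 ≤ D := by
    rw [hD]; exact Module.finrank_pos
  set κ : ℕ := Nat.log 2 n + 1 with hκ
  have hκ1 : 1 ≤ κ := by omega
  set N : ℕ := NN r (N1 + N2) κ Y with hN
  have hNeq : N = (N1 + N2) + BB r κ Y + (6 * r ^ 2 * (κ + 2 * Y) + r + 2) +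
      2 * ((12 * r) ^ r * (2 ^ r * CC r κ)) ^ 2 + 2 + Y + 4 + (r ^ 2 + 2 * κ * r + 1) := rfl
  have hn2κ : n < 2 ^ κ := Nat.lt_pow_succ_log_self (by norm_num) n
  have hN4 : 4 ≤ N := by omega
  have hnN : n ≤ N ^ κ := (hn2κ.le).trans (Nat.pow_le_pow_left (by omega) κ)
  have hYN : Y ≤ N := by omega
  have hNbound : N ≤ c * (κ * Y) ^ c := hc κ Y hκ1 hY
  -- the key claim
  have key : n ^ r ≤ N ^ e * D := by
    obtain ⟨a0, ha01, ha02, ha03⟩ := exists_root r D hr hDpos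
    by_cases hsz : (4 * (N ^ 6) ^ r) ^ (r + 1) * a0 * N ^ 10 ≤ n
    · exfalso
      by_cases hDn : n ^ r < D
      · -- then `a0` is too large
        have h1 : n ^ r < (a0 + 1) ^ r := hDn.trans ha03
        have h2 : n < a0 + 1 := lt_of_pow_lt_pow_left₀ r (Nat.zero_le _) h1
        have h3 : 1 ≤ (4 * (N ^ 6) ^ r) ^ (r + 1) := Nat.one_le_pow _ _ (by positivity)
        have h4 : 2 ≤ N ^ 10 := by
          calc 2 ≤ N := by omega
            _ ≤ N ^ 10 := Nat.le_self_pow (by norm_num) N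
        have h5 : a0 * 2 ≤ (4 * (N ^ 6) ^ r) ^ (r + 1) * a0 * N ^ 10 :=
          Nat.mul_le_mul (Nat.le_mul_of_pos_left _ h3) h4
        omega
      rw [not_lt] at hDn
      -- the height scale
      set n' : ℕ := n / Y with hn'
      have hsz' : (4 * (N ^ 6) ^ r) ^ (r + 1) * a0 * N ^ 9 ≤ n' := by
        rw [hn', Nat.le_div_iff_mul_le hY]
        calc (4 * (N ^ 6) ^ r) ^ (r + 1) * a0 * N ^ 9 * Y
            ≤ (4 * (N ^ 6) ^ r) ^ (r + 1) * a0 * N ^ 9 * N := Nat.mul_le_mul_left _ hYN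
          _ = (4 * (N ^ 6) ^ r) ^ (r + 1) * a0 * N ^ 10 := by ring
          _ ≤ n := hsz
      have hApos' : 1 ≤ (4 * (N ^ 6) ^ r) ^ (r + 1) * a0 := by
        have h1 : 0 < (4 * (N ^ 6) ^ r) ^ (r + 1) := by positivity
        exact Nat.mul_pos h1 ha01
      have hN9 : 2 ≤ N ^ 9 := by
        calc 2 ≤ N := by omega
          _ ≤ N ^ 9 := Nat.le_self_pow (by norm_num) N
      have hn'2 : 2 ≤ n' := by
        calc 2 ≤ N ^ 9 := hN9
          _ ≤ (4 * (N ^ 6) ^ r) ^ (r + 1) * a0 * N ^ 9 := Nat.le_mul_of_pos_left _ hApos'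
          _ ≤ n' := hsz'
      have hn'n : n' ≤ n := Nat.div_le_self _ _
      have hh1 : ∀ i, (n' : ℝ) * hh σ (a i) ≤ 1 := by
        intro i
        have h1 : (n' : ℝ) * Y ≤ n := by exact_mod_cast Nat.div_mul_le_self n Y
        have h2 : (0 : ℝ) < Y := by exact_mod_cast hY
        have h3 := hh_nonneg σ (a i)
        have h4 : (n' : ℝ) * hh σ (a i) * Y ≤ 1 * Y := by
          calc (n' : ℝ) * hh σ (a i) * Y = (n' * Y) * hh σ (a i) := by ring
            _ ≤ n * hh σ (a i) := mul_le_mul_of_nonneg_right h1 h3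
            _ ≤ Y := hhY i
            _ = 1 * Y := (one_mul _).symm
        exact le_of_mul_le_mul_right h4 h2
      obtain ⟨m1, m2, hne, hp1, hp2, hm1a, hm1b, hm2a, hm2b, hP⟩ :=
        hN1 κ Y σ a n' n N hn'2 (hn'n.trans hnN) hnN (by omega) (by omega) (by omega) ha0 hai
          horb hh1 hhY
      obtain ⟨LL, hLLc, hLLp⟩ :=
        hN2 κ Y σ a n' n N m1 (by omega) (hn'n.trans hnN) hnN (by omega) (by omega) (by omega) ha0
          hai horb hh1 hhY hm1b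
      set A : ℕ → ℕ := fun i => (4 * (N ^ 6) ^ r) ^ i * a0 with hA
      have hA0 : A 0 = a0 := by simp [hA]
      have hsize : A (r + 1) * N ^ 9 ≤ n' := hsz'
      have hN91 : 1 ≤ N ^ 9 := by omega
      have hNpos : 1 ≤ N := by omega
      have hAn : A (r + 1) ≤ n' := (Nat.le_mul_of_pos_right _ hN91).trans hsize
      have hA3 : A (r + 1) ≤ n' / N ^ 3 := by
        rw [Nat.le_div_iff_mul_le (Nat.pos_of_ne_zero (pow_ne_zero _ (by omega)))]
        exact (Nat.mul_le_mul_left _ (Nat.pow_le_pow_right hNpos (by norm_num))).trans hsize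
      have hlow : ∀ l ∈ LL, 2 ^ (Nat.log 2 N + 2) ≤ l := by
        intro l hl
        refine le_trans ?_ (hLLp l hl).2.1
        have h1 : 2 ^ Nat.log 2 N ≤ N := Nat.pow_log_le_self 2 (by omega)
        calc 2 ^ (Nat.log 2 N + 2) = 4 * 2 ^ Nat.log 2 N := by ring
          _ ≤ N * N := Nat.mul_le_mul hN4 h1
          _ ≤ N * N * N := Nat.le_mul_of_pos_right _ (by omega)
          _ = N ^ 3 := by ring
      have hcard : r.factorial * (A (r + 1)) ^ r * D < 2 ^ LL.card := by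
        have h1 : r.factorial ≤ 2 ^ (r ^ 2) := by
          calc r.factorial ≤ r ^ r := Nat.factorial_le_pow r
            _ ≤ (2 ^ r) ^ r := Nat.pow_le_pow_left (Nat.lt_two_pow_self).le r
            _ = 2 ^ (r ^ 2) := by rw [← pow_mul]; ring_nf
        have h2 : (A (r + 1)) ^ r ≤ 2 ^ (κ * r) := by
          rw [pow_mul]
          exact Nat.pow_le_pow_left ((hAn.trans hn'n).trans hn2κ.le) r
        have h3 : D ≤ 2 ^ (κ * r) := by
          refine hDn.trans ?_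
          rw [pow_mul]
          exact Nat.pow_le_pow_left hn2κ.le r
        calc r.factorial * (A (r + 1)) ^ r * D
            ≤ 2 ^ (r ^ 2) * 2 ^ (κ * r) * 2 ^ (κ * r) := Nat.mul_le_mul (Nat.mul_le_mul h1 h2) h3
          _ = 2 ^ (r ^ 2 + 2 * κ * r) := by rw [← pow_add, ← pow_add]; ring_nf
          _ < 2 ^ LL.card := by
            apply Nat.pow_lt_pow_right (by norm_num)
            have h4 : N ≤ N ^ 3 := Nat.le_self_pow (by norm_num) N
            omega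
      obtain ⟨lam, hlam, t, ht, h⟩ := geometryK hr (CC r κ) (Nat.log 2 N)
        (three_pow_gt _ _ (by omega)) K a ha0 m1 m2 hp1.pos hp2.pos hne LL
        (fun l hl => (hLLp l hl).1) hlow A (by rw [hA0]; exact ha03) (by rw [hA0]; exact ha01)
        hApos'
        (by
          intro i _ l hl
          change 4 * l ^ r * ((4 * (N ^ 6) ^ r) ^ i * a0) ≤ (4 * (N ^ 6) ^ r) ^ (i + 1) * a0
          have h1 : 4 * l ^ r ≤ 4 * (N ^ 6) ^ r :=
            Nat.mul_le_mul_left _ (Nat.pow_le_pow_left (hLLp l hl).2.2.1 r)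
          calc 4 * l ^ r * ((4 * (N ^ 6) ^ r) ^ i * a0)
              ≤ 4 * (N ^ 6) ^ r * ((4 * (N ^ 6) ^ r) ^ i * a0) := Nat.mul_le_mul_right _ h1
            _ = (4 * (N ^ 6) ^ r) ^ (i + 1) * a0 := by rw [pow_succ]; ring)
        hcard
        (fun l hl L hL => (hLLp l hl).2.2.2 L ((Nat.mul_le_mul_right _ hL).trans hsize))
        (fun P hP' => hP P (rd_mono hA3 hP'))
      exact hind lam hlam t ht h
    · rw [not_le] at hsz
      have h1 : (4 * (N ^ 6) ^ r) ^ (r + 1) * N ^ 10 ≤ N ^ ((6 * r + 1) * (r + 1) + 10) := by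
        have h0 : 4 * (N ^ 6) ^ r ≤ N ^ (6 * r + 1) := by
          rw [← pow_mul, pow_succ']
          exact Nat.mul_le_mul_right _ hN4
        calc (4 * (N ^ 6) ^ r) ^ (r + 1) * N ^ 10 ≤ (N ^ (6 * r + 1)) ^ (r + 1) * N ^ 10 :=
              Nat.mul_le_mul_right _ (Nat.pow_le_pow_left h0 _)
          _ = N ^ ((6 * r + 1) * (r + 1) + 10) := by rw [← pow_mul, ← pow_add]
      have h2 : n ≤ N ^ ((6 * r + 1) * (r + 1) + 10) * a0 := by
        refine hsz.le.trans ?_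
        calc (4 * (N ^ 6) ^ r) ^ (r + 1) * a0 * N ^ 10
            = (4 * (N ^ 6) ^ r) ^ (r + 1) * N ^ 10 * a0 := by ring
          _ ≤ _ := Nat.mul_le_mul_right _ h1
      calc n ^ r ≤ (N ^ ((6 * r + 1) * (r + 1) + 10) * a0) ^ r := Nat.pow_le_pow_left h2 r
        _ = N ^ e * a0 ^ r := by
          rw [mul_pow, ← pow_mul, he, mul_comm r ((6 * r + 1) * (r + 1) + 10)]
        _ ≤ N ^ e * D := Nat.mul_le_mul_left _ ha02
  refine key.trans (Nat.mul_le_mul_right _ ?_)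
  have hKY : 1 ≤ κ * Y := Nat.mul_pos hκ1 hY
  calc N ^ e ≤ (c * (κ * Y) ^ c) ^ e := Nat.pow_le_pow_left hNbound e
    _ ≤ (((c + 1) * (e + 1) * (κ * Y)) ^ (c + 1)) ^ e := by
        apply Nat.pow_le_pow_left
        have h1 : c ≤ (c + 1) * (e + 1) := by nlinarith
        calc c * (κ * Y) ^ c ≤ ((c + 1) * (e + 1)) * (κ * Y) ^ (c + 1) :=
              Nat.mul_le_mul h1 (Nat.pow_le_pow_right hKY (by omega))
          _ ≤ ((c + 1) * (e + 1)) ^ (c + 1) * (κ * Y) ^ (c + 1) :=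
              Nat.mul_le_mul_right _ (Nat.le_self_pow (by omega) _)
          _ = ((c + 1) * (e + 1) * (κ * Y)) ^ (c + 1) := (mul_pow _ _ _).symm
    _ = ((c + 1) * (e + 1) * (κ * Y)) ^ ((c + 1) * e) := by rw [← pow_mul]
    _ ≤ ((c + 1) * (e + 1) * (κ * Y)) ^ ((c + 1) * (e + 1)) := by
        apply Nat.pow_le_pow_right
        · exact Nat.mul_pos (by positivity) hKY
        · exact Nat.mul_le_mul_left _ (by omega)

end H25.Arith
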