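import Pool.Agent.H25.AD.Wide
import Pool.Agent.H49.St.Final

/-!
# The structure theorem, pure form, for every subgroup covering the stabiliser of the line
-/

set_option autoImplicit false

namespace H25

open Pool.Agent.H49.St

variable {G V : Type*} [Group G] [Finite G] [AddCommGroup V] [Module ℚ V]

/-- The structure theorem, pure form, for every cover. -/
theorem structure_pure_all {ε : ℝ} (hε : 0 < ε) (hε' : ε ≤ 1 / 12) : ∃ n0 : ℕ, 3 ≤ n0 ∧ ∀ (G : Type*) (V : Type*) [Group G] [Finite G]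
    [AddCommGroup V] [Module ℚ V] (ρ : G →* Module.End ℚ V) (a : V), a ≠ 0 → n0 ≤ (stab ρ a).index →
    (∀ s, LinearIndependent ℚ ![a, ρ s a] →
      ((stab ρ a).index : ℝ) ^ (2 - ε) < ((stab ρ a ⊓ stab ρ (ρ s a)).index : ℝ)) →
    (∀ s t u, LinearIndependent ℚ ![a, ρ s a, ρ t a, ρ u a] →
      ((stab ρ a).index : ℝ) ^ (7 / 2 : ℝ) <
        ((stab ρ a ⊓ stab ρ (ρ s a) ⊓ stab ρ (ρ t a) ⊓ stab ρ (ρ u a)).index : ℝ)) →
    ∀ G0 : Subgroup G, lstab ρ a ⋖ G0 → AlmostSimple (G0 ⧸ ((lstab ρ a).subgroupOf G0).normalCore) := by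
  obtain ⟨n0, hn3, hnum⟩ := numerics hε hε' (3 ^ 9 * 2 ^ (3 ^ 9))
  refine ⟨n0, hn3, ?_⟩
  intro G V _ _ _ _ ρ a ha hn H2 H4 G0 hG0
  set n := (stab ρ a).index with hndef
  have hstab2 : n ≤ 2 * (lstab ρ a).index := index_stab_le ρ a
  have hne : lstab ρ a ≠ ⊤ := by
    intro h
    rw [h, Subgroup.index_top] at hstab2
    omega
  have hlt := hG0.lt
  have hG0i : (G0.index : ℝ) < (n : ℝ) ^ ε :=
    intermediate ρ ha H2 (stab_le_lstab.trans hlt.le) (not_le_of_gt hlt)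
  have hG00 : 0 < G0.index := Nat.pos_of_ne_zero Subgroup.index_ne_zero_of_finite
  have hn0 : 0 < n := by omega
  have hnR : (0 : ℝ) < n := by exact_mod_cast hn0
  set ρ0 : G0 →* Module.End ℚ V := ρ.comp G0.subtype with hρ0
  have hst : ∀ v, stab ρ0 v = (stab ρ v).subgroupOf G0 := fun v => by ext g; rfl
  have hlst : lstab ρ0 a = (lstab ρ a).subgroupOf G0 := by ext g; rfl
  have hrel : (lstab ρ0 a).index * G0.index = (lstab ρ a).index := by
    rw [hlst]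
    exact Subgroup.relIndex_mul_index hlt.le
  set b := (lstab ρ0 a).index with hbdef
  have hbn : b ≤ n := by
    have h1 : (lstab ρ a).index ≤ n := by
      have := Subgroup.index_dvd_of_le (stab_le_lstab (ρ := ρ) (x := a))
      exact Nat.le_of_dvd hn0 this
    calc b ≤ b * G0.index := Nat.le_mul_of_pos_right _ hG00
      _ = (lstab ρ a).index := hrel
      _ ≤ n := h1
  have hblow : (n : ℝ) ^ (1 - ε) ≤ 2 * b := by
    have h1 : (n : ℝ) ≤ 2 * b * G0.index := by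
      rw [mul_assoc]
      have : n ≤ 2 * (b * G0.index) := by rw [hrel]; exact hstab2
      exact_mod_cast this
    have h2 : (n : ℝ) ^ (1 - ε) * (n : ℝ) ^ ε = n := by
      rw [← Real.rpow_add hnR]; simp
    have h3 : (n : ℝ) ^ (1 - ε) * (n : ℝ) ^ ε ≤ 2 * b * (n : ℝ) ^ ε := by
      rw [h2]
      refine h1.trans (mul_le_mul_of_nonneg_left hG0i.le (by positivity))
    exact le_of_mul_le_mul_right h3 (Real.rpow_pos_of_pos hnR _)
  obtain ⟨c1, c2, c3, c4, c5⟩ := hnum n b hn hblow hbn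
  have hmax : IsCoatom (lstab ρ0 a) := by
    constructor
    · intro h
      rw [hlst, Subgroup.subgroupOf_eq_top] at h
      exact absurd h (not_le_of_gt hlt)
    · intro K hK
      have h1 : lstab ρ a < K.map G0.subtype := by
        refine lt_of_le_of_ne ?_ ?_
        · intro x hx
          refine ⟨⟨x, hlt.le hx⟩, hK.le ?_, rfl⟩
          rw [hlst]
          exact hx
        · intro h
          apply hK.not_ge
          rw [hlst, h]
          intro x hx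
          exact ⟨x, hx, rfl⟩
      have h2 : K.map G0.subtype ≤ G0 := by
        rintro _ ⟨x, _, rfl⟩
        exact x.2
      have h3 := (hG0.eq_or_eq h1.le h2).resolve_left h1.ne'
      rw [eq_top_iff]
      intro x _
      have : (x : G) ∈ K.map G0.subtype := by rw [h3]; exact x.2
      obtain ⟨y, hy, hyx⟩ := this
      have : y = x := Subtype.ext hyx
      rwa [← this]
  have hidx : ∀ A : Subgroup G, (A.index : ℝ) ≤ ((A.subgroupOf G0).index : ℝ) * G0.index := by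
    intro A
    have h1 : A.index ≤ (A ⊓ G0).index :=
      Nat.le_of_dvd (Nat.pos_of_ne_zero Subgroup.index_ne_zero_of_finite) (Subgroup.index_dvd_of_le inf_le_left)
    have h2 : (A ⊓ G0).relIndex G0 * G0.index = (A ⊓ G0).index := Subgroup.relIndex_mul_index inf_le_right
    rw [Subgroup.inf_relIndex_right] at h2
    have h3 : A.index ≤ (A.subgroupOf G0).index * G0.index := by
      rw [← h2] at h1
      exact h1
    exact_mod_cast h3
  have key := gamma' ρ0 a ha hmax ((n : ℝ) ^ (2 - 2 * ε)) ((n : ℝ) ^ (7 / 2 - ε)) ((n : ℝ) ^ (1 - 4 * ε)) ?_ ?_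
    c1 c2 c3 c4 c5
  · rw [← hlst]
    exact key
  · intro s hs
    have h1 := H2 s hs
    have h2 := hidx (stab ρ a ⊓ stab ρ (ρ s a))
    have h3 : (stab ρ a ⊓ stab ρ (ρ s a)).subgroupOf G0 = stab ρ0 a ⊓ stab ρ0 (ρ0 s a) := by
      ext g; rfl
    rw [h3] at h2
    have h4 : (n : ℝ) ^ (2 - ε) = (n : ℝ) ^ (2 - 2 * ε) * (n : ℝ) ^ ε := by
      rw [← Real.rpow_add hnR]; congr 1; ring
    have h5 : (0 : ℝ) ≤ ((stab ρ0 a ⊓ stab ρ0 (ρ0 s a)).index : ℝ) := by positivity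
    have h6 : (n : ℝ) ^ (2 - 2 * ε) * (n : ℝ) ^ ε < ((stab ρ0 a ⊓ stab ρ0 (ρ0 s a)).index : ℝ) * (n : ℝ) ^ ε := by
      rw [← h4]
      exact lt_of_lt_of_le h1 (h2.trans (mul_le_mul_of_nonneg_left hG0i.le h5))
    exact lt_of_mul_lt_mul_right h6 (by positivity)
  · intro s t u hs
    have h1 := H4 s t u hs
    have h2 := hidx (stab ρ a ⊓ stab ρ (ρ s a) ⊓ stab ρ (ρ t a) ⊓ stab ρ (ρ u a))
    have h3 : (stab ρ a ⊓ stab ρ (ρ s a) ⊓ stab ρ (ρ t a) ⊓ stab ρ (ρ u a)).subgroupOf G0 =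
        stab ρ0 a ⊓ stab ρ0 (ρ0 s a) ⊓ stab ρ0 (ρ0 t a) ⊓ stab ρ0 (ρ0 u a) := by
      ext g; rfl
    rw [h3] at h2
    have h4 : (n : ℝ) ^ (7 / 2 : ℝ) = (n : ℝ) ^ (7 / 2 - ε) * (n : ℝ) ^ ε := by
      rw [← Real.rpow_add hnR]; congr 1; ring
    have h5 : (0 : ℝ) ≤ ((stab ρ0 a ⊓ stab ρ0 (ρ0 s a) ⊓ stab ρ0 (ρ0 t a) ⊓ stab ρ0 (ρ0 u a)).index : ℝ) := by
      positivity
    have h6 : (n : ℝ) ^ (7 / 2 - ε) * (n : ℝ) ^ ε <
        ((stab ρ0 a ⊓ stab ρ0 (ρ0 s a) ⊓ stab ρ0 (ρ0 t a) ⊓ stab ρ0 (ρ0 u a)).index : ℝ) * (n : ℝ) ^ ε := by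
      rw [← h4]
      exact lt_of_lt_of_le h1 (h2.trans (mul_le_mul_of_nonneg_left hG0i.le h5))
    exact lt_of_mul_lt_mul_right h6 (by positivity)


end H25
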