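import Pool.Agent.H25.AD.Wide
import Pool.Agent.H25.AD.PureAll
import Pool.Agent.H49.St.Final

/-!
# The structure theorem for all units, with logarithmic losses
-/

set_option autoImplicit false

namespace H25

open Polynomial IntermediateField Pool.H95.Leh Pool.Agent.H49.St

/-- `W = WW C₀ n Y` satisfies `W ^ 12 < n` or `n` is bounded by a larger `WW C n Y` -/
theorem WW_pow (C0 k : ℕ) (hC : 1 ≤ C0) (hk : 1 ≤ k) {n Y : ℕ} (hY : 1 ≤ Y) :
    (WW C0 n Y) ^ k ≤ WW (k * C0) n Y := by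
  unfold WW
  have h1 : 1 ≤ (Nat.log 2 n + 1) * Y := Nat.mul_pos (Nat.succ_pos _) hY
  calc ((C0 * ((Nat.log 2 n + 1) * Y)) ^ C0) ^ k = (C0 * ((Nat.log 2 n + 1) * Y)) ^ (k * C0) := by
        rw [← pow_mul, mul_comm k]
    _ ≤ (k * C0 * ((Nat.log 2 n + 1) * Y)) ^ (k * C0) := by
        apply Nat.pow_le_pow_left
        rw [mul_assoc]
        exact Nat.le_mul_of_pos_left _ hk

theorem WW_mul (c C0 : ℕ) (hC : 1 ≤ C0) {n Y : ℕ} (hY : 1 ≤ Y) :
    c * WW C0 n Y ≤ WW (C0 + c) n Y := by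
  have h1 : 1 ≤ (Nat.log 2 n + 1) * Y := Nat.mul_pos (Nat.succ_pos _) hY
  rcases Nat.eq_zero_or_pos c with rfl | hc
  · simp
  unfold WW
  calc c * (C0 * ((Nat.log 2 n + 1) * Y)) ^ C0
      ≤ ((C0 + c) * ((Nat.log 2 n + 1) * Y)) ^ c * ((C0 + c) * ((Nat.log 2 n + 1) * Y)) ^ C0 := by
        apply Nat.mul_le_mul
        · calc c ≤ (C0 + c) * ((Nat.log 2 n + 1) * Y) := by nlinarith
            _ ≤ _ := Nat.le_self_pow (by omega) _
        · apply Nat.pow_le_pow_left
          exact Nat.mul_le_mul_right _ (by omega)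
    _ = ((C0 + c) * ((Nat.log 2 n + 1) * Y)) ^ (C0 + c) := by rw [← pow_add, add_comm c C0]

theorem rpow_lt_of_pow (n W : ℕ) (hn : 1 ≤ n) (k m : ℕ) (hW : W ^ k < n) (hk : 1 ≤ k)
    (idx : ℕ) (h : n ^ m ≤ W * idx) (E : ℝ) (hE : E ≤ m - 1 / k) : (n : ℝ) ^ E < idx := by
  have hnR : (1 : ℝ) ≤ n := by exact_mod_cast hn
  have hnpos : (0 : ℝ) < n := by linarith
  have hk0 : (0 : ℝ) < k := by exact_mod_cast hk
  have h1 : (W : ℝ) < (n : ℝ) ^ (1 / k : ℝ) := by
    have h2 : ((W : ℝ)) ^ k < n := by exact_mod_cast hW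
    by_contra hcon
    rw [not_lt] at hcon
    have h3 : ((n : ℝ) ^ (1 / k : ℝ)) ^ k ≤ (W : ℝ) ^ k := pow_le_pow_left₀ (by positivity) hcon k
    rw [← Real.rpow_natCast, ← Real.rpow_mul hnpos.le, one_div_mul_cancel hk0.ne',
      Real.rpow_one] at h3
    linarith
  have h2 : (n : ℝ) ^ m ≤ W * idx := by exact_mod_cast h
  have hidx : (0 : ℝ) < idx := by
    have h3 : (0 : ℝ) < (n : ℝ) ^ m := by positivity
    by_contra hcon
    have h4 : (idx : ℝ) = 0 := le_antisymm (not_lt.1 hcon) (Nat.cast_nonneg _)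
    rw [h4, mul_zero] at h2
    linarith
  have h3 : (n : ℝ) ^ (1 / k : ℝ) * (n : ℝ) ^ E ≤ (n : ℝ) ^ m := by
    rw [← Real.rpow_add hnpos, ← Real.rpow_natCast]
    exact Real.rpow_le_rpow_of_exponent_le hnR (by linarith)
  have h4 : (n : ℝ) ^ (1 / k : ℝ) * (n : ℝ) ^ E < (n : ℝ) ^ (1 / k : ℝ) * idx := by
    calc (n : ℝ) ^ (1 / k : ℝ) * (n : ℝ) ^ E ≤ W * idx := h3.trans h2
      _ < (n : ℝ) ^ (1 / k : ℝ) * idx := mul_lt_mul_of_pos_right h1 hidx
  exact lt_of_mul_lt_mul_left h4 (by positivity)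

/-- The structure theorem for reduced units. -/
theorem structure_red (A : ℕ) : ∃ C : ℕ, 1 ≤ C ∧
    ∀ (K : Type) [Field K] [NumberField K] [IsGalois ℚ K] (β : K) (Y : ℕ),
      IsU β → Red β → ¬ Tors β → 1 ≤ Y → mm β ≤ Real.exp Y →
      Module.finrank ℚ (IntermediateField.adjoin ℚ {β}) ≤
          WW C (Module.finrank ℚ (IntermediateField.adjoin ℚ {β})) Y ∨
      ∃ L : IntermediateField ℚ K, L ≤ IntermediateField.adjoin ℚ {β} ∧
        (∀ g : K ≃ₐ[ℚ] K, g ∈ L.fixingSubgroup ↔ Tors (g β / β) ∨ Tors (g β * β)) ∧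
        Module.finrank ℚ (IntermediateField.adjoin ℚ {β}) ≤ 2 * Module.finrank ℚ L ∧ L ≠ ⊥ ∧
        (∀ M : IntermediateField ℚ K, M ≤ IntermediateField.adjoin ℚ {β} → ¬ L ≤ M →
          Module.finrank ℚ M ≤ WW C (Module.finrank ℚ (IntermediateField.adjoin ℚ {β})) Y) ∧
        ∀ F : IntermediateField ℚ K, F < L →
          (∀ M : IntermediateField ℚ K, F ≤ M → M ≤ L → M = F ∨ M = L) →
          ∀ γ ∈ L, γ ∉ F → AlmostSimple (minpoly F γ).Gal ∧
          Module.finrank ℚ (IntermediateField.adjoin ℚ {β}) ^ A ≤ Nat.card (minpoly F γ).Gal ∧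
          ∀ γ' ∈ (minpoly F γ).rootSet K, γ' ≠ γ →
            Module.finrank ℚ (IntermediateField.adjoin ℚ {β}) ^ 2 ≤
              WW C (Module.finrank ℚ (IntermediateField.adjoin ℚ {β})) Y *
                Module.finrank ℚ (L ⊔ IntermediateField.adjoin ℚ {γ'} : IntermediateField ℚ K) := by
  set r : ℕ := A + 2 with hr
  obtain ⟨n1, hn13, hn1⟩ := structure_pure_all (ε := 1 / 12) (by norm_num) le_rfl
  obtain ⟨C2, hC2, hW2⟩ := wide_of_AD 2 (by norm_num)
  obtain ⟨C4, hC4, hW4⟩ := wide_of_AD 4 (by norm_num)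
  obtain ⟨Cr, hCr, hWr⟩ := wide_of_AD r (by omega)
  set C0 : ℕ := C2 + C4 + Cr with hC0
  have hC01 : 1 ≤ C0 := by omega
  obtain ⟨p3, hp3⟩ : ∃ p : ℕ, p = 3 ^ (r * r) := ⟨_, rfl⟩
  obtain ⟨p2, hp2⟩ : ∃ p : ℕ, p = 2 ^ r := ⟨_, rfl⟩
  set c : ℕ := n1 + p3 + p2 + 4 with hc
  refine ⟨12 * (C0 + c), by omega, ?_⟩
  intro K _ _ _ β Y hβU hβR hβT hY hmm
  set n : ℕ := Module.finrank ℚ (IntermediateField.adjoin ℚ {β}) with hn
  by_cases hnW : n ≤ WW (12 * (C0 + c)) n Y
  · exact Or.inl hnW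
  right
  rw [not_le] at hnW
  -- consequences
  have hWc : (WW (C0 + c) n Y) ^ 12 < n := lt_of_le_of_lt (WW_pow (C0 + c) 12 (by omega) (by norm_num) hY) hnW
  set W := WW C0 n Y with hW
  have hW1 : 1 ≤ W := one_le_WW hC01 hY
  have hcW : c * W ≤ WW (C0 + c) n Y := WW_mul c C0 hC01 hY
  have hWle : W ≤ WW (C0 + c) n Y := WW_mono (by omega) (by omega) hY
  have hWfin : WW (C0 + c) n Y ≤ WW (12 * (C0 + c)) n Y := WW_mono (by omega) (by omega) hY
  have hcn : c * W < n := by
    refine lt_of_le_of_lt hcW (lt_of_le_of_lt ?_ hWc)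
    exact Nat.le_self_pow (by norm_num) _
  have hW12 : W ^ 12 < n := lt_of_le_of_lt (Nat.pow_le_pow_left hWle 12) hWc
  have hcWge : c ≤ c * W := Nat.le_mul_of_pos_right _ hW1
  have hn1n : n1 ≤ n := by omega
  have hn2 : 2 ≤ n := by omega
  have hn1' : 1 ≤ n := by omega
  have hW2n : W ^ 2 < n := lt_of_le_of_lt (Nat.pow_le_pow_right hW1 (by norm_num)) hW12
  have hdeg : (minpoly ℚ β).natDegree = n :=
    (IntermediateField.adjoin.finrank (IsIntegral.of_finite ℚ β)).symm
  have hnpos : (0 : ℝ) < n := by exact_mod_cast hn1'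
  have hn1R : (1 : ℝ) ≤ n := by exact_mod_cast hn1'
  let ι : K →+* ℂ := Classical.arbitrary (K →+* ℂ)
  set a := Lg ι β with ha
  have ha0 : a ≠ 0 := fun h => hβT (tors_of_Lg ι hβU h)
  have hstab : stab (act K) a = (IntermediateField.adjoin ℚ {β}).fixingSubgroup := by
    rw [fixingSubgroup_adjoin_singleton]
    exact stab_Lg ι hβU hβR 1
  have hidx : (stab (act K) a).index = n := by
    rw [stab_index_Lg ι hβU hβR, hdeg]
  have hw2 := hW2 K ι β Y hβU hβR hY hmm (by rw [hdeg]; exact hn2)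
  have hw4 := hW4 K ι β Y hβU hβR hY hmm (by rw [hdeg]; exact hn2)
  have hwr := hWr K ι β Y hβU hβR hY hmm (by rw [hdeg]; exact hn2)
  rw [← ha, hidx] at hw2 hw4 hwr
  have hWW2 : WW C2 n Y ≤ W := WW_mono (by omega) hC01 hY
  have hWW4 : WW C4 n Y ≤ W := WW_mono (by omega) hC01 hY
  have hWWr : WW Cr n Y ≤ W := WW_mono (by omega) hC01 hY
  have H2n : ∀ s, LinearIndependent ℚ ![a, act K s a] →
      (stab (act K) a).index ^ 2 ≤ W * (stab (act K) a ⊓ stab (act K) (act K s a)).index := by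
    intro s hs
    have h1 := hw2 ![a, act K s a] (by
      intro i
      fin_cases i
      · exact ⟨1, by rw [map_one]; rfl⟩
      · exact ⟨s, rfl⟩) hs
    have h2 : (⨅ i, stab (act K) ((![a, act K s a] : Fin 2 → _) i)) = stab (act K) a ⊓ stab (act K) (act K s a) := by
      ext x
      rw [Subgroup.mem_iInf, Subgroup.mem_inf, Fin.forall_fin_two]
      rfl
    rw [h2] at h1
    rw [hidx]
    exact h1.trans (Nat.mul_le_mul_right _ hWW2)
  have H2 : ∀ s, LinearIndependent ℚ ![a, act K s a] →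
      ((stab (act K) a).index : ℝ) ^ ((2 : ℝ) - 1 / 12) < ((stab (act K) a ⊓ stab (act K) (act K s a)).index : ℝ) := by
    intro s hs
    rw [hidx]
    exact rpow_lt_of_pow n W hn1' 12 2 hW12 (by norm_num) _ (by have := H2n s hs; rwa [hidx] at this)
      _ (by norm_num)
  have H4 : ∀ s t u, LinearIndependent ℚ ![a, act K s a, act K t a, act K u a] →
      ((stab (act K) a).index : ℝ) ^ (7 / 2 : ℝ) <
        ((stab (act K) a ⊓ stab (act K) (act K s a) ⊓ stab (act K) (act K t a) ⊓ stab (act K) (act K u a)).index : ℝ) := by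
    intro s t u hs
    have h1 := hw4 ![a, act K s a, act K t a, act K u a] (by
      intro i
      fin_cases i
      · exact ⟨1, by rw [map_one]; rfl⟩
      · exact ⟨s, rfl⟩
      · exact ⟨t, rfl⟩
      · exact ⟨u, rfl⟩) hs
    have h2 : (⨅ i, stab (act K) ((![a, act K s a, act K t a, act K u a] : Fin 4 → _) i)) =
        stab (act K) a ⊓ stab (act K) (act K s a) ⊓ stab (act K) (act K t a) ⊓ stab (act K) (act K u a) := by
      ext x
      rw [Subgroup.mem_iInf, Subgroup.mem_inf, Subgroup.mem_inf, Subgroup.mem_inf]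
      constructor
      · intro h
        exact ⟨⟨⟨h 0, h 1⟩, h 2⟩, h 3⟩
      · rintro ⟨⟨⟨h0, h1⟩, h2⟩, h3⟩ i
        fin_cases i
        · exact h0
        · exact h1
        · exact h2
        · exact h3
    rw [h2] at h1
    rw [hidx]
    exact rpow_lt_of_pow n W hn1' 2 4 hW2n (by norm_num) _ (h1.trans (Nat.mul_le_mul_right _ hWW4))
      _ (by norm_num)
  have hASall := hn1 (K ≃ₐ[ℚ] K) ((K ≃ₐ[ℚ] K) → ℝ) (act K) a ha0 (by rw [hidx]; exact hn1n) H2 H4
  have hJ : ∀ J : Subgroup (K ≃ₐ[ℚ] K), stab (act K) a ≤ J → ¬ J ≤ lstab (act K) a → J.index ≤ W :=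
    fun J h1 h2 => intermediate' (act K) ha0 H2n h1 h2
  set H := lstab (act K) a with hH
  have hLfix : (fixedField H).fixingSubgroup = H := fixingSubgroup_fixedField H
  have hβfix : fixedField (IntermediateField.adjoin ℚ {β}).fixingSubgroup = IntermediateField.adjoin ℚ {β} :=
    IsGalois.fixedField_fixingSubgroup _
  have hanti : ∀ {A B : Subgroup (K ≃ₐ[ℚ] K)}, A ≤ B → fixedField B ≤ fixedField A := by
    intro A B hAB x hx σ
    exact hx ⟨σ, hAB σ.2⟩
  have hanti' : ∀ {A B : IntermediateField ℚ K}, A ≤ B → B.fixingSubgroup ≤ A.fixingSubgroup := by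
    intro A B hAB σ hσ
    rw [IntermediateField.mem_fixingSubgroup_iff] at hσ ⊢
    exact fun x hx => hσ x (hAB hx)
  refine ⟨fixedField H, ?_, fun g => by rw [hLfix, hH, mem_lstab, ha, Lg_act,
    Lg_eq_iff ι (hβU.map g) hβU, Lg_eq_neg_iff ι (hβU.map g) hβU], ?_, ?_, ?_, ?_⟩
  · rw [← hβfix, ← hstab]
    exact hanti stab_le_lstab
  · rw [finrank_fixedField_eq, ← hidx]
    exact index_stab_le (act K) a
  · intro h
    have h1 : H.index = 1 := by
      rw [← finrank_fixedField_eq, h]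
      exact IntermediateField.finrank_bot
    have h2 : n ≤ 2 * H.index := by
      rw [← hidx]
      exact index_stab_le (act K) a
    omega
  · intro M hM hLM
    have h1 : stab (act K) a ≤ M.fixingSubgroup := by
      rw [hstab]
      exact hanti' hM
    have h2 : ¬ M.fixingSubgroup ≤ H := by
      intro h
      apply hLM
      have := hanti h
      rwa [IsGalois.fixedField_fixingSubgroup] at this
    have h3 := hJ M.fixingSubgroup h1 h2
    rw [finrank_eq_fixingSubgroup_index]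
    exact (h3.trans hWle).trans hWfin
  · intro F hFL hFmax
    obtain ⟨G0, hG0⟩ : ∃ G0 : Subgroup (K ≃ₐ[ℚ] K), G0 = F.fixingSubgroup := ⟨_, rfl⟩
    have hFG : F = fixedField G0 := by rw [hG0, IsGalois.fixedField_fixingSubgroup]
    subst hFG
    have hFfix : (fixedField G0).fixingSubgroup = G0 := hG0.symm
    have hcov : H ⋖ G0 := by
      constructor
      · refine lt_of_le_of_ne ?_ ?_
        · have := hanti' hFL.le
          rwa [hLfix, hFfix] at this
        · intro h
          rw [h] at hFL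
          exact lt_irrefl _ hFL
      · intro J hHJ hJG
        rcases hFmax (fixedField J) (hanti hJG.le) (hanti hHJ.le) with h | h
        · have h1 := congrArg IntermediateField.fixingSubgroup h
          rw [fixingSubgroup_fixedField, hFfix] at h1
          exact hJG.ne h1
        · have h1 := congrArg IntermediateField.fixingSubgroup h
          rw [fixingSubgroup_fixedField, hLfix] at h1
          exact hHJ.ne h1.symm
    have hG0i : G0.index ≤ W := hJ G0 (stab_le_lstab.trans hcov.le) (not_le_of_gt hcov.lt)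
    have hAS := hASall G0 hcov
    intro γ hγL hγF
    obtain ⟨⟨e⟩, hmemH, hroots⟩ := gal_equiv H G0 hcov γ hγL hγF
    refine ⟨hAS.congr e, ?_, ?_⟩
    · -- order
      have hcard : Nat.card (minpoly (fixedField G0) γ).Gal = Nat.card (G0 ⧸ (H.subgroupOf G0).normalCore) :=
        (Nat.card_congr e.toEquiv).symm
      rw [hcard]
      have h1 := order_pure (act K) a G0 hcov.le r ((r : ℝ) - 1 / 2) (by
        intro g hg
        have h3 := hwr (fun i => act K (g i) a) (fun i => ⟨g i, rfl⟩) hg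
        rw [hidx]
        exact rpow_lt_of_pow n W hn1' 2 r hW2n (by norm_num) _ (h3.trans (Nat.mul_le_mul_right _ hWWr))
          _ (by push_cast; linarith))
      rw [hidx] at h1
      rcases h1 with h1 | h1
      · exfalso
        have h2 : 3 ^ (r * r) * G0.index ≤ 3 ^ (r * r) * W := Nat.mul_le_mul_left _ hG0i
        have h3 : 3 ^ (r * r) * W ≤ c * W := Nat.mul_le_mul_right _ (by rw [← hp3]; omega)
        omega
      · set P : ℕ := Nat.card (G0 ⧸ (H.subgroupOf G0).normalCore) with hP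
        by_contra hcon
        rw [not_le] at hcon
        have h2 : 2 ^ r * G0.index ≤ n := by
          calc 2 ^ r * G0.index ≤ 2 ^ r * W := Nat.mul_le_mul_left _ hG0i
            _ ≤ c * W := Nat.mul_le_mul_right _ (by rw [← hp2]; omega)
            _ ≤ n := hcn.le
        have h3 : 2 ^ r * P * G0.index ≤ n ^ A * n := by
          calc 2 ^ r * P * G0.index = P * (2 ^ r * G0.index) := by ring
            _ ≤ n ^ A * n := Nat.mul_le_mul hcon.le h2
        have h4 : (n : ℝ) ^ ((r : ℝ) - 1 / 2) < (n : ℝ) ^ ((A : ℝ) + 1) := by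
          calc (n : ℝ) ^ ((r : ℝ) - 1 / 2) < 2 ^ r * (P : ℝ) * G0.index := h1
            _ ≤ (n : ℝ) ^ A * n := by exact_mod_cast h3
            _ = (n : ℝ) ^ ((A : ℝ) + 1) := by
              rw [Real.rpow_add hnpos, Real.rpow_one, Real.rpow_natCast]
        have h5 : (n : ℝ) ^ ((A : ℝ) + 1) ≤ (n : ℝ) ^ ((r : ℝ) - 1 / 2) := by
          apply Real.rpow_le_rpow_of_exponent_le hn1R
          rw [hr]
          push_cast
          linarith
        linarith
    · -- subdegrees
      intro γ' hγ' hne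
      obtain ⟨g, hg, rfl⟩ := (hroots γ').mp hγ'
      have hgH : g ∉ H := fun h => hne ((hmemH g hg).mp h)
      have h1 : n ^ 2 ≤ W * (4 * (H ⊓ cj g H).index) := by
        have h2 := H2n g (li_pair (act K) ha0 hgH)
        rw [hidx] at h2
        exact h2.trans (Nat.mul_le_mul_left _ (index_pair_le (act K) a g))
      have h2 : (fixedField H ⊔ IntermediateField.adjoin ℚ {g γ}).fixingSubgroup ≤ H ⊓ cj g H := by
        rw [IntermediateField.fixingSubgroup_sup, hLfix, fixingSubgroup_adjoin_singleton]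
        rintro σ ⟨h3, h4⟩
        refine ⟨h3, ?_⟩
        change σ ∈ cj g H
        rw [mem_cj]
        have h5 : σ (g γ) = g γ := h4
        have h6 : g⁻¹ * σ * g ∈ G0 := G0.mul_mem (G0.mul_mem (G0.inv_mem hg) (hcov.le h3)) hg
        rw [hmemH _ h6]
        change g⁻¹ (σ (g γ)) = γ
        rw [h5]
        change (g⁻¹ * g) γ = γ
        rw [inv_mul_cancel]
        rfl
      have h7 : (H ⊓ cj g H).index ≤ (fixedField H ⊔ IntermediateField.adjoin ℚ {g γ}).fixingSubgroup.index :=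
        Nat.le_of_dvd (Nat.pos_of_ne_zero Subgroup.index_ne_zero_of_finite) (Subgroup.index_dvd_of_le h2)
      have h8 : Module.finrank ℚ (fixedField H ⊔ IntermediateField.adjoin ℚ {g γ} : IntermediateField ℚ K) =
          (fixedField H ⊔ IntermediateField.adjoin ℚ {g γ}).fixingSubgroup.index :=
        finrank_eq_fixingSubgroup_index _ _
      rw [h8]
      calc n ^ 2 ≤ W * (4 * (H ⊓ cj g H).index) := h1
        _ = (4 * W) * (H ⊓ cj g H).index := by ring
        _ ≤ (c * W) * (fixedField H ⊔ IntermediateField.adjoin ℚ {g γ}).fixingSubgroup.index :=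
            Nat.mul_le_mul (Nat.mul_le_mul_right _ (by omega)) h7
        _ ≤ _ := Nat.mul_le_mul_right _ (hcW.trans hWfin)

end H25
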