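import Pool.Agent.H25.AD.SolvRed
import Pool.Agent.H95.Leh.FFin

/-!
# The solvable theorem, quantitative form
-/

set_option autoImplicit false

namespace H25

open Polynomial IntermediateField Pool.H95.Leh Pool.Agent.H49.St

/-- the numerical consequence of `n ≤ WW C n Y` -/
theorem rpow_le_of_WW (C : ℕ) (hC : 1 ≤ C) : ∃ κ : ℝ, 0 < κ ∧ ∀ n Y : ℕ, 1 ≤ n → n ≤ WW C n Y →
    (n : ℝ) ^ (1 / (2 * (C : ℝ))) ≤ κ * Y := by
  have hC0 : (0 : ℝ) < C := by exact_mod_cast hC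
  set ε : ℝ := 1 / (2 * (C : ℝ)) with hε
  have hε0 : 0 < ε := by positivity
  have hlog2 : 0 < Real.log 2 := Real.log_pos (by norm_num)
  refine ⟨C * (1 / (ε * Real.log 2) + 1), by positivity, ?_⟩
  intro n Y hn h
  have hn0 : (0 : ℝ) < n := by exact_mod_cast hn
  have hn1 : (1 : ℝ) ≤ n := by exact_mod_cast hn
  have hlog : ((Nat.log 2 n + 1 : ℕ) : ℝ) ≤ (1 / (ε * Real.log 2) + 1) * (n : ℝ) ^ ε := by
    have h1 : (Nat.log 2 n : ℝ) ≤ Real.log n / Real.log 2 := by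
      rw [le_div_iff₀ hlog2, ← Real.log_pow]
      apply Real.log_le_log (by positivity)
      have : 2 ^ Nat.log 2 n ≤ n := Nat.pow_log_le_self 2 (by omega)
      exact_mod_cast this
    have h2 : Real.log n ≤ (n : ℝ) ^ ε / ε := Real.log_le_rpow_div hn0.le hε0
    have h3 : Real.log n / Real.log 2 ≤ (n : ℝ) ^ ε / ε / Real.log 2 := by
      exact div_le_div_of_nonneg_right h2 hlog2.le
    have h4 : (1 : ℝ) ≤ (n : ℝ) ^ ε := Real.one_le_rpow hn1 hε0.le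
    push_cast
    calc (Nat.log 2 n : ℝ) + 1 ≤ (n : ℝ) ^ ε / ε / Real.log 2 + (n : ℝ) ^ ε := by linarith
      _ = (1 / (ε * Real.log 2) + 1) * (n : ℝ) ^ ε := by field_simp
  have h5 : (n : ℝ) ≤ ((C : ℝ) * (((Nat.log 2 n + 1 : ℕ) : ℝ) * Y)) ^ C := by
    unfold WW at h
    exact_mod_cast h
  have h6 : (n : ℝ) ^ (2 * ε) ≤ (C : ℝ) * (((Nat.log 2 n + 1 : ℕ) : ℝ) * Y) := by
    have h7 : (n : ℝ) ^ (2 * ε) ≤ (((C : ℝ) * (((Nat.log 2 n + 1 : ℕ) : ℝ) * Y)) ^ C) ^ (2 * ε) :=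
      Real.rpow_le_rpow hn0.le h5 (by positivity)
    refine h7.trans (le_of_eq ?_)
    rw [← Real.rpow_natCast, ← Real.rpow_mul (by positivity)]
    have h8 : (C : ℝ) * (2 * ε) = 1 := by
      rw [hε]
      field_simp
    rw [h8, Real.rpow_one]
  have h9 : (n : ℝ) ^ ε * (n : ℝ) ^ ε ≤ (n : ℝ) ^ ε * (C * (1 / (ε * Real.log 2) + 1) * Y) := by
    rw [← Real.rpow_add hn0, ← two_mul]
    refine h6.trans ?_
    have hY0 : (0 : ℝ) ≤ Y := Nat.cast_nonneg _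
    calc (C : ℝ) * (((Nat.log 2 n + 1 : ℕ) : ℝ) * Y)
        ≤ C * (((1 / (ε * Real.log 2) + 1) * (n : ℝ) ^ ε) * Y) := by
          apply mul_le_mul_of_nonneg_left _ hC0.le
          exact mul_le_mul_of_nonneg_right hlog hY0
      _ = _ := by ring
  exact le_of_mul_le_mul_left h9 (Real.rpow_pos_of_pos hn0 _)

/-- the quantitative bound in terms of the Mahler measure -/
theorem log_mm_of_WW (C : ℕ) (hC : 1 ≤ C) : ∃ c : ℝ, 0 < c ∧ ∀ (K : Type) [Field K] [NumberField K] [IsGalois ℚ K]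
    (β : K), IsU β → 1 < mm β →
      (∀ Y : ℕ, 1 ≤ Y → mm β ≤ Real.exp Y → (minpoly ℚ β).natDegree ≤ WW C (minpoly ℚ β).natDegree Y) →
      c * ((minpoly ℚ β).natDegree : ℝ) ^ (1 / (2 * (C : ℝ))) ≤ Real.log (mm β) := by
  obtain ⟨κ, hκ, hnum⟩ := rpow_le_of_WW C hC
  set δ : ℝ := 1 / (2 * (C : ℝ)) with hδ
  have hC0 : (0 : ℝ) < C := by exact_mod_cast hC
  have hδ0 : 0 < δ := by positivity
  obtain ⟨c0, hc0, hnorth⟩ := northcott ⌈κ ^ (1 / δ)⌉₊
  have hlc0 : 0 < Real.log c0 := Real.log_pos hc0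
  refine ⟨min (1 / (2 * κ)) (Real.log c0 / κ), lt_min (by positivity) (by positivity), ?_⟩
  intro K _ _ _ β hβ h1 hall
  set n := (minpoly ℚ β).natDegree with hn
  have hn0 : 1 ≤ n := minpoly.natDegree_pos (IsIntegral.of_finite ℚ β)
  have hnpos : (0 : ℝ) < n := by exact_mod_cast hn0
  have hmpos : 0 < mm β := by linarith
  have hlm : 0 < Real.log (mm β) := Real.log_pos h1
  have hpow : 0 ≤ (n : ℝ) ^ δ := by positivity
  by_cases hlog : 1 ≤ Real.log (mm β)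
  · have h2 := hall ⌈Real.log (mm β)⌉₊ (Nat.one_le_ceil_iff.2 (by linarith)) (by
      rw [← Real.log_le_iff_le_exp hmpos]
      exact Nat.le_ceil _)
    have h3 := hnum n _ hn0 h2
    have h4 : ((⌈Real.log (mm β)⌉₊ : ℕ) : ℝ) ≤ 2 * Real.log (mm β) := by
      have := Nat.ceil_lt_add_one hlm.le
      linarith
    have h5 : (n : ℝ) ^ δ ≤ 2 * κ * Real.log (mm β) := by
      calc (n : ℝ) ^ δ ≤ κ * (⌈Real.log (mm β)⌉₊ : ℕ) := h3
        _ ≤ κ * (2 * Real.log (mm β)) := mul_le_mul_of_nonneg_left h4 hκ.le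
        _ = _ := by ring
    calc min (1 / (2 * κ)) (Real.log c0 / κ) * (n : ℝ) ^ δ ≤ (1 / (2 * κ)) * (n : ℝ) ^ δ :=
          mul_le_mul_of_nonneg_right (min_le_left _ _) hpow
      _ ≤ (1 / (2 * κ)) * (2 * κ * Real.log (mm β)) := mul_le_mul_of_nonneg_left h5 (by positivity)
      _ = Real.log (mm β) := by field_simp
  · push Not at hlog
    have h2 := hall 1 le_rfl (by
      rw [← Real.log_le_iff_le_exp hmpos]
      push_cast
      exact hlog.le)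
    have h3 := hnum n _ hn0 h2
    rw [Nat.cast_one, mul_one] at h3
    have h4 : (n : ℝ) ≤ κ ^ (1 / δ) := by
      have h5 : ((n : ℝ) ^ δ) ^ (1 / δ) ≤ κ ^ (1 / δ) := Real.rpow_le_rpow hpow h3 (by positivity)
      rwa [← Real.rpow_mul hnpos.le, mul_one_div_cancel hδ0.ne', Real.rpow_one] at h5
    have h5 : (minpoly ℤ β).natDegree ≤ ⌈κ ^ (1 / δ)⌉₊ := by
      rw [natDegree_minpoly_int β hβ.int]
      have : (n : ℝ) ≤ ⌈κ ^ (1 / δ)⌉₊ := h4.trans (Nat.le_ceil _)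
      exact_mod_cast this
    have h6 : c0 ≤ mm β := hnorth (minpoly ℤ β) h5 h1
    have h7 : Real.log c0 ≤ Real.log (mm β) := Real.log_le_log (by linarith) h6
    calc min (1 / (2 * κ)) (Real.log c0 / κ) * (n : ℝ) ^ δ ≤ (Real.log c0 / κ) * (n : ℝ) ^ δ :=
          mul_le_mul_of_nonneg_right (min_le_right _ _) hpow
      _ ≤ (Real.log c0 / κ) * κ := mul_le_mul_of_nonneg_left h3 (by positivity)
      _ = Real.log c0 := by field_simp
      _ ≤ _ := h7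

end H25
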