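import Pool.Agent.H25.AD.SPlus

/-!
# Reduced units moved by a solvable normal subgroup
-/

set_option autoImplicit false

namespace H25

open Polynomial IntermediateField Pool.H95.Leh Pool.Agent.H49.St

/-- a solvable normal subgroup of an almost simple group is trivial -/
theorem AlmostSimple.eq_bot {P : Type*} [Group P] (hP : AlmostSimple P) (M : Subgroup P) [hM : M.Normal]
    (hs : Group.IsSolvable M) : M = ⊥ := by
  obtain ⟨T, hT, hTs, ⟨x, hx, y, hy, hxy⟩, hc⟩ := hP
  have h1 : (M.subgroupOf T).Normal := inferInstance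
  rcases hTs.eq_bot_or_eq_top_of_normal (M.subgroupOf T) h1 with h | h
  · -- disjoint
    rw [Subgroup.subgroupOf_eq_bot] at h
    rw [eq_bot_iff, ← hc]
    intro m hm
    rw [Subgroup.mem_centralizer_iff]
    intro t ht
    have hcomm : t * m * t⁻¹ * m⁻¹ ∈ M ⊓ T := by
      constructor
      · exact M.mul_mem (hM.conj_mem m hm t) (M.inv_mem hm)
      · have h2 : t * m * t⁻¹ * m⁻¹ = t * (m * t⁻¹ * m⁻¹) := by group
        rw [h2]
        exact T.mul_mem ht (hT.conj_mem _ (T.inv_mem ht) m)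
    rw [h.eq_bot] at hcomm
    have h3 : t * m * t⁻¹ * m⁻¹ = 1 := hcomm
    calc t * m = (t * m * t⁻¹ * m⁻¹) * (m * t) := by group
      _ = m * t := by rw [h3, one_mul]
  · exfalso
    rw [Subgroup.subgroupOf_eq_top] at h
    have h2 : Group.IsSolvable T := Group.isSolvable_of_isSolvable_injective (f := Subgroup.inclusion h)
      (Subgroup.inclusion_injective h)
    have h3 := hTs
    have h4 : ∀ a b : T, a * b = b * a := by
      exact (IsSimpleGroup.comm_iff_isSolvable (G := T)).mpr h2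
    exact hxy (congrArg Subtype.val (h4 ⟨x, hx⟩ ⟨y, hy⟩))

theorem solvable_red : ∃ C : ℕ, 1 ≤ C ∧
    ∀ (K : Type) [Field K] [NumberField K] [IsGalois ℚ K] (β : K) (Y : ℕ),
      IsU β → Red β → 1 ≤ Y → mm β ≤ Real.exp Y →
      ∀ N : Subgroup (K ≃ₐ[ℚ] K), N.Normal → Group.IsSolvable N →
      (∃ s ∈ N, ¬ Tors (s β / β) ∧ ¬ Tors (s β * β)) →
      Module.finrank ℚ (IntermediateField.adjoin ℚ {β}) ≤
          WW C (Module.finrank ℚ (IntermediateField.adjoin ℚ {β})) Y := by
  obtain ⟨C, hC, hmain⟩ := structure_red 0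
  refine ⟨C, hC, ?_⟩
  intro K _ _ _ β Y hβU hβR hY hmm N hN hNs hs
  obtain ⟨s, hsN, hs1, hs2⟩ := hs
  have hβT : ¬ Tors β := by
    rintro h
    exact hs1 (RedAux.torsDiv (h.map s) h)
  rcases hmain K β Y hβU hβR hβT hY hmm with h | ⟨L, hLβ, hLg, -, -, -, hL⟩
  · exact h
  exfalso
  set H := L.fixingSubgroup with hH
  have hsH : s ∉ H := by
    rw [hLg]
    rintro (h | h)
    · exact hs1 h
    · exact hs2 h
  have hlt : H < N ⊔ H := by
    refine lt_of_le_of_ne le_sup_right ?_
    intro h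
    apply hsH
    rw [h]
    exact (le_sup_left : N ≤ N ⊔ H) hsN
  obtain ⟨G0, hcov, hG0⟩ := exists_covBy_le_of_lt hlt
  have hLfix : fixedField H = L := IsGalois.fixedField_fixingSubgroup L
  have hanti : ∀ {A B : Subgroup (K ≃ₐ[ℚ] K)}, A ≤ B → fixedField B ≤ fixedField A := by
    intro A B hAB x hx σ
    exact hx ⟨σ, hAB σ.2⟩
  have hanti' : ∀ {A B : IntermediateField ℚ K}, A ≤ B → B.fixingSubgroup ≤ A.fixingSubgroup := by
    intro A B hAB σ hσ
    rw [IntermediateField.mem_fixingSubgroup_iff] at hσ ⊢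
    exact fun x hx => hσ x (hAB hx)
  have hFL : fixedField G0 < L := by
    refine lt_of_le_of_ne ?_ ?_
    · rw [← hLfix]
      exact hanti hcov.le
    · intro h
      have h1 := congrArg IntermediateField.fixingSubgroup h
      rw [fixingSubgroup_fixedField] at h1
      exact hcov.lt.ne h1.symm
  obtain ⟨γ, hγL, hγF⟩ := SetLike.exists_of_lt hFL
  have hAS := (hL (fixedField G0) hFL (by
    intro M hFM hML
    have h1 : H ≤ M.fixingSubgroup := hanti' hML
    have h2 : M.fixingSubgroup ≤ G0 := by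
      have := hanti' hFM
      rwa [fixingSubgroup_fixedField] at this
    rcases hcov.eq_or_eq h1 h2 with h | h
    · right
      rw [← hLfix, ← h, IsGalois.fixedField_fixingSubgroup]
    · left
      rw [← h, IsGalois.fixedField_fixingSubgroup]) γ hγL hγF).1
  obtain ⟨⟨e⟩, -, -⟩ := gal_equiv H G0 hcov γ (by rw [hLfix]; exact hγL) hγF
  have hAS' := hAS.congr e.symm
  set Q := (H.subgroupOf G0).normalCore with hQ
  -- the image of N ∩ G0
  have hNn : (N.subgroupOf G0).Normal := inferInstance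
  have hM : ((N.subgroupOf G0).map (QuotientGroup.mk' Q)).Normal :=
    hNn.map _ (QuotientGroup.mk'_surjective Q)
  have hsol : Group.IsSolvable ((N.subgroupOf G0).map (QuotientGroup.mk' Q)) := by
    have h1 : Group.IsSolvable (N.subgroupOf G0) := by
      let f : N.subgroupOf G0 →* N :=
        { toFun := fun x => ⟨((x : G0) : K ≃ₐ[ℚ] K), x.2⟩
          map_one' := rfl
          map_mul' := fun _ _ => rfl }
      exact Group.isSolvable_of_isSolvable_injective (f := f) (by
        intro x y hxy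
        have h2 : (((x : G0) : K ≃ₐ[ℚ] K)) = ((y : G0) : K ≃ₐ[ℚ] K) :=
          congrArg (fun z : N => (z : K ≃ₐ[ℚ] K)) hxy
        exact Subtype.ext (Subtype.ext h2))
    exact Group.isSolvable_of_surjective
      (MonoidHom.subgroupMap_surjective (QuotientGroup.mk' Q) (N.subgroupOf G0))
  have hbot := AlmostSimple.eq_bot hAS' _ hsol
  have hNQ : N.subgroupOf G0 ≤ Q := by
    rw [Subgroup.map_eq_bot_iff, QuotientGroup.ker_mk'] at hbot
    exact hbot
  have hQH : Q ≤ H.subgroupOf G0 := Subgroup.normalCore_le _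
  apply hcov.lt.not_ge
  intro g hg
  have h1 : g ∈ N ⊔ H := hG0 hg
  obtain ⟨m, hm, h, hh, rfl⟩ := Subgroup.mem_sup_of_normal_left.mp h1
  have hmG : m ∈ G0 := by
    have : m = m * h * h⁻¹ := by group
    rw [this]
    exact G0.mul_mem hg (G0.inv_mem (hcov.le hh))
  have h2 : (⟨m, hmG⟩ : G0) ∈ N.subgroupOf G0 := hm
  have h3 := hQH (hNQ h2)
  exact H.mul_mem h3 hh

end H25
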