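import Pool.Agent.H25.AD.SolvFin

/-!
# The structure theorem: numerics for the final form
-/

set_option autoImplicit false

namespace H25

open Polynomial IntermediateField Pool.H95.Leh Pool.Agent.H49.St

/-- the loss factor as a real number -/
noncomputable def ZZ (C : ℕ) (n : ℕ) (M : ℝ) : ℝ :=
  ((C : ℝ) * Real.log ((n : ℝ) + 2) * max 1 (Real.log M)) ^ C

theorem WW_le_ZZ (C0 : ℕ) (hC0 : 1 ≤ C0) (n : ℕ) (hn : 1 ≤ n) (M : ℝ) :
    (WW C0 n ⌈max 1 (Real.log M)⌉₊ : ℝ) ≤ ZZ (6 * C0) n M := by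
  unfold WW ZZ
  have hn1 : (1 : ℝ) ≤ n := by exact_mod_cast hn
  have hn0 : (0 : ℝ) < n := by linarith
  have hlog2 : 0 < Real.log 2 := Real.log_pos (by norm_num)
  have hl2 : (2 : ℝ) / 3 ≤ Real.log 2 := by
    have := Real.log_two_gt_d9
    linarith
  set m := max 1 (Real.log M) with hm
  have hm1 : 1 ≤ m := le_max_left _ _
  have hC : (1 : ℝ) ≤ C0 := by exact_mod_cast hC0
  have h3 : (1 : ℝ) ≤ Real.log ((n : ℝ) + 2) := by
    rw [Real.le_log_iff_exp_le (by linarith)]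
    have := Real.exp_one_lt_d9
    linarith
  have hY : ((⌈m⌉₊ : ℕ) : ℝ) ≤ 2 * m := by
    have := Nat.ceil_lt_add_one (a := m) (by linarith)
    linarith
  have hlog : ((Nat.log 2 n : ℕ) : ℝ) + 1 ≤ 3 * Real.log ((n : ℝ) + 2) := by
    have h1 : (Nat.log 2 n : ℝ) * Real.log 2 ≤ Real.log n := by
      rw [← Real.log_pow]
      apply Real.log_le_log (by positivity)
      have : 2 ^ Nat.log 2 n ≤ n := Nat.pow_log_le_self 2 (by omega)
      exact_mod_cast this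
    have h2 : Real.log n + Real.log 2 ≤ 2 * Real.log ((n : ℝ) + 2) := by
      rw [← Real.log_mul hn0.ne' (by norm_num)]
      have : 2 * Real.log ((n : ℝ) + 2) = Real.log (((n : ℝ) + 2) ^ 2) := by
        rw [Real.log_pow]
        norm_num
      rw [this]
      apply Real.log_le_log (by positivity)
      nlinarith
    have h4 : ((Nat.log 2 n : ℝ) + 1) * Real.log 2 ≤ 2 * Real.log ((n : ℝ) + 2) := by
      linarith
    have h5 : (0 : ℝ) ≤ (Nat.log 2 n : ℝ) + 1 := by positivity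
    have h6 : ((Nat.log 2 n : ℝ) + 1) * (2 / 3) ≤ 2 * Real.log ((n : ℝ) + 2) :=
      le_trans (mul_le_mul_of_nonneg_left hl2 h5) h4
    linarith
  have hbase : ((C0 * ((Nat.log 2 n + 1) * ⌈m⌉₊) : ℕ) : ℝ) ≤ ((6 * C0 : ℕ) : ℝ) * Real.log ((n : ℝ) + 2) * m := by
    push_cast
    calc (C0 : ℝ) * (((Nat.log 2 n : ℝ) + 1) * (⌈m⌉₊ : ℝ)) ≤ C0 * ((3 * Real.log ((n : ℝ) + 2)) * (2 * m)) := by
          apply mul_le_mul_of_nonneg_left _ (by linarith)
          exact mul_le_mul hlog hY (by positivity) (by positivity)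
      _ = _ := by ring
  have hone : 1 ≤ ((6 * C0 : ℕ) : ℝ) * Real.log ((n : ℝ) + 2) * m := by
    push_cast
    have h7 : (1 : ℝ) ≤ 6 * C0 := by linarith
    have h8 : 1 ≤ 6 * (C0 : ℝ) * Real.log ((n : ℝ) + 2) := by nlinarith
    nlinarith
  rw [Nat.cast_pow]
  calc ((C0 * ((Nat.log 2 n + 1) * ⌈m⌉₊) : ℕ) : ℝ) ^ C0
      ≤ (((6 * C0 : ℕ) : ℝ) * Real.log ((n : ℝ) + 2) * m) ^ C0 := pow_le_pow_left₀ (by positivity) hbase _
    _ ≤ _ := pow_le_pow_right₀ hone (by omega)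

theorem ZZ_le_WW (C : ℕ) (hC : 1 ≤ C) (n : ℕ) (hn : 1 ≤ n) (M : ℝ) :
    ZZ C n M ≤ (WW (3 * C) n ⌈max 1 (Real.log M)⌉₊ : ℝ) := by
  unfold WW ZZ
  have hn1 : (1 : ℝ) ≤ n := by exact_mod_cast hn
  have hn0 : (0 : ℝ) < n := by linarith
  set m := max 1 (Real.log M) with hm
  have hm1 : 1 ≤ m := le_max_left _ _
  have hCR : (1 : ℝ) ≤ C := by exact_mod_cast hC
  have hY : m ≤ ((⌈m⌉₊ : ℕ) : ℝ) := Nat.le_ceil _
  have hY1 : 1 ≤ ⌈m⌉₊ := Nat.one_le_ceil_iff.2 (by linarith)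
  have hlog0 : 0 ≤ Real.log ((n : ℝ) + 2) := Real.log_nonneg (by linarith)
  have hlog : Real.log ((n : ℝ) + 2) ≤ 3 * ((Nat.log 2 n : ℝ) + 1) := by
    have h1 : Real.log n ≤ ((Nat.log 2 n : ℝ) + 1) * Real.log 2 := by
      have : ((Nat.log 2 n : ℝ) + 1) * Real.log 2 = Real.log ((2 : ℝ) ^ (Nat.log 2 n + 1)) := by
        rw [Real.log_pow]
        push_cast
        ring
      rw [this]
      apply Real.log_le_log hn0
      have h2 : n < 2 ^ (Nat.log 2 n + 1) := Nat.lt_pow_succ_log_self (by norm_num) n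
      exact_mod_cast h2.le
    have h2 : Real.log ((n : ℝ) + 2) ≤ Real.log n + Real.log 3 := by
      rw [← Real.log_mul hn0.ne' (by norm_num)]
      apply Real.log_le_log (by positivity)
      linarith
    have h3 : Real.log 3 ≤ 2 := by
      rw [Real.log_le_iff_le_exp (by norm_num)]
      have h4 := Real.add_one_le_exp (2 : ℝ)
      linarith
    have h5 : Real.log 2 ≤ 1 := by
      have := Real.log_two_lt_d9
      linarith
    have h6 : (0 : ℝ) ≤ (Nat.log 2 n : ℝ) := by positivity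
    nlinarith
  have hbase : (C : ℝ) * Real.log ((n : ℝ) + 2) * m ≤ ((3 * C * ((Nat.log 2 n + 1) * ⌈m⌉₊) : ℕ) : ℝ) := by
    push_cast
    calc (C : ℝ) * Real.log ((n : ℝ) + 2) * m ≤ C * (3 * ((Nat.log 2 n : ℝ) + 1)) * (⌈m⌉₊ : ℝ) := by
          apply mul_le_mul _ hY (by linarith) (by positivity)
          exact mul_le_mul_of_nonneg_left hlog (by linarith)
      _ = _ := by ring
  rw [Nat.cast_pow]
  calc ((C : ℝ) * Real.log ((n : ℝ) + 2) * m) ^ C ≤ ((3 * C * ((Nat.log 2 n + 1) * ⌈m⌉₊) : ℕ) : ℝ) ^ C :=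
        pow_le_pow_left₀ (by positivity) hbase _
    _ ≤ _ := by
        apply pow_le_pow_right₀ _ (by omega)
        have h1 : 1 ≤ 3 * C * ((Nat.log 2 n + 1) * ⌈m⌉₊) :=
          Nat.mul_pos (by omega) (Nat.mul_pos (Nat.succ_pos _) hY1)
        exact_mod_cast h1

theorem WW_mono_Y (C n : ℕ) {Y Y' : ℕ} (h : Y ≤ Y') : WW C n Y ≤ WW C n Y' := by
  unfold WW
  exact Nat.pow_le_pow_left (Nat.mul_le_mul_left _ (Nat.mul_le_mul_left _ h)) _

/-- The structure theorem in real terms. -/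
theorem struct_quant (A : ℕ) : ∃ C : ℕ, ∃ c δ : ℝ, 1 ≤ C ∧ 0 < c ∧ 0 < δ ∧
    ∀ (K : Type) [Field K] [NumberField K] [IsGalois ℚ K] (β : K), IsU β → Red β → ¬ Tors β →
      ∀ n : ℕ, Module.finrank ℚ (IntermediateField.adjoin ℚ {β}) = n →
      c * (n : ℝ) ^ δ ≤ Real.log (mm β) ∨ (ZZ C n (mm β) < n ∧
      ∃ L : IntermediateField ℚ K, L ≤ IntermediateField.adjoin ℚ {β} ∧
        n ≤ 2 * Module.finrank ℚ L ∧ L ≠ ⊥ ∧
        (∀ M : IntermediateField ℚ K, M ≤ IntermediateField.adjoin ℚ {β} → ¬ L ≤ M →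
          (Module.finrank ℚ M : ℝ) ≤ ZZ C n (mm β)) ∧
        ∀ F : IntermediateField ℚ K, F < L →
          (∀ M : IntermediateField ℚ K, F ≤ M → M ≤ L → M = F ∨ M = L) →
          ∀ γ ∈ L, γ ∉ F → AlmostSimple (minpoly F γ).Gal ∧
          n ^ A ≤ Nat.card (minpoly F γ).Gal ∧
          ∀ γ' ∈ (minpoly F γ).rootSet K, γ' ≠ γ →
            (n : ℝ) ^ 2 ≤ ZZ C n (mm β) *
                Module.finrank ℚ (L ⊔ IntermediateField.adjoin ℚ {γ'} : IntermediateField ℚ K)) := by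
  obtain ⟨C0, hC0, hmain⟩ := structure_red A
  obtain ⟨c, hc, hlog⟩ := log_mm_of_WW (3 * (6 * C0)) (by omega)
  refine ⟨6 * C0, c, 1 / (2 * ((3 * (6 * C0) : ℕ) : ℝ)), by omega, hc, by positivity, ?_⟩
  intro K _ _ _ β hβU hβR hβT n hn
  have hdeg : (minpoly ℚ β).natDegree = n := by
    rw [← hn, IntermediateField.adjoin.finrank (IsIntegral.of_finite ℚ β)]
  have hn1 : 1 ≤ n := by
    rw [← hdeg]
    exact minpoly.natDegree_pos (IsIntegral.of_finite ℚ β)
  have hm1 : 1 < mm β := one_lt_mm β hβU hβT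
  set Y := ⌈max 1 (Real.log (mm β))⌉₊ with hY
  have hY1 : 1 ≤ Y := Nat.one_le_ceil_iff.2 (lt_of_lt_of_le one_pos (le_max_left _ _))
  have hmY : mm β ≤ Real.exp Y := by
    rw [← Real.log_le_iff_le_exp (by linarith)]
    exact (le_max_right 1 _).trans (Nat.le_ceil _)
  by_cases hcase : n ≤ WW (3 * (6 * C0)) n Y
  · left
    have h1 := hlog K β hβU hm1 (by
      intro Y' hY' hmY'
      rw [hdeg]
      refine hcase.trans (WW_mono_Y _ _ ?_)
      rw [hY, Nat.ceil_le, max_le_iff]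
      constructor
      · exact_mod_cast hY'
      · rwa [Real.log_le_iff_le_exp (by linarith)])
    rw [hdeg] at h1
    exact h1
  · right
    push Not at hcase
    have hZ := ZZ_le_WW (6 * C0) (by omega) n hn1 (mm β)
    have hW := WW_le_ZZ C0 hC0 n hn1 (mm β)
    rw [← hY] at hZ hW
    refine ⟨lt_of_le_of_lt hZ (by exact_mod_cast hcase), ?_⟩
    rcases hmain K β Y hβU hβR hβT hY1 hmY with h | ⟨L, h1, -, h2, h3, h4, h5⟩
    · exfalso
      rw [hn] at h
      have := WW_mono (C := C0) (C' := 3 * (6 * C0)) (n := n) (Y := Y) (by omega) (by omega) hY1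
      omega
    · rw [hn] at h2 h4
      refine ⟨L, h1, h2, h3, ?_, ?_⟩
      · intro M hM hLM
        refine le_trans ?_ hW
        exact_mod_cast h4 M hM hLM
      · intro F hF hFm γ hγ hγF
        obtain ⟨g1, g2, g3⟩ := h5 F hF hFm γ hγ hγF
        rw [hn] at g2 g3
        refine ⟨g1, g2, ?_⟩
        intro γ' hγ' hne
        have g4 := g3 γ' hγ' hne
        have g5 : (n : ℝ) ^ 2 ≤ (WW C0 n Y : ℝ) *
            Module.finrank ℚ (L ⊔ IntermediateField.adjoin ℚ {γ'} : IntermediateField ℚ K) := by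
          exact_mod_cast g4
        exact g5.trans (mul_le_mul_of_nonneg_right hW (Nat.cast_nonneg _))

end H25
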