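import Pool.Agent.H25.AD.AD
import Pool.Agent.H95.Leh.FWide
import Pool.Agent.H49.St.Pure2

/-!
# The quantitative theorem in terms of stabilisers
-/

namespace H25

open Pool.Agent.H49.St Pool.H95.Leh

/-- the loss factor -/
def WW (C n Y : ℕ) : ℕ := (C * ((Nat.log 2 n + 1) * Y)) ^ C

theorem WW_mono {C C' n Y : ℕ} (h : C ≤ C') (hC : 1 ≤ C') (hY : 1 ≤ Y) : WW C n Y ≤ WW C' n Y := by
  unfold WW
  have h1 : 1 ≤ (Nat.log 2 n + 1) * Y := Nat.mul_pos (Nat.succ_pos _) hY
  calc (C * ((Nat.log 2 n + 1) * Y)) ^ C ≤ (C' * ((Nat.log 2 n + 1) * Y)) ^ C :=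
        Nat.pow_le_pow_left (Nat.mul_le_mul_right _ h) _
    _ ≤ (C' * ((Nat.log 2 n + 1) * Y)) ^ C' := Nat.pow_le_pow_right (Nat.mul_pos hC h1) h

theorem le_WW {C n Y : ℕ} (hC : 1 ≤ C) (hY : 1 ≤ Y) : C ≤ WW C n Y := by
  unfold WW
  have h1 : 1 ≤ (Nat.log 2 n + 1) * Y := Nat.mul_pos (Nat.succ_pos _) hY
  calc C ≤ C * ((Nat.log 2 n + 1) * Y) := Nat.le_mul_of_pos_right _ h1
    _ ≤ _ := Nat.le_self_pow (by omega) _

theorem one_le_WW {C n Y : ℕ} (hC : 1 ≤ C) (hY : 1 ≤ Y) : 1 ≤ WW C n Y := hC.trans (le_WW hC hY)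

theorem wide_of_AD (r : ℕ) (hr : 1 ≤ r) : ∃ C : ℕ, 1 ≤ C ∧
    ∀ (K : Type) [Field K] [NumberField K] [IsGalois ℚ K] (ι : K →+* ℂ) (β : K) (Y : ℕ),
      IsU β → Red β → 1 ≤ Y → mm β ≤ Real.exp Y → 2 ≤ (minpoly ℚ β).natDegree →
      ∀ x : Fin r → ((K ≃ₐ[ℚ] K) → ℝ), (∀ i, ∃ g, x i = act K g (Lg ι β)) →
        LinearIndependent ℚ x →
        (stab (act K) (Lg ι β)).index ^ r ≤ WW C (stab (act K) (Lg ι β)).index Y *
          (⨅ i, stab (act K) (x i)).index := by
  obtain ⟨C, h0⟩ := AD r hr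
  refine ⟨max C 1, le_max_right _ _, fun K _ _ _ ι β Y hβ hr' hY hm hn => ?_⟩
  intro x hx hli
  choose g hg using hx
  have hx' : ∀ i, x i = Lg ι (g i β) := fun i => hg i
  have h1 := h0 K (minpoly ℚ β).natDegree Y (fun i => g i β) hn hY
    (fun i => (IsU.map hβ (g i)).int)
    (fun i => by rw [minpoly.algEquiv_eq])
    (fun i => by
      have h2 : minpoly ℤ (g i β) = minpoly ℤ β :=
        minpoly.algEquiv_eq ((g i).restrictScalars ℤ) β
      rw [h2]
      exact hm)
    (fun m h2 => by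
      have h3 := Lg_prod_zpow ι (fun i => g i β) (fun i => (IsU.map hβ (g i)).ne) m
      have h4 : Lg ι (1 : K) = 0 := by
        funext h
        simp [Lg]
      rw [h2, h4] at h3
      have h5 : ∑ i, (m i : ℚ) • x i = 0 := by
        rw [h3]
        exact Finset.sum_congr rfl fun i _ => by rw [hx']
      have h6 := Fintype.linearIndependent_iff.1 hli (fun i => (m i : ℚ)) h5
      funext i
      exact_mod_cast h6 i)
  have h2 : ∀ i, stab (act K) (x i) = MulAction.stabilizer (K ≃ₐ[ℚ] K) (g i β) := fun i => by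
    rw [hx', stab_Lg ι hβ hr' (g i)]
  simp only [h2]
  rw [stab_index_Lg ι hβ hr', index_iInf]
  exact h1.trans (Nat.mul_le_mul_right _ (WW_mono (le_max_left _ _) (le_max_right _ _) hY))

variable {G V : Type*} [Group G] [Finite G] [AddCommGroup V] [Module ℚ V]

/-- Intermediate subgroups, with an arbitrary loss factor. -/
theorem intermediate' (ρ : G →* Module.End ℚ V) {a : V} (ha : a ≠ 0) {Z : ℕ}
    (H2 : ∀ s, LinearIndependent ℚ ![a, ρ s a] →
      (stab ρ a).index ^ 2 ≤ Z * (stab ρ a ⊓ stab ρ (ρ s a)).index)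
    {J : Subgroup G} (h1 : stab ρ a ≤ J) (h2 : ¬ J ≤ lstab ρ a) : J.index ≤ Z := by
  obtain ⟨g, hgJ, hg⟩ := SetLike.not_le_iff_exists.mp h2
  have e1 := H2 g (li_pair ρ ha hg)
  set n := (stab ρ a).index with hn
  have hcj : stab ρ (ρ g a) = cj g (stab ρ a) := by
    ext x
    rw [mem_cj, mem_stab, mem_stab, map_mul, map_mul, Module.End.mul_apply, Module.End.mul_apply]
    constructor
    · intro h
      rw [h, inv_apply_apply]
    · intro h
      have := congrArg (ρ g) h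
      rwa [apply_inv_apply] at this
  have hle : stab ρ (ρ g a) ≤ J := by
    rw [hcj]
    intro x hx
    rw [mem_cj] at hx
    have h3 := h1 hx
    have h4 : x = g * (g⁻¹ * x * g) * g⁻¹ := by group
    rw [h4]
    exact J.mul_mem (J.mul_mem hgJ h3) (J.inv_mem hgJ)
  have hidx : (stab ρ (ρ g a)).index = n := by
    rw [hcj, hn, cj]
    exact Subgroup.index_map_of_bijective (MulAut.conj g).bijective _
  have m1 : (stab ρ a).relIndex J * J.index = n := Subgroup.relIndex_mul_index h1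
  have m2 : (stab ρ (ρ g a)).relIndex J * J.index = n := by
    rw [Subgroup.relIndex_mul_index hle, hidx]
  have m3 : (stab ρ a ⊓ stab ρ (ρ g a)).index ≤
      (stab ρ a).relIndex J * (stab ρ (ρ g a)).relIndex J * J.index := by
    rw [← Subgroup.relIndex_mul_index (inf_le_left.trans h1 : stab ρ a ⊓ stab ρ (ρ g a) ≤ J)]
    exact Nat.mul_le_mul_right _ Subgroup.relIndex_inf_le
  have hJ0 : 0 < J.index := Nat.pos_of_ne_zero Subgroup.index_ne_zero_of_finite
  have m4 : (stab ρ (ρ g a)).relIndex J = (stab ρ a).relIndex J :=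
    Nat.eq_of_mul_eq_mul_right hJ0 (m2.trans m1.symm)
  rw [m4] at m3
  set m := (stab ρ a).relIndex J with hm
  have hn0 : 0 < n := Nat.pos_of_ne_zero Subgroup.index_ne_zero_of_finite
  have hm0 : 0 < m := by
    rcases Nat.eq_zero_or_pos m with h | h
    · rw [h] at m1; omega
    · exact h
  have h5 : (m * J.index) ^ 2 ≤ Z * (m * m * J.index) := by
    rw [m1]
    exact e1.trans (Nat.mul_le_mul_left _ m3)
  have h6 : J.index * (m * m * J.index) ≤ Z * (m * m * J.index) := by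
    calc J.index * (m * m * J.index) = (m * J.index) ^ 2 := by ring
      _ ≤ _ := h5
  exact Nat.le_of_mul_le_mul_right h6 (by positivity)

end H25
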